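import Pool.Agent.Lib.MP_de73ed_al.Spec

set_option linter.all false

namespace Pool.Agent.Lib.MP_de73ed_al

theorem aPartStmt : APartStmt := by
  intro G _ _ K H C X p hp hK hH hKH hrel hC hcop hX x hx
  obtain ⟨n, hn⟩ := hrel
  rw [hC x]
  intro h hh
  have hyX : x * h * x⁻¹ * h⁻¹ ∈ X := hX x hx h hh
  have hyH : x * h * x⁻¹ * h⁻¹ ∈ H := H.mul_mem (hH.conj_mem h hh x) (H.inv_mem hh)
  generalize x * h * x⁻¹ * h⁻¹ = y at hyX hyH
  have h1 : y ^ p ^ n ∈ K := by
    haveI : (K.subgroupOf H).Normal := hK.subgroupOf H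
    have h2 := Subgroup.pow_index_mem (K.subgroupOf H) (⟨y, hyH⟩ : H)
    have h3 : (K.subgroupOf H).index = p ^ n := hn
    rw [h3] at h2
    have h4 := Subgroup.mem_subgroupOf.1 h2
    simpa using h4
  have h2 : orderOf y ∣ Nat.card X := by
    have h3 := orderOf_dvd_natCard (⟨y, hyX⟩ : X)
    have h4 : orderOf (⟨y, hyX⟩ : X) = orderOf y := by
      rw [← Subgroup.orderOf_coe]
    rwa [h4] at h3
  have h3 : (p ^ n).Coprime (orderOf y) := by
    apply Nat.Coprime.pow_left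
    rw [Nat.Prime.coprime_iff_not_dvd hp]
    intro h4
    exact hcop (h4.trans h2)
  obtain ⟨m, hm⟩ := exists_pow_eq_self_of_coprime h3
  rw [← hm]
  exact K.pow_mem h1 m

end Pool.Agent.Lib.MP_de73ed_al
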