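import Pool.Agent.Lib.MP_de73ed_al.Spec

set_option linter.all false

namespace Pool.Agent.Lib.MP_de73ed_al

namespace BPart

theorem chief_comap {G G' : Type} [Group G] [Group G'] (φ : G →* G')
    (hφ : Function.Surjective φ) {K' H' : Subgroup G'} (h : IsChief K' H') :
    IsChief (K'.comap φ) (H'.comap φ) := by
  haveI := h.nK
  haveI := h.nH
  refine ⟨inferInstance, inferInstance, ?_, ?_⟩
  · exact (Subgroup.comap_lt_comap_of_surjective hφ).2 h.lt
  · intro N hN h1 h2
    have hker : φ.ker ≤ N := by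
      refine le_trans ?_ h1
      intro x hx
      rw [Subgroup.mem_comap, MonoidHom.mem_ker.1 hx]
      exact K'.one_mem
    have hNm : (N.map φ).Normal := hN.map φ hφ
    have e : (N.map φ).comap φ = N := Subgroup.comap_map_eq_self hker
    have h1' : K' ≤ N.map φ := by
      intro y hy
      obtain ⟨x, rfl⟩ := hφ y
      exact ⟨x, h1 hy, rfl⟩
    have h2' : N.map φ ≤ H' := by
      rintro y ⟨x, hx, rfl⟩
      exact h2 hx
    rcases h.eq _ hNm h1' h2' with h3 | h3
    · left; rw [← e, h3]
    · right; rw [← e, h3]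

theorem cent_comap {G G' : Type} [Group G] [Group G'] (φ : G →* G')
    (hφ : Function.Surjective φ) {K' H' C' : Subgroup G'} (h : IsCent K' H' C') :
    IsCent (K'.comap φ) (H'.comap φ) (C'.comap φ) := by
  intro g
  rw [Subgroup.mem_comap, h (φ g)]
  constructor
  · intro h1 x hx
    rw [Subgroup.mem_comap]
    simpa using h1 (φ x) hx
  · intro h1 y hy
    obtain ⟨x, rfl⟩ := hφ y
    have := h1 x hy
    rw [Subgroup.mem_comap] at this
    simpa using this

theorem relIndex_comap_comap {G G' : Type} [Group G] [Group G'] (φ : G →* G')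
    (hφ : Function.Surjective φ) (K' H' : Subgroup G') :
    (K'.comap φ).relIndex (H'.comap φ) = K'.relIndex H' := by
  rw [Subgroup.relIndex_comap, Subgroup.map_comap_eq_self_of_surjective hφ]

theorem coprime_part {G : Type} [Group G] [Finite G] (p : ℕ) (hp : p.Prime)
    (L D : Subgroup G) [L.Normal] [D.Normal] (hLD : L ≤ D) (n : ℕ) (hn : Nat.card L = p ^ n)
    (hcen : ∀ l ∈ L, ∀ d ∈ D, l * d = d * l) (hm : ¬ p ∣ L.relIndex D) :
    ∃ N : Subgroup G, N.Normal ∧ Nat.card N = L.relIndex D ∧ N ≤ D ∧ N.relIndex D = p ^ n := by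
  classical
  have hcop : Nat.Coprime (p ^ n) (L.relIndex D) := by
    apply Nat.Coprime.pow_left
    exact (Nat.Prime.coprime_iff_not_dvd hp).2 hm
  have hcardL' : Nat.card (L.subgroupOf D) = p ^ n := by
    rw [← hn]
    exact Nat.card_congr (Subgroup.subgroupOfEquivOfLe hLD).toEquiv
  obtain ⟨T, hT⟩ := Subgroup.exists_right_complement'_of_coprime (N := L.subgroupOf D)
    (by rw [hcardL']; exact hcop)
  have hTcard : Nat.card T = L.relIndex D := by
    have := hT.symm.index_eq_card
    exact this.symm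
  have hTidx : T.index = p ^ n := by
    rw [hT.index_eq_card, hcardL']
  have key : ∀ x : D, x ∈ T ↔ x ^ (L.relIndex D) = 1 := by
    intro x
    constructor
    · intro hx
      have h1 : (⟨x, hx⟩ : T) ^ Nat.card T = 1 := pow_card_eq_one'
      rw [hTcard] at h1
      have h2 := congrArg (fun z : T => (z : D)) h1
      simpa using h2
    · intro hx
      obtain ⟨⟨l, t⟩, hlt⟩ := hT.2 x
      have hlt' : (l : D) * (t : D) = x := hlt
      have hl : ((l : D) : G) ∈ L := l.2
      have hcomm : Commute (l : D) (t : D) := by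
        apply Subtype.ext
        exact hcen _ hl _ (t : D).2
      have h1 : (t : D) ^ (L.relIndex D) = 1 := by
        have h1 : (t : T) ^ Nat.card T = 1 := pow_card_eq_one'
        rw [hTcard] at h1
        have h2 := congrArg (fun z : T => (z : D)) h1
        simpa using h2
      rw [← hlt', hcomm.mul_pow, h1, mul_one] at hx
      have h3 : (l : D) ^ (p ^ n) = 1 := by
        have h1 : (l : L.subgroupOf D) ^ Nat.card (L.subgroupOf D) = 1 := pow_card_eq_one'
        rw [hcardL'] at h1
        have h2 := congrArg (fun z : L.subgroupOf D => (z : D)) h1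
        simpa using h2
      have h4 : orderOf (l : D) ∣ 1 := by
        rw [← hcop]
        exact Nat.dvd_gcd (orderOf_dvd_of_pow_eq_one h3) (orderOf_dvd_of_pow_eq_one hx)
      have h5 : (l : D) = 1 := orderOf_eq_one_iff.1 (Nat.dvd_one.1 h4)
      rw [← hlt', h5, one_mul]
      exact t.2
  refine ⟨T.map D.subtype, ?_, ?_, ?_, ?_⟩
  · constructor
    rintro y ⟨x, hx, rfl⟩ g
    have hx' := (key x).1 hx
    have hgD : g * (x : G) * g⁻¹ ∈ D := (inferInstance : D.Normal).conj_mem _ x.2 g
    refine ⟨⟨g * (x : G) * g⁻¹, hgD⟩, ?_, rfl⟩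
    apply (key _).2
    apply Subtype.ext
    rw [Subgroup.coe_pow, conj_pow]
    have : (x : G) ^ (L.relIndex D) = 1 := by
      have := congrArg (fun z : D => (z : G)) hx'
      simpa using this
    rw [this]
    simp
  · rw [← hTcard]
    exact Nat.card_congr (T.equivMapOfInjective D.subtype D.subtype_injective).symm.toEquiv
  · exact Subgroup.map_subtype_le T
  · have : (T.map D.subtype).subgroupOf D = T :=
      Subgroup.comap_map_eq_self_of_injective D.subtype_injective T
    rw [Subgroup.relIndex, this, hTidx]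

theorem main (hC : CentStmt) (hE : ElemStmt) (p : ℕ) (hp : p.Prime) (π : Set ℕ) (hpπ : p ∈ π) :
    ∀ (n : ℕ) (G : Type) [Group G] [Finite G], Nat.card G = n → IsSolvable G →
    (∀ (K H C : Subgroup G), C.Normal → IsChief K H → IsCent K H C → p ∣ K.relIndex H →
      ∀ q : ℕ, q.Prime → q ∣ C.index → q ∈ π) →
    ∃ N : Subgroup G, N.Normal ∧ ¬ p ∣ Nat.card N ∧ ∀ q : ℕ, q.Prime → q ∣ N.index → q ∈ π := by
  intro n
  induction n using Nat.strong_induction_on with
  | _ n ih =>
  intro G _ _ hcard hsol hyp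
  by_cases hbt : (⊤ : Subgroup G) = ⊥
  · refine ⟨⊥, inferInstance, ?_, ?_⟩
    · rw [Subgroup.card_bot]
      exact fun h => hp.one_lt.ne' (Nat.dvd_one.1 h)
    · intro q hq hqd
      rw [← hbt, Subgroup.index_top] at hqd
      exact absurd (Nat.dvd_one.1 hqd) hq.one_lt.ne'
  obtain ⟨-, L, hL, -⟩ := hC.2.1 G ⊤ inferInstance hbt
  haveI := hL.nH
  have hLne : L ≠ ⊥ := hL.lt.ne'
  have hcL : 1 < Nat.card L := (Subgroup.one_lt_card_iff_ne_bot L).2 hLne
  have hmk : Function.Surjective (QuotientGroup.mk' L) := QuotientGroup.mk'_surjective L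
  have hcq : Nat.card (G ⧸ L) < n := by
    rw [← hcard, Subgroup.card_eq_card_quotient_mul_card_subgroup L]
    have : 0 < Nat.card (G ⧸ L) := Nat.card_pos
    nlinarith
  haveI : Group.IsSolvable G := hsol
  have hsolq : Group.IsSolvable (G ⧸ L) := inferInstance
  obtain ⟨M', hM'n, hM'c, hM'i⟩ := ih _ hcq (G ⧸ L) rfl hsolq (by
    intro K' H' C' hC'n hch hce hpd q hq hqd
    refine hyp (K'.comap (QuotientGroup.mk' L)) (H'.comap (QuotientGroup.mk' L))
      (C'.comap (QuotientGroup.mk' L)) (hC'n.comap _) (chief_comap _ hmk hch)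
      (cent_comap _ hmk hce) ?_ q hq ?_
    · rw [relIndex_comap_comap _ hmk]; exact hpd
    · rw [Subgroup.index_comap_of_surjective _ hmk]; exact hqd)
  set M : Subgroup G := M'.comap (QuotientGroup.mk' L) with hM
  haveI : M.Normal := hM'n.comap _
  have hMi : M.index = M'.index := Subgroup.index_comap_of_surjective _ hmk
  have hLM : L ≤ M := by
    intro x hx
    rw [hM, Subgroup.mem_comap]
    have : QuotientGroup.mk' L x = 1 := (QuotientGroup.eq_one_iff x).2 hx
    rw [this]
    exact M'.one_mem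
  have hLbot : L = (⊥ : Subgroup (G ⧸ L)).comap (QuotientGroup.mk' L) := by
    rw [MonoidHom.comap_bot, QuotientGroup.ker_mk']
  have hrel : L.relIndex M = Nat.card M' := by
    have h1 : L.relIndex M = ((⊥ : Subgroup (G ⧸ L)).comap (QuotientGroup.mk' L)).relIndex
        (M'.comap (QuotientGroup.mk' L)) := by rw [← hLbot]
    rw [h1, relIndex_comap_comap _ hmk, Subgroup.relIndex_bot_left]
  by_cases hpL : p ∣ Nat.card L
  · -- the case of a `p`-group `L`
    have hpL' : p ∣ (⊥ : Subgroup G).relIndex L := by rwa [Subgroup.relIndex_bot_left]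
    obtain ⟨⟨e, he⟩, -, hab⟩ := hE G hsol ⊥ L hL p hp hpL'
    rw [Subgroup.relIndex_bot_left] at he
    obtain ⟨C, hCn, hCc⟩ := hC.1 G ⊥ L inferInstance inferInstance
    haveI := hCn
    have hCi := hyp ⊥ L C hCn hL hCc hpL'
    have hLC : L ≤ C := by
      intro g hg
      exact (hCc g).2 (fun h hh => hab g hg h hh)
    have hLD : L ≤ M ⊓ C := le_inf hLM hLC
    have hDi : ∀ q : ℕ, q.Prime → q ∣ (M ⊓ C).index → q ∈ π := by
      intro q hq hqd
      have h1 : (M ⊓ C).index = (M ⊓ C).relIndex M * M.index :=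
        (Subgroup.relIndex_mul_index inf_le_left).symm
      rw [h1] at hqd
      rcases (hq.dvd_mul).1 hqd with h2 | h2
      · rw [Subgroup.inf_relIndex_left] at h2
        exact hCi q hq (h2.trans (Subgroup.relIndex_dvd_index_of_normal C M))
      · rw [hMi] at h2
        exact hM'i q hq h2
    have hm : ¬ p ∣ L.relIndex (M ⊓ C) := by
      intro h
      apply hM'c
      rw [← hrel, ← Subgroup.relIndex_mul_relIndex L (M ⊓ C) M hLD inf_le_left]
      exact Dvd.dvd.mul_right h _
    obtain ⟨N, hNn, hNc, hND, hNi⟩ := coprime_part p hp L (M ⊓ C) hLD e he (by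
      intro l hl d hd
      have h1 := (hCc d).1 hd.2 l hl
      rw [Subgroup.mem_bot] at h1
      have h2 : d * l = l * d := by
        have h3 : d * l * d⁻¹ * l⁻¹ = 1 := h1
        calc d * l = (d * l * d⁻¹ * l⁻¹) * (l * d) := by group
          _ = l * d := by rw [h3, one_mul]
      exact h2.symm) hm
    refine ⟨N, hNn, ?_, ?_⟩
    · rw [hNc]; exact hm
    · intro q hq hqd
      rw [← Subgroup.relIndex_mul_index hND, hNi] at hqd
      rcases (hq.dvd_mul).1 hqd with h2 | h2
      · have : q ∣ p := hq.dvd_of_dvd_pow h2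
        rw [(Nat.prime_dvd_prime_iff_eq hq hp).1 this]
        exact hpπ
      · exact hDi q hq h2
  · -- the case of a `p'`-group `L`
    refine ⟨M, inferInstance, ?_, ?_⟩
    · intro hpM
      have h1 : (⊥ : Subgroup G).relIndex L * L.relIndex M = (⊥ : Subgroup G).relIndex M :=
        Subgroup.relIndex_mul_relIndex ⊥ L M bot_le hLM
      rw [Subgroup.relIndex_bot_left, Subgroup.relIndex_bot_left, hrel] at h1
      rw [← h1] at hpM
      rcases (hp.dvd_mul).1 hpM with h2 | h2
      · exact hpL h2
      · exact hM'c h2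
    · intro q hq hqd
      rw [hMi] at hqd
      exact hM'i q hq hqd

end BPart

theorem bPartStmt (hC : CentStmt) (hE : ElemStmt) : BPartStmt := by
  intro p hp π hpπ G _ _ hsol hyp
  exact BPart.main hC hE p hp π hpπ _ G rfl hsol hyp

end Pool.Agent.Lib.MP_de73ed_al
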