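import Pool.Agent.Lib.MP_de73ed_al.Spec

set_option linter.all false

namespace Pool.Agent.Lib.MP_de73ed_al

namespace CF

variable {G : Type} [Group G]

/-- Case 1: the intersections with `N` form a chief factor. -/
theorem chief_inf (N K H : Subgroup G) [N.Normal] (hKH : IsChief K H) (he : H ⊔ N = K ⊔ N) :
    H = K ⊔ (H ⊓ N) ∧ IsChief (K ⊓ N) (H ⊓ N) := by
  have hK := hKH.nK
  have hH := hKH.nH
  have hle : K ≤ H := hKH.lt.le
  have h1 : H = K ⊔ (H ⊓ N) := by
    apply le_antisymm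
    · intro h hh
      have h2 : h ∈ K ⊔ N := by
        rw [← he]; exact Subgroup.mem_sup_left hh
      rw [Subgroup.mem_sup_of_normal_right] at h2
      obtain ⟨a, ha, b, hb, rfl⟩ := h2
      have hbH : b ∈ H := by
        have := H.mul_mem (H.inv_mem (hle ha)) hh
        simpa using this
      exact Subgroup.mul_mem_sup ha ⟨hbH, hb⟩
    · exact sup_le hle inf_le_left
  refine ⟨h1, ?_, ?_, ?_, ?_⟩
  · infer_instance
  · infer_instance
  · refine lt_of_le_of_ne (inf_le_inf_right _ hle) ?_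
    intro h2
    have : H ≤ K := by
      rw [h1, ← h2]
      exact sup_le le_rfl inf_le_left
    exact absurd (le_antisymm hle this) hKH.lt.ne
  · intro Y hY hKY hYH
    have hYH' : Y ≤ H := hYH.trans inf_le_left
    have hYN : Y ≤ N := hYH.trans inf_le_right
    rcases hKH.eq (K ⊔ Y) inferInstance le_sup_left (sup_le hle hYH') with h2 | h2
    · left
      refine le_antisymm (le_inf ?_ hYN) hKY
      rw [← h2]; exact le_sup_right
    · right
      refine le_antisymm hYH ?_
      intro x hx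
      have h3 : x ∈ K ⊔ Y := by rw [h2]; exact hx.1
      rw [Subgroup.mem_sup_of_normal_right] at h3
      obtain ⟨a, ha, b, hb, rfl⟩ := h3
      have haN : a ∈ N := by
        have := N.mul_mem hx.2 (N.inv_mem (hYN hb))
        simpa using this
      exact Y.mul_mem (hKY ⟨ha, haN⟩) hb

theorem cent_inf (N K H C : Subgroup G) [N.Normal] (hKH : IsChief K H)
    (h1 : H = K ⊔ (H ⊓ N)) (hC : IsCent K H C) : IsCent (K ⊓ N) (H ⊓ N) C := by
  have hK := hKH.nK
  have hH := hKH.nH
  have hN : N.Normal := inferInstance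
  intro g
  rw [hC g]
  constructor
  · intro h h' hh
    refine ⟨h h' hh.1, ?_⟩
    exact N.mul_mem (hN.conj_mem _ hh.2 g) (N.inv_mem hh.2)
  · intro h h' hh
    rw [h1, Subgroup.mem_sup_of_normal_right] at hh
    obtain ⟨a, ha, b, hb, rfl⟩ := hh
    have h2 := (h b hb).1
    have h3 : g * a * g⁻¹ * a⁻¹ ∈ K := K.mul_mem (hK.conj_mem _ ha g) (K.inv_mem ha)
    have h4 : a * (g * b * g⁻¹ * b⁻¹) * a⁻¹ ∈ K := hK.conj_mem _ h2 a
    have h5 : g * (a * b) * g⁻¹ * (a * b)⁻¹
        = (g * a * g⁻¹ * a⁻¹) * (a * (g * b * g⁻¹ * b⁻¹) * a⁻¹) := by group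
    rw [h5]
    exact K.mul_mem h3 h4

theorem rel_inf (N K H : Subgroup G) [K.Normal] (hle : K ≤ H) (h1 : H = K ⊔ (H ⊓ N)) :
    (K ⊓ N).relIndex (H ⊓ N) = K.relIndex H := by
  have h2 : K.relIndex H = K.relIndex (H ⊓ N) := by
    conv_lhs => rw [h1]
    exact Subgroup.relIndex_sup_left _ _
  rw [h2, ← Subgroup.inf_relIndex_right K (H ⊓ N)]
  congr 1
  rw [← inf_assoc, inf_eq_left.2 hle]

/-- Case 2. -/
theorem inf_eq (N K H : Subgroup G) [N.Normal] (hKH : IsChief K H) (he : H ⊔ N ≠ K ⊔ N) :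
    H ⊓ (K ⊔ N) = K := by
  have hK := hKH.nK
  have hH := hKH.nH
  have hle : K ≤ H := hKH.lt.le
  rcases hKH.eq (H ⊓ (K ⊔ N)) inferInstance (le_inf hle le_sup_left) inf_le_left with h | h
  · exact h
  · exfalso
    apply he
    apply le_antisymm
    · refine sup_le ?_ le_sup_right
      rw [← h]; exact inf_le_right
    · exact sup_le_sup_right hle _

theorem comap_map (N K : Subgroup G) [N.Normal] :
    (K.map (QuotientGroup.mk' N)).comap (QuotientGroup.mk' N) = K ⊔ N := by
  rw [Subgroup.comap_map_eq, QuotientGroup.ker_mk']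

theorem chief_map (N K H : Subgroup G) [N.Normal] (hKH : IsChief K H) (he : H ⊔ N ≠ K ⊔ N) :
    IsChief (K.map (QuotientGroup.mk' N)) (H.map (QuotientGroup.mk' N)) := by
  have hK := hKH.nK
  have hH := hKH.nH
  have hle : K ≤ H := hKH.lt.le
  have hs : Function.Surjective (QuotientGroup.mk' N) := QuotientGroup.mk'_surjective N
  have hI := inf_eq N K H hKH he
  refine ⟨hK.map _ hs, hH.map _ hs, ?_, ?_⟩
  · refine lt_of_le_of_ne (Subgroup.map_mono hle) ?_
    intro h
    apply he
    rw [← comap_map N K, ← comap_map N H, h]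
  · intro Y hY hKY hYH
    have hY1 : K ⊔ N ≤ Y.comap (QuotientGroup.mk' N) := by
      rw [← comap_map]; exact Subgroup.comap_mono hKY
    have hY2 : Y.comap (QuotientGroup.mk' N) ≤ H ⊔ N := by
      rw [← comap_map]; exact Subgroup.comap_mono hYH
    have hYn : (Y.comap (QuotientGroup.mk' N)).Normal := hY.comap _
    have hN1 : N ≤ Y.comap (QuotientGroup.mk' N) := le_sup_right.trans hY1
    have hK1 : K ≤ Y.comap (QuotientGroup.mk' N) := le_sup_left.trans hY1
    have key : Y.comap (QuotientGroup.mk' N) = (H ⊓ Y.comap (QuotientGroup.mk' N)) ⊔ N := by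
      apply le_antisymm
      · intro x hx
        have h3 := hY2 hx
        rw [Subgroup.mem_sup_of_normal_right] at h3
        obtain ⟨a, ha, b, hb, rfl⟩ := h3
        have haY : a ∈ Y.comap (QuotientGroup.mk' N) := by
          have := (Y.comap (QuotientGroup.mk' N)).mul_mem hx
            ((Y.comap (QuotientGroup.mk' N)).inv_mem (hN1 hb))
          simpa using this
        exact Subgroup.mul_mem_sup ⟨ha, haY⟩ hb
      · exact sup_le inf_le_right hN1
    have hYm : Y = (Y.comap (QuotientGroup.mk' N)).map (QuotientGroup.mk' N) :=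
      (Subgroup.map_comap_eq_self_of_surjective hs Y).symm
    rcases hKH.eq (H ⊓ Y.comap (QuotientGroup.mk' N)) inferInstance (le_inf hle hK1)
      inf_le_left with h | h
    · left
      rw [h] at key
      rw [hYm, key, ← comap_map, Subgroup.map_comap_eq_self_of_surjective hs]
    · right
      rw [h] at key
      rw [hYm, key, ← comap_map, Subgroup.map_comap_eq_self_of_surjective hs]

theorem cent_map (N K H C : Subgroup G) [N.Normal] (hKH : IsChief K H)
    (hI : H ⊓ (K ⊔ N) = K) (hC : IsCent K H C) :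
    IsCent (K.map (QuotientGroup.mk' N)) (H.map (QuotientGroup.mk' N))
      (C.map (QuotientGroup.mk' N)) := by
  have hK := hKH.nK
  have hH := hKH.nH
  have hs : Function.Surjective (QuotientGroup.mk' N) := QuotientGroup.mk'_surjective N
  intro g
  obtain ⟨x, rfl⟩ := hs g
  constructor
  · rintro ⟨c, hc, hcx⟩ _ ⟨h, hh, rfl⟩
    rw [← hcx]
    refine ⟨c * h * c⁻¹ * h⁻¹, (hC c).1 hc h hh, ?_⟩
    simp only [map_mul, map_inv]
  · intro hx
    refine ⟨x, ?_, rfl⟩
    show x ∈ C
    rw [hC x]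
    intro h hh
    have h1 := hx (QuotientGroup.mk' N h) ⟨h, hh, rfl⟩
    have h2 : x * h * x⁻¹ * h⁻¹ ∈ (K.map (QuotientGroup.mk' N)).comap (QuotientGroup.mk' N) := by
      rw [Subgroup.mem_comap]
      simpa only [map_mul, map_inv] using h1
    rw [comap_map] at h2
    have h3 : x * h * x⁻¹ * h⁻¹ ∈ H := H.mul_mem (hH.conj_mem _ hh x) (H.inv_mem hh)
    have h4 : x * h * x⁻¹ * h⁻¹ ∈ H ⊓ (K ⊔ N) := ⟨h3, h2⟩
    rwa [hI] at h4

theorem rel_map (N K H : Subgroup G) [N.Normal] [K.Normal] (hle : K ≤ H)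
    (hI : H ⊓ (K ⊔ N) = K) :
    (K.map (QuotientGroup.mk' N)).relIndex (H.map (QuotientGroup.mk' N)) = K.relIndex H := by
  rw [Subgroup.relIndex_map_map, QuotientGroup.ker_mk']
  have h1 : H ⊔ N = H ⊔ (K ⊔ N) := by
    rw [← sup_assoc, sup_eq_left.2 hle]
  rw [h1, Subgroup.relIndex_sup_right, ← Subgroup.inf_relIndex_right (K ⊔ N) H, inf_comm, hI]

end CF

theorem cfStmt : CFStmt := by
  intro f hf G _ _ N _ hLF hin
  refine ⟨inferInstance, ?_⟩
  intro K H C hCn hKH hC p hp hdvd
  have hK := hKH.nK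
  have hH := hKH.nH
  have hle : K ≤ H := hKH.lt.le
  by_cases he : H ⊔ N = K ⊔ N
  · obtain ⟨h1, hch⟩ := CF.chief_inf N K H hKH he
    refine hin (K ⊓ N) (H ⊓ N) C hch inf_le_right (CF.cent_inf N K H C hKH h1 hC) p hp ?_
    rw [CF.rel_inf N K H hle h1]
    exact hdvd
  · have hI := CF.inf_eq N K H hKH he
    have hs : Function.Surjective (QuotientGroup.mk' N) := QuotientGroup.mk'_surjective N
    haveI hCn' : (C.map (QuotientGroup.mk' N)).Normal := hCn.map _ hs
    have h2 := hLF.2 (K.map (QuotientGroup.mk' N)) (H.map (QuotientGroup.mk' N))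
      (C.map (QuotientGroup.mk' N)) (CF.chief_map N K H hKH he)
      (CF.cent_map N K H C hKH hI hC) p hp (by rw [CF.rel_map N K H hle hI]; exact hdvd)
    have hNC : N ≤ C := by
      intro x hx
      rw [hC x]
      intro h hh
      have h3 : x * h * x⁻¹ * h⁻¹ ∈ H := H.mul_mem (hH.conj_mem _ hh x) (H.inv_mem hh)
      have h4 : x * h * x⁻¹ * h⁻¹ ∈ N := by
        have hN : N.Normal := inferInstance
        have := N.mul_mem hx (hN.conj_mem _ (N.inv_mem hx) h)
        simpa only [mul_assoc] using this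
      have h5 : x * h * x⁻¹ * h⁻¹ ∈ H ⊓ (K ⊔ N) := ⟨h3, Subgroup.mem_sup_right h4⟩
      rwa [hI] at h5
    -- the homomorphism `(G ⧸ N) ⧸ C' → G ⧸ C`
    let φ : G ⧸ N →* G ⧸ C := QuotientGroup.map N C (MonoidHom.id G) (by
      simpa using hNC)
    have hφ : ∀ x : G, φ (QuotientGroup.mk' N x) = QuotientGroup.mk' C x := fun x => rfl
    have hker : C.map (QuotientGroup.mk' N) ≤ φ.ker := by
      rintro _ ⟨c, hc, rfl⟩
      rw [MonoidHom.mem_ker, hφ]
      exact (QuotientGroup.eq_one_iff c).2 hc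
    refine (hf p hp).quot _ _ (QuotientGroup.lift (C.map (QuotientGroup.mk' N)) φ hker) ?_ h2
    intro y
    obtain ⟨x, rfl⟩ := QuotientGroup.mk'_surjective C y
    exact ⟨QuotientGroup.mk' _ (QuotientGroup.mk' N x), rfl⟩

end Pool.Agent.Lib.MP_de73ed_al
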