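import Pool.Agent.Lib.MP_de73ed_al.Spec

set_option linter.all false

namespace Pool.Agent.Lib.MP_de73ed_al

namespace Cent

lemma exC (G : Type) [Group G] (K H : Subgroup G) (hK : K.Normal) (hH : H.Normal) :
    ∃ C : Subgroup G, C.Normal ∧ IsCent K H C := by
  haveI := hK
  haveI := hH
  haveI hN : (H.map (QuotientGroup.mk' K)).Normal :=
    Subgroup.Normal.map hH _ (QuotientGroup.mk'_surjective K)
  refine ⟨(Subgroup.centralizer ((H.map (QuotientGroup.mk' K) : Subgroup (G ⧸ K)) :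
    Set (G ⧸ K))).comap (QuotientGroup.mk' K), inferInstance, ?_⟩
  intro g
  rw [Subgroup.mem_comap, Subgroup.mem_centralizer_iff]
  constructor
  · intro h x hx
    have h1 := h (QuotientGroup.mk' K x) ⟨x, hx, rfl⟩
    have h2 : QuotientGroup.mk' K (g * x * g⁻¹ * x⁻¹) = 1 := by
      rw [map_mul, map_mul, map_mul, map_inv, map_inv, ← h1]
      group
    rwa [← QuotientGroup.eq_one_iff]
  · intro h x hx
    obtain ⟨y, hy, rfl⟩ := hx
    have h1 := h y hy
    have h2 : QuotientGroup.mk' K (g * y * g⁻¹ * y⁻¹) = 1 := by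
      rwa [QuotientGroup.mk'_apply, QuotientGroup.eq_one_iff]
    rw [map_mul, map_mul, map_mul, map_inv, map_inv] at h2
    have h3 : QuotientGroup.mk' K g * QuotientGroup.mk' K y *
        (QuotientGroup.mk' K g)⁻¹ = QuotientGroup.mk' K y := by
      rwa [mul_inv_eq_one] at h2
    rw [mul_inv_eq_iff_eq_mul] at h3
    exact h3.symm

lemma exK (G : Type) [Group G] [Finite G] (V : Subgroup G) (hV : V.Normal) (h : V ≠ ⊥) :
    ∃ K : Subgroup G, IsChief K V := by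
  classical
  have hfin : Set.Finite {N : Subgroup G | N.Normal ∧ N < V} := Set.toFinite _
  have hne : Set.Nonempty {N : Subgroup G | N.Normal ∧ N < V} :=
    ⟨⊥, inferInstance, bot_lt_iff_ne_bot.2 h⟩
  obtain ⟨K, hK⟩ := hfin.exists_maximal hne
  refine ⟨K, hK.1.1, hV, hK.1.2, ?_⟩
  intro N hN hKN hNV
  rcases hNV.eq_or_lt with h1 | h1
  · exact Or.inr h1
  · exact Or.inl (le_antisymm (hK.2 ⟨hN, h1⟩ hKN) hKN)

lemma exL (G : Type) [Group G] [Finite G] (V : Subgroup G) (hV : V.Normal) (h : V ≠ ⊥) :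
    ∃ L : Subgroup G, IsChief ⊥ L ∧ L ≤ V := by
  classical
  have hfin : Set.Finite {N : Subgroup G | N.Normal ∧ N ≠ ⊥ ∧ N ≤ V} := Set.toFinite _
  have hne : Set.Nonempty {N : Subgroup G | N.Normal ∧ N ≠ ⊥ ∧ N ≤ V} := ⟨V, hV, h, le_rfl⟩
  obtain ⟨L, hL⟩ := hfin.exists_minimal hne
  refine ⟨L, ⟨inferInstance, hL.1.1, bot_lt_iff_ne_bot.2 hL.1.2.1, ?_⟩, hL.1.2.2⟩
  intro N hN _ hNL
  by_cases h1 : N = ⊥
  · exact Or.inl h1
  · exact Or.inr (le_antisymm hNL (hL.2 ⟨hN, h1, hNL.trans hL.1.2.2⟩ hNL))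

lemma exP (G : Type) [Group G] [Finite G] (V : Subgroup G) (hV : V.Normal) (p : ℕ)
    (hp : p.Prime) (hpV : p ∣ Nat.card V) :
    ∃ K H : Subgroup G, IsChief K H ∧ H ≤ V ∧ p ∣ K.relIndex H := by
  classical
  have hfin : Set.Finite {N : Subgroup G | N.Normal ∧ p ∣ Nat.card N ∧ N ≤ V} := Set.toFinite _
  have hne : Set.Nonempty {N : Subgroup G | N.Normal ∧ p ∣ Nat.card N ∧ N ≤ V} :=
    ⟨V, hV, hpV, le_rfl⟩
  obtain ⟨H, hH⟩ := hfin.exists_minimal hne
  have hHb : H ≠ ⊥ := by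
    rintro rfl
    have := hH.1.2.1
    rw [Subgroup.card_bot] at this
    exact hp.one_lt.ne' (Nat.dvd_one.1 this)
  obtain ⟨K, hK⟩ := exK G H hH.1.1 hHb
  refine ⟨K, H, hK, hH.1.2.2, ?_⟩
  have hpK : ¬ p ∣ Nat.card K := by
    intro hd
    have := hH.2 ⟨hK.nK, hd, hK.lt.le.trans hH.1.2.2⟩ hK.lt.le
    exact absurd (lt_of_lt_of_le hK.lt this) (lt_irrefl _)
  have hcard : K.relIndex H * Nat.card K = Nat.card H := by
    have h1 := Subgroup.relIndex_mul_relIndex (⊥ : Subgroup G) K H bot_le hK.lt.le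
    rw [Subgroup.relIndex_bot_left, Subgroup.relIndex_bot_left] at h1
    rw [mul_comm]
    exact h1
  have hd : p ∣ K.relIndex H * Nat.card K := hcard ▸ hH.1.2.1
  exact (hp.dvd_mul.1 hd).resolve_right hpK

end Cent

theorem centStmt : CentStmt :=
  ⟨fun G _ K H hK hH => Cent.exC G K H hK hH,
    fun G _ _ V hV h => ⟨Cent.exK G V hV h, Cent.exL G V hV h⟩,
    fun G _ _ V hV p hp hd => Cent.exP G V hV p hp hd⟩

end Pool.Agent.Lib.MP_de73ed_al
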