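import Pool.Agent.Lib.MP_de73ed_al.Spec

set_option linter.all false
set_option autoImplicit false

namespace Pool.Agent.Lib.MP_de73ed_al

namespace Cyc

theorem part1 (P : GrpClass) (hP : IsFormation P) (hN : NClosed P) (r : ℕ) (hr : r.Prime) :
    ∀ (n : ℕ) (X : Type) [Group X] [Finite X], Nat.card X = n → IsSolvable X → P X →
      r ∣ Nat.card X → P (Multiplicative (ZMod r)) := by
  intro n
  induction n using Nat.strong_induction_on with
  | _ n ih =>
    intro X _ _ hn hsol hPX hrX
    have hcard : 1 < Nat.card X := by
      have h1 : r ≤ Nat.card X := Nat.le_of_dvd Nat.card_pos hrX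
      have := hr.one_lt
      omega
    haveI hnt : Nontrivial X := Finite.one_lt_card_iff_nontrivial.1 hcard
    haveI hsol' : Group.IsSolvable X := hsol
    by_cases hs : IsSimpleGroup X
    · haveI := hs
      have hcomm := (IsSimpleGroup.comm_iff_isSolvable (G := X)).2 hsol
      have hp : (Nat.card X).Prime := by
        letI : CommGroup X := { ‹Group X› with mul_comm := hcomm }
        exact IsSimpleGroup.prime_card
      have hreq : Nat.card X = r := ((Nat.prime_dvd_prime_iff_eq hr hp).1 hrX).symm
      haveI : Fact r.Prime := ⟨hr⟩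
      have e : X ≃* Multiplicative (ZMod r) :=
        mulEquivOfPrimeCardEq hreq (by simp [Nat.card_eq_fintype_card, ZMod.card])
      exact hP.quot X _ e.toMonoidHom e.surjective hPX
    · have hex : ∃ N : Subgroup X, N.Normal ∧ N ≠ ⊥ ∧ N ≠ ⊤ := by
        by_contra hcon
        push Not at hcon
        apply hs
        refine { eq_bot_or_eq_top_of_normal := ?_ }
        intro H hH
        by_cases h : H = ⊥
        · exact Or.inl h
        · exact Or.inr (hcon H hH h)
      obtain ⟨N, hNn, hNb, hNt⟩ := hex
      haveI := hNn
      have hmul : Nat.card X = Nat.card (X ⧸ N) * Nat.card N :=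
        Subgroup.card_eq_card_quotient_mul_card_subgroup N
      have hN1 : 1 < Nat.card N := by
        rw [Finite.one_lt_card_iff_nontrivial]
        exact (Subgroup.nontrivial_iff_ne_bot N).2 hNb
      have hQ1 : 1 < Nat.card (X ⧸ N) := by
        have h0 : Nat.card (X ⧸ N) ≠ 1 := by
          intro h
          exact hNt (Subgroup.index_eq_one.1 h)
        have h1 : 0 < Nat.card (X ⧸ N) := Nat.card_pos
        omega
      have hd := hrX
      rw [hmul] at hd
      rcases (Nat.Prime.dvd_mul hr).1 hd with h | h
      · refine ih (Nat.card (X ⧸ N)) ?_ (X ⧸ N) rfl (inferInstance : Group.IsSolvable (X ⧸ N)) ?_ h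
        · rw [← hn, hmul]
          nlinarith
        · exact hP.quot X _ (QuotientGroup.mk' N) (QuotientGroup.mk'_surjective N) hPX
      · refine ih (Nat.card N) ?_ N rfl (inferInstance : Group.IsSolvable N) (hN X N hNn hPX) h
        rw [← hn, hmul]
        nlinarith

/-- functions that are trivial on `s` -/
def triv (D ι : Type) [Group D] (s : Set ι) : Subgroup (ι → D) where
  carrier := {g | ∀ i ∈ s, g i = 1}
  mul_mem' := by
    intro a b ha hb i hi
    rw [Pi.mul_apply, ha i hi, hb i hi, one_mul]
  one_mem' := by
    intro i _
    rfl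
  inv_mem' := by
    intro a ha i hi
    rw [Pi.inv_apply, ha i hi, inv_one]

theorem mem_triv {D ι : Type} [Group D] {s : Set ι} {g : ι → D} :
    g ∈ triv D ι s ↔ ∀ i ∈ s, g i = 1 := Iff.rfl

theorem triv_normal (D ι : Type) [Group D] (s : Set ι) : (triv D ι s).Normal := by
  constructor
  intro n hn g i hi
  rw [Pi.mul_apply, Pi.mul_apply, Pi.inv_apply, hn i hi, mul_one, mul_inv_cancel]

theorem part2 (P : GrpClass) (hP : IsFormation P) (D : Type) [Group D] (ι : Type) [Finite ι]
    (hD : P D) : P (ι → D) := by
  classical
  haveI : Finite D := hP.finite D hD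
  haveI hnorm : ∀ s : Set ι, (triv D ι s).Normal := triv_normal D ι
  have key : ∀ s : Finset ι, P ((ι → D) ⧸ triv D ι (s : Set ι)) := by
    intro s
    induction s using Finset.induction_on with
    | empty =>
      refine hP.quot D _ (1 : D →* ((ι → D) ⧸ triv D ι ((∅ : Finset ι) : Set ι))) ?_ hD
      intro x
      refine ⟨1, ?_⟩
      induction x using QuotientGroup.induction_on with
      | H g =>
        rw [map_one]
        symm
        rw [QuotientGroup.eq_one_iff]
        intro i hi
        simp at hi
    | insert i s hi ih =>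
      have heq : triv D ι ((insert i s : Finset ι) : Set ι) =
          triv D ι ({i} : Set ι) ⊓ triv D ι (s : Set ι) := by
        ext g
        rw [Subgroup.mem_inf, mem_triv, mem_triv, mem_triv]
        constructor
        · intro h
          refine ⟨?_, ?_⟩
          · intro j hj
            rw [Set.mem_singleton_iff] at hj
            subst hj
            exact h j (by simp)
          · intro j hj
            exact h j (by simp at hj ⊢; exact Or.inr hj)
        · rintro ⟨h1, h2⟩ j hj
          simp only [Finset.coe_insert, Set.mem_insert_iff] at hj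
          rcases hj with hj | hj
          · exact h1 j hj
          · exact h2 j hj
      have h1 : P ((ι → D) ⧸ triv D ι ({i} : Set ι)) := by
        refine hP.quot D _ ((QuotientGroup.mk' (triv D ι ({i} : Set ι))).comp
          (MonoidHom.mulSingle (fun _ : ι => D) i)) ?_ hD
        intro x
        induction x using QuotientGroup.induction_on with
        | H g =>
          refine ⟨g i, ?_⟩
          rw [MonoidHom.comp_apply, QuotientGroup.mk'_apply, QuotientGroup.eq]
          intro j hj
          rw [Set.mem_singleton_iff] at hj
          subst hj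
          simp
      have h2 := hP.inf (ι → D) (triv D ι ({i} : Set ι)) (triv D ι (s : Set ι)) h1 ih
      let e : ((ι → D) ⧸ (triv D ι ({i} : Set ι) ⊓ triv D ι (s : Set ι))) ≃*
          ((ι → D) ⧸ triv D ι ((insert i s : Finset ι) : Set ι)) :=
        QuotientGroup.quotientMulEquivOfEq heq.symm
      exact hP.quot _ _ e.toMonoidHom e.surjective h2
  haveI : Fintype ι := Fintype.ofFinite ι
  have h := key Finset.univ
  have hbot : triv D ι ((Finset.univ : Finset ι) : Set ι) = ⊥ := by
    rw [eq_bot_iff]
    intro g hg
    rw [Subgroup.mem_bot]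
    funext i
    exact hg i (by simp)
  let e : ((ι → D) ⧸ triv D ι ((Finset.univ : Finset ι) : Set ι)) ≃* ((ι → D) ⧸ (⊥ : Subgroup (ι → D))) :=
    QuotientGroup.quotientMulEquivOfEq hbot
  have h' := hP.quot _ _ e.toMonoidHom e.surjective h
  exact hP.quot _ _ (QuotientGroup.quotientBot (G := ι → D)).toMonoidHom
    (QuotientGroup.quotientBot (G := ι → D)).surjective h'

end Cyc

theorem cycStmt : CycStmt := by
  intro P hP
  refine ⟨?_, ?_⟩
  · intro hN X _ _ hsol hPX r hr hrX
    exact Cyc.part1 P hP hN r hr (Nat.card X) X rfl hsol hPX hrX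
  · intro D _ ι _ hD
    exact Cyc.part2 P hP D ι hD

end Pool.Agent.Lib.MP_de73ed_al
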