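import Mathlib

set_option linter.all false

/-!
Classes of finite groups: formations, local formations, subnormality with respect to a class,
superradical classes. Definitions only.
-/

namespace Pool.Agent.Lib.MP_de73ed_al

/-- A class of groups. All the classes used below consist of finite groups. -/
abbrev GrpClass : Type 1 := ∀ (G : Type) [Group G], Prop

/-- `F` is a formation of finite groups (possibly empty): closed under homomorphic images
(in particular under isomorphism) and under subdirect products. -/
structure IsFormation (F : GrpClass) : Prop where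
  finite : ∀ (G : Type) [Group G], F G → Finite G
  quot : ∀ (G H : Type) [Group G] [Group H] (φ : G →* H), Function.Surjective φ → F G → F H
  inf : ∀ (G : Type) [Group G] [Finite G] (M N : Subgroup G) [M.Normal] [N.Normal],
    F (G ⧸ M) → F (G ⧸ N) → F (G ⧸ (M ⊓ N))

/-- `H / K` is a chief factor of `G`. -/
structure IsChief {G : Type} [Group G] (K H : Subgroup G) : Prop where
  nK : K.Normal
  nH : H.Normal
  lt : K < H
  eq : ∀ N : Subgroup G, N.Normal → K ≤ N → N ≤ H → N = K ∨ N = H

/-- `C` is the centralizer of `H / K` in `G`. -/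
def IsCent {G : Type} [Group G] (K H C : Subgroup G) : Prop :=
  ∀ g, g ∈ C ↔ ∀ h ∈ H, g * h * g⁻¹ * h⁻¹ ∈ K

/-- The class of the finite groups `G` with `G / C_G(H / K) ∈ f(p)` for every chief factor `H / K`
of `G` and every prime divisor `p` of the order of `H / K`. -/
def LF (f : ℕ → GrpClass) : GrpClass := fun G _ => Finite G ∧
  ∀ (K H C : Subgroup G) [C.Normal], IsChief K H → IsCent K H C →
    ∀ p : ℕ, p.Prime → p ∣ K.relIndex H → f p (G ⧸ C)

/-- `F` is a local formation. -/
def IsLocal (F : GrpClass) : Prop :=
  IsFormation F ∧ ∃ f : ℕ → GrpClass, (∀ p, p.Prime → IsFormation (f p)) ∧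
    ∀ (G : Type) [Group G], F G ↔ LF f G

/-- The `F`-residual of the subgroup `K` of `G` (the smallest normal subgroup `N` of `K` with
`K / N ∈ F`), as a subgroup of `G`. -/
def resid (F : GrpClass) {G : Type} [Group G] (K : Subgroup G) : Subgroup G :=
  (sInf {N : Subgroup K | ∃ _ : N.Normal, F (K ⧸ N)}).map K.subtype

/-- `K` is a maximal subgroup of `L` which contains the `F`-residual of `L`. -/
def FMax (F : GrpClass) {G : Type} [Group G] (K L : Subgroup G) : Prop :=
  K ⋖ L ∧ resid F L ≤ K

/-- `H` is an `F`-subnormal subgroup of `L` (`H` and `L` are subgroups of `G`). -/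
def FSub (F : GrpClass) {G : Type} [Group G] (H L : Subgroup G) : Prop :=
  Relation.ReflTransGen (FMax F) H L

/-- `H` is a subnormal subgroup of `L` (`H` and `L` are subgroups of `G`). -/
def Subn {G : Type} [Group G] (H L : Subgroup G) : Prop :=
  Relation.ReflTransGen (fun A B : Subgroup G => A ≤ B ∧ (A.subgroupOf B).Normal) H L

/-- `F` is superradical: closed under subnormal subgroups, and every finite group `G = AB` with
`F`-subnormal subgroups `A, B ∈ F` belongs to `F`. -/
def Superradical (F : GrpClass) : Prop :=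
  (∀ (G : Type) [Group G] (N : Subgroup G), Subn N ⊤ → F G → F N) ∧
  ∀ (G : Type) [Group G] [Finite G] (A B : Subgroup G), FSub F A ⊤ → FSub F B ⊤ → F A → F B →
    (∀ g : G, ∃ a ∈ A, ∃ b ∈ B, g = a * b) → F G

/-- The finite soluble groups `G` of order divisible only by primes in `om` which have, for every
`p ∈ om`, a normal subgroup `N` of order prime to `p` with `G / N` a `π(p)`-group. -/
def SClass (om : Set ℕ) (π : ℕ → Set ℕ) : GrpClass := fun G _ =>
  Finite G ∧ Group.IsSolvable G ∧ (∀ p : ℕ, p.Prime → p ∣ Nat.card G → p ∈ om) ∧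
    ∀ p ∈ om, ∃ N : Subgroup G, N.Normal ∧ ¬ p ∣ Nat.card N ∧
      ∀ q : ℕ, q.Prime → q ∣ N.index → q ∈ π p

/-- The full and integrated version of `f(p)`: the groups `X ∈ LF f` with a normal `p`-subgroup
`N` such that `X / N ∈ f(p)`. -/
def FP (f : ℕ → GrpClass) (p : ℕ) : GrpClass := fun X _ =>
  LF f X ∧ ∃ (N : Subgroup X) (_ : N.Normal), IsPGroup p N ∧ f p (X ⧸ N)

end Pool.Agent.Lib.MP_de73ed_al
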