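import Pool.Agent.Lib.MP_de73ed_al.Spec

set_option linter.all false

namespace Pool.Agent.Lib.MP_de73ed_al

namespace Down

lemma pow_comm_aux {W : Type} [Group W] {y u c : W} (hc : y * u * y⁻¹ * u⁻¹ = c)
    (hyc : y * c = c * y) : ∀ m : ℕ, y ^ m * u = c ^ m * u * y ^ m := by
  have h1 : y * u = c * u * y := by
    rw [← hc]
    group
  intro m
  induction m with
  | zero => simp
  | succ m ih =>
    have h2 : y * c ^ m = c ^ m * y := by
      have hcm : Commute y c := hyc
      exact (hcm.pow_right m)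
    calc y ^ (m + 1) * u = y * (y ^ m * u) := by rw [pow_succ']; group
      _ = y * (c ^ m * u * y ^ m) := by rw [ih]
      _ = (y * c ^ m) * u * y ^ m := by group
      _ = c ^ m * (y * u) * y ^ m := by rw [h2]; group
      _ = c ^ m * (c * u * y) * y ^ m := by rw [h1]
      _ = c ^ (m + 1) * u * y ^ (m + 1) := by rw [pow_succ, pow_succ' y]; group

lemma claim (hC : CentStmt) (f : ℕ → GrpClass) (hf : Forms f) (p : ℕ) (hp : p.Prime)
    (W : Type) [Group W] [Finite W] (V : Subgroup W) [V.Normal]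
    (hexp : ∀ v ∈ V, v ^ p = 1) (hcomm : ∀ v ∈ V, ∀ w ∈ V, v * w = w * v) (hW : LF f W) :
    ∀ (n : ℕ) (U : Subgroup W), U.Normal → U ≤ V → U ≠ ⊥ → Nat.card U ≤ n →
      ∃ (D : Subgroup W) (_ : D.Normal), V ≤ D ∧ f p (W ⧸ D) ∧
        ∀ x ∈ D, ∃ k : ℕ, ∀ u ∈ U, x ^ p ^ k * u = u * x ^ p ^ k := by
  intro n
  induction n with
  | zero =>
    intro U _ _ _ hcard
    exact absurd (Nat.le_zero.1 hcard) (Nat.card_pos.ne')
  | succ n ih =>
    intro U hU hUV hne hcard
    obtain ⟨⟨K, hK⟩, _⟩ := hC.2.1 W U hU hne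
    obtain ⟨C, hCn, hCc⟩ := hC.1 W K U hK.nK hU
    have hVC : V ≤ C := by
      intro g hg
      rw [hCc g]
      intro h hh
      have h1 : g * h = h * g := hcomm g hg h (hUV hh)
      have h2 : g * h * g⁻¹ * h⁻¹ = 1 := by
        rw [h1]
        group
      rw [h2]
      exact K.one_mem
    haveI : Fact p.Prime := ⟨hp⟩
    have hpU : IsPGroup p U := by
      intro x
      refine ⟨1, ?_⟩
      apply Subtype.ext
      simpa using hexp x (hUV x.2)
    have hdiv : p ∣ K.relIndex U := by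
      obtain ⟨m, hm⟩ := hpU.index (K.subgroupOf U)
      have hne1 : K.relIndex U ≠ 1 := by
        intro h
        exact not_le_of_gt hK.lt (Subgroup.relIndex_eq_one.1 h)
      have hrel : K.relIndex U = p ^ m := hm
      rw [hrel] at hne1 ⊢
      apply dvd_pow_self
      rintro rfl
      exact hne1 (pow_zero p)
    have hfC : f p (W ⧸ C) := hW.2 K U C hK hCc p hp hdiv
    by_cases hKb : K = ⊥
    · refine ⟨C, hCn, hVC, hfC, ?_⟩
      intro x hx
      refine ⟨0, ?_⟩
      intro u hu
      have h1 := (hCc x).1 hx u hu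
      rw [hKb, Subgroup.mem_bot] at h1
      rw [pow_zero, pow_one]
      have h2 : x * u * x⁻¹ = u := mul_inv_eq_one.1 h1
      exact mul_inv_eq_iff_eq_mul.1 h2
    · have hKU : K ≤ U := hK.lt.le
      have hcK : Nat.card K ≤ n := by
        have h1 : Nat.card K < Nat.card U := by
          have h2 : (K : Set W) ⊂ (U : Set W) := hK.lt
          exact Set.Finite.card_lt_card (Set.toFinite _) h2
        omega
      obtain ⟨D', hD'n, hVD', hfD', hD'⟩ := ih K hK.nK (hKU.trans hUV) hKb hcK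
      refine ⟨C ⊓ D', inferInstance, le_inf hVC hVD', (hf p hp).inf W C D' hfC hfD', ?_⟩
      intro x hx
      obtain ⟨k, hk⟩ := hD' x hx.2
      refine ⟨k + 1, ?_⟩
      intro u hu
      have hyC : x ^ p ^ k ∈ C := C.pow_mem hx.1 _
      have hc := (hCc (x ^ p ^ k)).1 hyC u hu
      have h1 := pow_comm_aux (y := x ^ p ^ k) (u := u) rfl (hk _ hc) p
      rw [hexp _ (hUV (hKU hc)), one_mul] at h1
      rw [pow_succ, pow_mul]
      exact h1

end Down

open Down in
theorem downStmt (hC : CentStmt) : DownStmt := by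
  intro f hf hF p hp W _ _ V _ hne hexp hcomm hself hW
  obtain ⟨D, hDn, hVD, hfD, hD⟩ := claim hC f hf p hp W V hexp hcomm hW (Nat.card V) V
    inferInstance le_rfl hne le_rfl
  refine ⟨hF.quot W (W ⧸ V) (QuotientGroup.mk' V) (QuotientGroup.mk'_surjective V) hW, ?_⟩
  have hN : (D.map (QuotientGroup.mk' V)).Normal :=
    hDn.map (QuotientGroup.mk' V) (QuotientGroup.mk'_surjective V)
  refine ⟨D.map (QuotientGroup.mk' V), hN, ?_, ?_⟩
  · rintro ⟨z, hz⟩
    obtain ⟨x, hx, rfl⟩ := hz
    obtain ⟨k, hk⟩ := hD x hx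
    refine ⟨k, ?_⟩
    apply Subtype.ext
    have h1 : x ^ p ^ k ∈ V := hself _ hk
    have h2 : (QuotientGroup.mk' V x) ^ p ^ k = 1 := by
      rw [← map_pow]
      exact (QuotientGroup.eq_one_iff _).2 h1
    simpa using h2
  · have hker : D ≤ ((QuotientGroup.mk' (D.map (QuotientGroup.mk' V))).comp
        (QuotientGroup.mk' V)).ker := by
      intro x hx
      rw [MonoidHom.mem_ker]
      exact (QuotientGroup.eq_one_iff _).2 (Subgroup.mem_map_of_mem _ hx)
    refine (hf p hp).quot (W ⧸ D) ((W ⧸ V) ⧸ D.map (QuotientGroup.mk' V))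
      (QuotientGroup.lift D ((QuotientGroup.mk' (D.map (QuotientGroup.mk' V))).comp
        (QuotientGroup.mk' V)) hker) ?_ hfD
    apply QuotientGroup.lift_surjective_of_surjective
    exact (QuotientGroup.mk'_surjective _).comp (QuotientGroup.mk'_surjective _)

end Pool.Agent.Lib.MP_de73ed_al
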