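import Pool.Agent.Lib.MP_de73ed_al.Defs

set_option linter.all false

/-!
Statements of the modules, as Props, with proofs in the docstrings. The files proving them are
independent (each one imports only this file; other modules are taken as hypotheses).
-/

namespace Pool.Agent.Lib.MP_de73ed_al

/-- Every `f(p)` is a formation. -/
def Forms (f : ℕ → GrpClass) : Prop := ∀ p, p.Prime → IsFormation (f p)

/-- Closed under normal subgroups. -/
def NClosed (F : GrpClass) : Prop :=
  ∀ (G : Type) [Group G] (N : Subgroup G), N.Normal → F G → F N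

/-- Closed under subgroups. -/
def SClosed (F : GrpClass) : Prop := ∀ (G : Type) [Group G] (H : Subgroup G), F G → F H

/-- The primes `q` with `q = p` or `q ∣ |X|` for some `X ∈ LF f ∩ f(p)`. -/
def piOf (f : ℕ → GrpClass) (p : ℕ) : Set ℕ :=
  {q | q.Prime ∧ (q = p ∨ ∃ (X : Type) (_ : Group X), LF f X ∧ f p X ∧ q ∣ Nat.card X)}

/-! ### Module Cent -/

/-- (Cent) Elementary facts on chief factors.
(i) existence of `C_G(H/K)`: `comap (mk' K) (centralizer (H.map (mk' K)))`.
(ii) for `V ≠ ⊥` normal a normal `K` maximal among the normal subgroups `< V`; `(K, V)` is chief.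
(iii) for `V ≠ ⊥` normal a minimal normal subgroup inside `V`.
(iv) if `p ∣ |V|`: take `H ≤ V` normal minimal with `p ∣ |H|` and then `K` as in (ii) (for `H`):
`p ∤ |K|`, so `p ∣ K.relIndex H` (`|K| * relIndex = |H|`). -/
def CentStmt : Prop :=
  (∀ (G : Type) [Group G] (K H : Subgroup G), K.Normal → H.Normal →
    ∃ C : Subgroup G, C.Normal ∧ IsCent K H C) ∧
  (∀ (G : Type) [Group G] [Finite G] (V : Subgroup G), V.Normal → V ≠ ⊥ →
    (∃ K : Subgroup G, IsChief K V) ∧ ∃ L : Subgroup G, IsChief ⊥ L ∧ L ≤ V) ∧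
  (∀ (G : Type) [Group G] [Finite G] (V : Subgroup G), V.Normal → ∀ p : ℕ, p.Prime →
    p ∣ Nat.card V → ∃ K H : Subgroup G, IsChief K H ∧ H ≤ V ∧ p ∣ K.relIndex H)

/-! ### Module CF -/

/-- (CF) Every chief factor `H/K` of `G` either corresponds to the chief factor `HN/KN` of `G/N`
or to the chief factor `(H ⊓ N)/(K ⊓ N)` inside `N`, with the same centralizer and order.
PROOF. Let `(K, H)` be chief, `C` its centralizer, `p ∣ K.relIndex H`.
Case 1: `H ⊔ N = K ⊔ N`. Then `H = K ⊔ (H ⊓ N)` (modular law). `(K ⊓ N, H ⊓ N)` is chief: for `Y`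
normal between, `K ⊔ Y` is normal between `K` and `H`; if `K ⊔ Y = K` then `Y ≤ K ⊓ N`; if
`K ⊔ Y = H` then `H ⊓ N = (K ⊔ Y) ⊓ N = (K ⊓ N) ⊔ Y = Y`. Its centralizer is `C`: if `[g, H] ≤ K`
then `[g, H ⊓ N] ≤ K ⊓ N`; conversely `[g, H ⊓ N] ≤ K` and `[g, K] ≤ K` give `[g, H] ≤ K`
(`g (k h) g⁻¹ (k h)⁻¹ = [g,k] * k [g,h] k⁻¹`). `relIndex` is the same (second isomorphism theorem:
`Subgroup.relIndex_sup_right` and such, or `|H| |K ⊓ N| = |K| |H ⊓ N|`). Apply the hypothesis.
Case 2: `H ⊔ N ≠ K ⊔ N`. Then `H ⊓ (K ⊔ N) = K` (it is normal between `K` and `H`, not `H`), so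
`H ⊓ N ≤ K` and `N ≤ C`. In `G ⧸ N` the images `K', H'` form a chief factor with centralizer
`C' = C.map (mk' N)` (if `[g, H] ≤ K ⊔ N` then `[g, H] ≤ H ⊓ (K ⊔ N) = K`), the relative index is
`(K ⊔ N).relIndex (H ⊔ N) = K.relIndex H`, and `(G ⧸ N) ⧸ C'` maps onto `G ⧸ C`
(use `(hf p hp).quot`). -/
def CFStmt : Prop :=
  ∀ f : ℕ → GrpClass, Forms f → ∀ (G : Type) [Group G] [Finite G] (N : Subgroup G) [N.Normal],
    LF f (G ⧸ N) →
    (∀ (K H C : Subgroup G) [C.Normal], IsChief K H → H ≤ N → IsCent K H C →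
      ∀ p : ℕ, p.Prime → p ∣ K.relIndex H → f p (G ⧸ C)) → LF f G

/-! ### Module Triv -/

/-- (T) A normal subgroup inducing a group of `p`-elements on a `p`-chief factor acts trivially.
PROOF. `Z = {h ∈ H | ∀ x ∈ N, x h x⁻¹ h⁻¹ ∈ K}` is a normal subgroup of `G` with `K ≤ Z ≤ H`
(`K`, `H`, `N` normal). If `Z = H` then `N ≤ C`. Suppose `Z = K`. `N` acts by conjugation on the
group `P = H.map (mk' K)` of order `p ^ n`, `n ≥ 1` (`K < H`); the image `Q` of `N` in `MulAut P`
is a `p`-group (elements `x` with `x ^ p ^ k ∈ C` act trivially); the fixed points are the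
classes of `Z = K`, only one: contradiction to `IsPGroup.card_modEq_card_fixedPoints`. -/
def TrivStmt : Prop :=
  ∀ (G : Type) [Group G] [Finite G] (K H C N : Subgroup G) (p : ℕ), p.Prime → IsChief K H →
    IsCent K H C → (∃ n : ℕ, K.relIndex H = p ^ n) → N.Normal →
    (∀ x ∈ N, ∃ k : ℕ, x ^ p ^ k ∈ C) → N ≤ C

/-! ### Module Elem -/

/-- (Elem) Chief factors of finite soluble groups are elementary abelian.
PROOF. `K ⊔ ⁅H, H⁆` is normal between `K` and `H`; it is not `H` (otherwise the nontrivial soluble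
group `H.map (mk' K)` would be perfect), so `⁅H, H⁆ ≤ K`. `{h ∈ H | h ^ p ∈ K}` is a normal subgroup
(as `H/K` is abelian) between `K` and `H`, not `K` by Cauchy's theorem. So `H/K` is a `p`-group. -/
def ElemStmt : Prop :=
  ∀ (G : Type) [Group G] [Finite G], Group.IsSolvable G → ∀ K H : Subgroup G, IsChief K H →
    ∀ p : ℕ, p.Prime → p ∣ K.relIndex H →
      (∃ n : ℕ, K.relIndex H = p ^ n) ∧ (∀ h ∈ H, h ^ p ∈ K) ∧
      ∀ g ∈ H, ∀ h ∈ H, g * h * g⁻¹ * h⁻¹ ∈ K

/-! ### Module Up -/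

/-- (1) `V` a normal `p`-subgroup of `W`, `W/V ∈ F(p)` implies `W ∈ LF f`.
PROOF. `CFStmt` for `N = V`. Let `(K, H)` be chief, `H ≤ V`, `C` its centralizer, `q ∣ K.relIndex H`
prime. `K.relIndex H ∣ |H| ∣ |V|` is a power of `p`, so `q = p`. Let `N'` be the normal `p`-subgroup
of `W/V` with `f p ((W/V)/N')` and `N` its preimage in `W`: for `x ∈ N` a power `x ^ p ^ k` is in `V`
and a further one is `1 ∈ C`. By (T) `N ≤ C`, so `W ⧸ C` is an image of `(W/V)/N'`. -/
def UpStmt : Prop :=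
  ∀ f : ℕ → GrpClass, Forms f → ∀ p : ℕ, p.Prime → ∀ (W : Type) [Group W] [Finite W]
    (V : Subgroup W) [V.Normal], IsPGroup p V → FP f p (W ⧸ V) → LF f W

/-! ### Module Down -/

/-- (2) The converse for `V` elementary abelian and self-centralizing.
PROOF. CLAIM: for every normal `U ≤ V`, `U ≠ ⊥`, there is a normal `D` with `V ≤ D`, `f p (W ⧸ D)`
and: for `x ∈ D` there is `k` such that `x ^ p ^ k` commutes with all `u ∈ U`. Induction on `|U|`:
take `K` with `(K, U)` chief (`CentStmt` (ii)) and `C` its centralizer (`CentStmt` (i)); `V ≤ C` as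
`V` is commutative; `p ∣ K.relIndex U` (`U` is a nontrivial `p`-group), so `f p (W ⧸ C)`. If `K = ⊥`
take `D = C`. Otherwise take `D'` for `K` and `D = C ⊓ D'` (`(hf p hp).inf`). For `x ∈ D`,
`y = x ^ p ^ k` commutes with all elements of `K` and `y u y⁻¹ u⁻¹ = c ∈ K` for `u ∈ U`; so
`y ^ m u y ^ (-m) = c ^ m u`, and `c ^ p = 1`: `y ^ p = x ^ p ^ (k+1)` commutes with `u`.
Now `U = V`: `x ∈ D` has `x ^ p ^ k ∈ V` for some `k`, so `D` is a `p`-group. Its image in `W ⧸ V`
gives `FP` (`(W/V)/(D/V)` is an image of `W/D`; `LF f (W ⧸ V)` by `quot`). -/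
def DownStmt : Prop :=
  ∀ f : ℕ → GrpClass, Forms f → IsFormation (LF f) → ∀ p : ℕ, p.Prime →
    ∀ (W : Type) [Group W] [Finite W] (V : Subgroup W) [V.Normal], V ≠ ⊥ →
      (∀ v ∈ V, v ^ p = 1) → (∀ v ∈ V, ∀ w ∈ V, v * w = w * v) →
      (∀ w : W, (∀ v ∈ V, w * v = v * w) → w ∈ V) → LF f W → FP f p (W ⧸ V)

/-! ### Module Wr -/

/-- (Wr) Extensions with self-centralizing elementary abelian kernel.
PROOF. `W = RegularWreathProduct (Multiplicative (ZMod p)) G`, `φ = rightHom`. -/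
def WrStmt : Prop :=
  ∀ p : ℕ, p.Prime → ∀ (G : Type) [Group G] [Finite G],
    ∃ (W : Type) (_ : Group W) (φ : W →* G), Finite W ∧ Function.Surjective φ ∧ φ.ker ≠ ⊥ ∧
      (∀ v ∈ φ.ker, v ^ p = 1) ∧ (∀ v ∈ φ.ker, ∀ w ∈ φ.ker, v * w = w * v) ∧
      ∀ w : W, (∀ v ∈ φ.ker, w * v = v * w) → w ∈ φ.ker

/-! ### Module FPProps -/

/-- (3) `F(p)` is a formation closed under normal subgroups. Uses `UpStmt`, `DownStmt`, `WrStmt`.
PROOF. Formation: `quot`: push forward `N`; `inf`: if `M ≤ M₁`, `M₁/M` a `p`-group, `f p (G/M₁)`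
(from `(G/M)/(M₁/M)`), similarly `N ≤ N₁`, then `f p (G/(M₁ ⊓ N₁))` and `(M₁ ⊓ N₁)/(M ⊓ N)` is a
`p`-group. Normal subgroups: `X ∈ F(p)`, `Y` normal in `X`; `φ : W → X` from `WrStmt`; `W ∈ LF f` by
`UpStmt`; `W_Y = Y.comap φ` is normal in `W`, so in `LF f`; `DownStmt` for `W_Y` and
`φ.ker.subgroupOf W_Y` gives `W_Y/ker ≅ Y ∈ F(p)`. -/
def FPPropsStmt : Prop :=
  ∀ f : ℕ → GrpClass, Forms f → IsFormation (LF f) → NClosed (LF f) → ∀ p : ℕ, p.Prime →
    IsFormation (FP f p) ∧ NClosed (FP f p)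

/-! ### Module FS -/

/-- (FS) `F`-subnormal subgroups; no other module is needed.
(i) strong induction on `|Y|`: if `X < Y` take `X ≤ W ⋖ Y` (finite lattice), `resid F Y ≤ X ≤ W`.
(ii) `ψ.ker` is one of the normal subgroups in the infimum (`K ⧸ ψ.ker ≃* Q`).
(iii) the set of the normal `N` with `K ⧸ N ∈ F` is closed under `⊓` and contains `⊤` (finite).
(iv) `N` from (iii) for `L`; `Z ⧸ (N ∩ Z)` embeds in `L ⧸ N`.
(v) it is enough to treat one step `FMax F K L`, `K ⊓ M` and `L ⊓ M` (then use transitivity): by (iv)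
`resid F Z ≤ resid F L ≤ K` for all `Z ≤ L ⊓ M`, and `resid F Z ≤ Z ≤ M`: apply (i).
-/
def FSStmt : Prop :=
  (∀ (F : GrpClass) (G : Type) [Group G] [Finite G] (X Y : Subgroup G), X ≤ Y →
    (∀ Z : Subgroup G, X ≤ Z → Z ≤ Y → resid F Z ≤ X) → FSub F X Y) ∧
  (∀ F : GrpClass, IsFormation F → ∀ (G : Type) [Group G] (K : Subgroup G) (Q : Type) [Group Q]
    (ψ : K →* Q), Function.Surjective ψ → F Q → resid F K ≤ ψ.ker.map K.subtype) ∧
  (∀ F : GrpClass, IsFormation F → F PUnit → ∀ (G : Type) [Group G] [Finite G] (K : Subgroup G),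
    ∃ (N : Subgroup K) (_ : N.Normal), resid F K = N.map K.subtype ∧ F (K ⧸ N)) ∧
  (∀ F : GrpClass, IsFormation F → SClosed F → F PUnit → ∀ (G : Type) [Group G] [Finite G]
    (Z L : Subgroup G), Z ≤ L → resid F Z ≤ resid F L) ∧
  (∀ F : GrpClass, IsFormation F → SClosed F → F PUnit → ∀ (G : Type) [Group G] [Finite G]
    (B D M : Subgroup G), FSub F B D → M ≤ D → FSub F (B ⊓ M) M)

/-! ### Module SRStep -/

/-- (SR) Superradicality implies: `F(p)` is closed under factorizations `G = AB` if all subgroups of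
`G` are in `LF f`. Uses `UpStmt`, `DownStmt`, `WrStmt`, `FSStmt`, `FPPropsStmt`.
PROOF. `φ : W → G` from `WrStmt`, `V = φ.ker`. For `V ≤ Z ≤ W` the group `Z` maps onto
`Z.map φ ≤ G` (in `LF f`) with kernel `V`, so `resid Z ≤ V` (FS (ii)); hence every subgroup
containing `V` is `LF f`-subnormal in `W` (FS (i)). `A.comap φ`, `B.comap φ` are in `LF f` by `UpStmt`
(`(A.comap φ) ⧸ V ≅ A`). They factorize `W`. So `LF f W`, and `DownStmt` gives `W ⧸ V ≅ G ∈ F(p)`. -/
def SRStepStmt : Prop :=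
  ∀ f : ℕ → GrpClass, Forms f → IsFormation (LF f) → NClosed (LF f) → Superradical (LF f) →
    ∀ p : ℕ, p.Prime → ∀ (G : Type) [Group G] [Finite G], (∀ H : Subgroup G, LF f H) →
      ∀ A B : Subgroup G, FP f p A → FP f p B → (∀ g : G, ∃ a ∈ A, ∃ b ∈ B, g = a * b) → FP f p G

/-! ### Module Cyc -/

/-- (R1) and powers, for an abstract formation `P`; no other module is needed.
(i) `X ∈ P` soluble, `r ∣ |X|`: strong induction on `|X|`; `X` has a normal subgroup `M` of prime
index `s`; if `s = r` then `X ⧸ M` is cyclic of order `r`, otherwise `r ∣ |M|`, `M ∈ P`.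
(ii) `P (ι → D)` for `D ∈ P` and finite `ι` (induction on a finset `s` of coordinates: the quotient of
`ι → D` by the normal subgroup of the functions which are `1` on `s` is in `P`; for `s = {i}` it is
isomorphic to `D`, for `insert i s` use `inf`; for `s = ∅` it is trivial, an image of `D`). -/
def CycStmt : Prop :=
  ∀ P : GrpClass, IsFormation P →
    (NClosed P → ∀ (X : Type) [Group X] [Finite X], Group.IsSolvable X → P X → ∀ r : ℕ, r.Prime →
      r ∣ Nat.card X → P (Multiplicative (ZMod r))) ∧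
    (∀ (D : Type) [Group D] (ι : Type) [Finite ι], P D → P (ι → D))

/-! ### Module RGrp -/

/-- (4) All `r`-groups are in `P`. Uses `CycStmt`.
PROOF. (a) if `D ∈ P` is an `r`-group then `K = RegularWreathProduct D (Multiplicative (ZMod r))` is in
`P`: `A = rightHom.ker ≃* (Multiplicative (ZMod r) → D)` is in `P` by `CycStmt` (ii), `B` = range of
`inl` is cyclic of order `r`; `K = AB` is an `r`-group; use `hstep`. (b) so all
`IteratedWreathProduct (Multiplicative (ZMod r)) n` are in `P` (`n = 0`: trivial group, an image).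
(c) every finite `r`-group `G`, `|G| = r ^ n`, embeds in a Sylow `r`-subgroup of `Equiv.Perm G`
(Cayley), which is isomorphic to the iterated wreath product
(`Sylow.mulEquivIteratedWreathProduct`). (d) a subgroup of an `r`-group in `P` is in `P`: strong
induction, a proper subgroup lies in a maximal one, which is normal. -/
def RGrpStmt : Prop :=
  ∀ P : GrpClass, IsFormation P → NClosed P → ∀ r : ℕ, r.Prime → P (Multiplicative (ZMod r)) →
    (∀ (G : Type) [Group G] [Finite G], IsPGroup r G → ∀ A B : Subgroup G, P A → P B →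
      (∀ g : G, ∃ a ∈ A, ∃ b ∈ B, g = a * b) → P G) →
    ∀ (G : Type) [Group G] [Finite G], IsPGroup r G → P G

/-! ### Module PLoc -/

/-- `r`-groups are in `LF f` if `f(r)` is not empty; and `f(p)` is not empty if `p` divides the order
of a group in `LF f`. Uses `TrivStmt`, `CentStmt`.
PROOF. (i) chief factors of an `r`-group: the only prime is `r`; (T) with `N = ⊤`: `C = ⊤`; `G ⧸ ⊤` is
an image of any group in `f r`. (ii) `CentStmt` (iii) for `V = ⊤` and (i). -/
def PLocStmt : Prop :=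
  ∀ f : ℕ → GrpClass, Forms f →
    (∀ r : ℕ, r.Prime → (∃ (X : Type) (_ : Group X), f r X) →
      ∀ (G : Type) [Group G] [Finite G], IsPGroup r G → LF f G) ∧
    (∀ (G : Type) [Group G], LF f G → ∀ p : ℕ, p.Prime → p ∣ Nat.card G →
      ∃ (X : Type) (_ : Group X), f p X)

/-! ### Module RAll -/

/-- (4) assembled. Uses `CycStmt`, `RGrpStmt`, `PLocStmt`, `FPPropsStmt`, `SRStepStmt`.
PROOF. If `r = p` take `N = ⊤` in `FP` (`G ⧸ ⊤` is an image of a group in `f p`; `LF f G` by `PLocStmt`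
(i)). Otherwise there is `X ∈ LF f ∩ f(p) ⊆ F(p)` (`N = ⊥`) with `r ∣ |X|`; `CycStmt` (i) for
`P = FP f p`; `f(r)` is not empty by `PLocStmt` (ii), so all `r`-groups are in `LF f`, and `hstep` of
`RGrpStmt` is `SRStepStmt`. -/
def RAllStmt : Prop :=
  ∀ f : ℕ → GrpClass, Forms f → IsFormation (LF f) → NClosed (LF f) → Superradical (LF f) →
    (∀ (G : Type) [Group G], LF f G → Group.IsSolvable G) →
    ∀ p : ℕ, p.Prime → (∃ (X : Type) (_ : Group X), f p X) → ∀ r ∈ piOf f p,
      ∀ (G : Type) [Group G] [Finite G], IsPGroup r G → FP f p G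

/-! ### Module StepP -/

/-- (5) P. Uses `CentStmt`, `CFStmt`, `TrivStmt`, `ElemStmt`.
PROOF. `M ≤ G`. If `G` is trivial then `M` is (`M ≃* G` or `LF` of a trivial group: no chief factor).
Let `L` be a minimal normal subgroup of `G` (`CentStmt` (ii), `V = ⊤`), `q` a prime divisor of
`Nat.card L = (⊥).relIndex L`; by `ElemStmt` `L` is an elementary abelian `q`-group. `G ⧸ L` is smaller
and in `LF f`, so by `hP` the image of `M` in it is in `LF f`; it is isomorphic to
`M ⧸ L.subgroupOf M`. By `CFStmt` it remains to check the chief factors `(K, H)` of the group `M` with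
`H ≤ L.subgroupOf M`; the only prime divisor of `K.relIndex H` is `q`. Let `D = C_G(L)` (`IsCent ⊥ L D`),
normal, `L ≤ D`, `f q (G ⧸ D)`, `LF f (G ⧸ D)`, `|G ⧸ D| < |G|`. `Y` = image of `M` in `G ⧸ D`: in `LF f`
by `hP`; its order has only prime divisors in `piOf f q`; so by `hQ` there is a normal `q`-subgroup `N'`
of `Y` with `f q (Y ⧸ N')`. `N` = preimage of `N'` in `M`: for `x ∈ N` some `x ^ q ^ k` is in `D`, hence
centralizes `H ≤ L` and lies in `C = C_M(H/K)`; by (T) `N ≤ C`; `M ⧸ C` is an image of `Y ⧸ N'`. -/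
def StepPStmt : Prop :=
  ∀ f : ℕ → GrpClass, Forms f → IsFormation (LF f) →
    (∀ (G : Type) [Group G], LF f G → Group.IsSolvable G) →
    ∀ (G : Type) [Group G] [Finite G], LF f G →
      (∀ (X : Type) [Group X] [Finite X], Nat.card X < Nat.card G → LF f X →
        ∀ H : Subgroup X, LF f H) →
      (∀ (Y : Type) [Group Y] [Finite Y], Nat.card Y < Nat.card G → LF f Y → ∀ p : ℕ, p.Prime →
        (∃ (X : Type) (_ : Group X), f p X) →
        (∀ q : ℕ, q.Prime → q ∣ Nat.card Y → q ∈ piOf f p) → FP f p Y) →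
      ∀ M : Subgroup G, LF f M

/-! ### Module StepQ -/

/-- (5) Q. Uses `RAllStmt`, `SRStepStmt`.
PROOF. If `G` is an `r`-group for a prime `r` (also if `G` is trivial, `r = p`) use `RAllStmt`
(`r ∈ piOf f p` by hypothesis). Otherwise `G` is nontrivial and soluble: it has a normal subgroup `M`
of prime index `r`; let `S` be a Sylow `r`-subgroup; `S ≠ ⊤`, `S` is not contained in `M`
(`r ∤ |G : S|`), so `G = M S` (`M` has prime index). `M, S` are in `LF f` by `hP`, smaller, so in `F(p)` by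
`hQ`; `SRStepStmt`. -/
def StepQStmt : Prop :=
  ∀ f : ℕ → GrpClass, Forms f → IsFormation (LF f) → NClosed (LF f) → Superradical (LF f) →
    (∀ (G : Type) [Group G], LF f G → Group.IsSolvable G) →
    ∀ (G : Type) [Group G] [Finite G], LF f G → (∀ H : Subgroup G, LF f H) →
      ∀ p : ℕ, p.Prime → (∃ (X : Type) (_ : Group X), f p X) →
      (∀ (Y : Type) [Group Y] [Finite Y], Nat.card Y < Nat.card G → LF f Y →
        (∀ q : ℕ, q.Prime → q ∣ Nat.card Y → q ∈ piOf f p) → FP f p Y) →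
      (∀ q : ℕ, q.Prime → q ∣ Nat.card G → q ∈ piOf f p) → FP f p G

/-! ### Module APart -/

/-- (a) PROOF. `x ∈ X`, `h ∈ H`, `y = x h x⁻¹ h⁻¹ ∈ X ⊓ H`, `y ^ p ^ n ∈ K` (`H/K` has order `p ^ n`), and
the order of `y` is prime to `p`, so `y` is a power of `y ^ p ^ n`, `y ∈ K`. -/
def APartStmt : Prop :=
  ∀ (G : Type) [Group G] [Finite G] (K H C X : Subgroup G) (p : ℕ), p.Prime → K.Normal →
    H.Normal → K ≤ H → (∃ n : ℕ, K.relIndex H = p ^ n) → IsCent K H C → ¬ p ∣ Nat.card X →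
    (∀ x ∈ X, ∀ h ∈ H, x * h * x⁻¹ * h⁻¹ ∈ X) → X ≤ C

/-! ### Module BPart -/

/-- (b) Uses `CentStmt`, `ElemStmt`.
PROOF. Strong induction on `|G|`. `G` trivial: `N = ⊥`. Let `L` be minimal normal (`V = ⊤`); `G ⧸ L`
satisfies the hypothesis (a chief factor `(K', H')` of `G ⧸ L` with centralizer `C'` gives the chief
factor of the preimages in `G`, with the preimage of `C'` as centralizer, same indices). So there
is `M ≥ L` normal with `p ∤ |M/L|` and `G/M` a `π`-group. If `p ∤ |L|`, `N = M`. Otherwise `L` is a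
`p`-group (`ElemStmt`), let `C = C_G(L)`, `|G : C|` is a `π`-number by hypothesis; `D = M ⊓ C`, normal,
`|G : D|` is a `π`-number (`G/D` embeds in `G/M × G/C`; or `D.index ∣ M.index * C.index`), `L ≤ D`
(`L` abelian) is central in `D` of order prime to its index in `D`. `N = {x ∈ D | p ∤ orderOf x}`: a
subgroup, normal in `G`, of order prime to `p`, with `|D| = |L| |N|`: let `m = |D : L|`, `p ∤ m`; by
Schur-Zassenhaus `L.subgroupOf D` has a complement `T`, `D = L × T` (`L` central), and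
`T = {x ∈ D | x ^ m = 1}` is invariant under conjugation by `G` (alternatively use the transfer or
the homomorphism `x ↦ x ^ m`...). `N.index = D.index * |L|` is a `π`-number since `p ∈ π`. -/
def BPartStmt : Prop :=
  ∀ (p : ℕ), p.Prime → ∀ π : Set ℕ, p ∈ π → ∀ (G : Type) [Group G] [Finite G], Group.IsSolvable G →
    (∀ (K H C : Subgroup G), C.Normal → IsChief K H → IsCent K H C → p ∣ K.relIndex H →
      ∀ q : ℕ, q.Prime → q ∣ C.index → q ∈ π) →
    ∃ N : Subgroup G, N.Normal ∧ ¬ p ∣ Nat.card N ∧ ∀ q : ℕ, q.Prime → q ∣ N.index → q ∈ π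

/-! ### Module SCl -/

/-- `SClass` is a formation closed under subgroups; no other module is needed. (`inf`: if `M₁/M`
and `N₁/N` are the normal `p'`-subgroups of `G/M`, `G/N` then `(M₁ ⊓ N₁)/(M ⊓ N)` is one for
`G/(M ⊓ N)`.) -/
def SClStmt : Prop :=
  ∀ (om : Set ℕ) (π : ℕ → Set ℕ), (∀ p ∈ om, p.Prime ∧ p ∈ π p) →
    IsFormation (SClass om π) ∧ SClosed (SClass om π) ∧ SClass om π PUnit

/-- The local function of `SClass`. -/
def f0 (om : Set ℕ) (π : ℕ → Set ℕ) : ℕ → GrpClass := fun p G _ =>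
  p ∈ om ∧ Finite G ∧ Group.IsSolvable G ∧ ∀ q : ℕ, q.Prime → q ∣ Nat.card G → q ∈ π p

/-! ### Module SLoc -/

/-- `SClass` is local. Uses `APartStmt`, `BPartStmt`, `ElemStmt`, `CentStmt`.
PROOF. `Forms` is routine. `SClass → LF`: `(K, H)` chief, `C`, `p ∣ K.relIndex H`: `p ∣ |G|` so `p ∈ om`;
`K.relIndex H = p ^ n` by `ElemStmt`; by `APartStmt` (`X = N` normal) `N ≤ C`, so `C.index ∣ N.index`.
`LF → SClass`: `G` is soluble: let `V` be the last term of the derived series (a normal subgroup with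
`⁅V, V⁆ = V`); if `V ≠ ⊥`, take `K` with `(K, V)` chief and `C`: `G ⧸ C` is soluble (any prime divisor of
the index), so the perfect group `V` is contained in `C`, i.e. `⁅V, V⁆ ≤ K`, contradiction. `p ∣ |G|`
implies `p ∈ om` by `CentStmt` (iii), (i). For `p ∈ om` use `BPartStmt`. -/
def SLocStmt : Prop :=
  ∀ (om : Set ℕ) (π : ℕ → Set ℕ), (∀ p ∈ om, p.Prime ∧ p ∈ π p) →
    Forms (f0 om π) ∧ ∀ (G : Type) [Group G], SClass om π G ↔ LF (f0 om π) G

/-! ### Module SProd -/

/-- (7), first part. Uses `APartStmt`, `CFStmt`, `ElemStmt`, `SLocStmt`.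
PROOF. `G` is soluble (`R ≤ M` and `G ⧸ R` are). By `SLocStmt` and `CFStmt` we have to check the chief
factors `(K, H)` of `G` with `H ≤ R`, `C` the centralizer, `p ∣ K.relIndex H` (then `p ∣ |M|`, `p ∈ om`).
`K.relIndex H = p ^ n` by `ElemStmt`. Let `X ≤ M` be the normal `p'`-subgroup of `M` with `M/X` a
`π(p)`-group (as a subgroup of `G`): by `APartStmt` `X ≤ C` (`H ≤ M` normalizes `X`), so the prime
divisors of `|M : M ⊓ C|` are in `π p`; similarly for `N`. `G = MN` gives
`|G : C| ∣ |M : M ⊓ C| * |N : N ⊓ C|` (e.g. `G ⧸ C` is the product of the images of `M` and `N`), so all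
the prime divisors of `C.index` are in `π p`. -/
def SProdStmt : Prop :=
  ∀ (om : Set ℕ) (π : ℕ → Set ℕ), (∀ p ∈ om, p.Prime ∧ p ∈ π p) →
    ∀ (G : Type) [Group G] [Finite G] (M N R : Subgroup G) [R.Normal], R ≤ M → R ≤ N →
      (∀ g : G, ∃ a ∈ M, ∃ b ∈ N, g = a * b) → SClass om π M → SClass om π N →
      SClass om π (G ⧸ R) → SClass om π G

/-! ### Module SSup -/

/-- (7), second part. Uses `FSStmt`, `SClStmt`, `SProdStmt`.
PROOF. Closure under subnormal subgroups is clear (`SClosed`). Let `F = SClass om π`. Show for all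
subgroups `D, A, B` of a fixed finite group `G`: `FSub F A D`, `FSub F B D`, `F A`, `F B`, `D = AB` imply
`F D`, by strong induction on `|D|`. If `A = D` or `B = D` done. Otherwise (last step of the chain)
`FSub F A M`, `FMax F M D` and `FSub F B N`, `FMax F N D`. `M = A (B ⊓ M)` (Dedekind), `FSub F (B ⊓ M) M` by
FS (v), `B ⊓ M ∈ F` by `SClosed`; so `F M` by induction; similarly `F N` (`N = (A ⊓ N) B`). `R` = residual
of `D`, `R ≤ M ⊓ N`, `D/R ∈ F` by FS (iii). Apply `SProdStmt` to the group `D`. -/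
def SSupStmt : Prop :=
  ∀ (om : Set ℕ) (π : ℕ → Set ℕ), (∀ p ∈ om, p.Prime ∧ p ∈ π p) → Superradical (SClass om π)

/-! ### Module Fwd -/

/-- (6) The forward direction. Uses `CentStmt`, `CFStmt`, `TrivStmt`, `ElemStmt`, `PLocStmt`,
`StepPStmt`, `StepQStmt`, `APartStmt`, `BPartStmt`, `SClStmt`.
PROOF. `F = LF f` (function extensionality). Superradical gives `NClosed (LF f)`. Strong induction on
`|G|` with `StepPStmt`, `StepQStmt`: for all `G ∈ LF f` all subgroups are in `LF f`, and `G ∈ F(p)` if the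
prime divisors of `|G|` are in `piOf f p` and `f(p)` is not empty.
`om = {p prime | f(p) not empty}`, `π = piOf f`. `LF → SClass`: soluble by hypothesis; `p ∣ |G|` gives
`p ∈ om` by `PLocStmt` (ii); for `p ∈ om` use `BPartStmt`: for a `p`-chief factor `G ⧸ C ∈ LF f ∩ f(p)`.
`SClass → LF`: strong induction on `|G|`; trivial group: no chief factors; `L` minimal normal,
`G ⧸ L ∈ SClass` (`SClStmt`), so in `LF f`; `CFStmt`: the only chief factor inside `L` is `(⊥, L)`, of order
`q ^ n` (`ElemStmt`), `q ∈ om`, centralizer `C ≥ L`; `X = G ⧸ C ∈ LF f` (image of `G ⧸ L`), its order has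
prime divisors in `piOf f q` by `APartStmt`; so `X ∈ F(q)`: normal `q`-subgroup `N'`, preimage `N ≤ C` by
(T), so `f q (G ⧸ C)`. -/
def FwdStmt : Prop :=
  ∀ F : GrpClass, IsLocal F → Superradical F → (∀ (G : Type) [Group G], F G → Group.IsSolvable G) →
    ∃ (om : Set ℕ) (π : ℕ → Set ℕ), (∀ p ∈ om, p.Prime ∧ p ∈ π p) ∧
      ∀ (G : Type) [Group G], F G ↔ SClass om π G

end Pool.Agent.Lib.MP_de73ed_al
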