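import Pool.Agent.Lib.MP_de73ed_al.HDefs
import Pool.Agent.Lib.MP_de73ed_al.Spec

set_option linter.all false
set_option autoImplicit false

/-!
Closure properties of the class `EJ J` of the finite groups with composition factors in `J`.
-/

namespace Pool.Agent.Lib.MP_de73ed_al

namespace Subn

variable {G H : Type} [Group G] [Group H]

theorem comap (φ : H →* G) {A B : Subgroup G} (h : Subn A B) :
    Subn (A.comap φ) (B.comap φ) := by
  refine Relation.ReflTransGen.lift (fun A : Subgroup G => A.comap φ) ?_ _ _ h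
  rintro A B ⟨h1, h2⟩
  refine ⟨Subgroup.comap_mono h1, ?_⟩
  rw [Subgroup.normal_subgroupOf_iff (Subgroup.comap_mono h1)]
  intro h k hh hk
  rw [Subgroup.mem_comap] at hh hk ⊢
  rw [Subgroup.normal_subgroupOf_iff h1] at h2
  have := h2 _ _ hh hk
  simpa using this

theorem map (φ : G →* H) {A B : Subgroup G} (h : Subn A B) :
    Subn (A.map φ) (B.map φ) := by
  refine Relation.ReflTransGen.lift (fun A : Subgroup G => A.map φ) ?_ _ _ h
  rintro A B ⟨h1, h2⟩
  refine ⟨Subgroup.map_mono h1, ?_⟩
  rw [Subgroup.normal_subgroupOf_iff (Subgroup.map_mono h1)]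
  rintro _ _ ⟨x, hx, rfl⟩ ⟨k, hk, rfl⟩
  rw [Subgroup.normal_subgroupOf_iff h1] at h2
  exact ⟨k * x * k⁻¹, h2 _ _ hx hk, by simp⟩

theorem of_normal (N : Subgroup G) [N.Normal] : Subn N ⊤ := by
  refine Relation.ReflTransGen.single ⟨le_top, ?_⟩
  infer_instance

theorem refl (N : Subgroup G) : Subn N N := Relation.ReflTransGen.refl

theorem map_surj (φ : G →* H) (hφ : Function.Surjective φ) {A : Subgroup G} (h : Subn A ⊤) :
    Subn (A.map φ) ⊤ := by
  have := map φ h
  rwa [Subgroup.map_top_of_surjective φ hφ] at this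

theorem comap_top (φ : H →* G) {A : Subgroup G} (h : Subn A ⊤) : Subn (A.comap φ) ⊤ := by
  have := comap φ h
  rwa [Subgroup.comap_top] at this

end Subn

namespace EJ

variable {J : GrpClass}

/-- Homomorphic images. -/
theorem quot {G H : Type} [Group G] [Group H] (φ : G →* H) (hφ : Function.Surjective φ)
    (hG : EJ J G) : EJ J H := by
  haveI := hG.1
  refine ⟨Finite.of_surjective φ hφ, ?_⟩
  intro A hA X _ ψ hψ hX
  refine hG.2 (A.comap φ) (Subn.comap_top φ hA) X (ψ.comp (φ.subgroupComap A)) ?_ hX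
  rw [MonoidHom.coe_comp]
  exact hψ.comp (φ.subgroupComap_surjective_of_surjective A hφ)

theorem iso {G H : Type} [Group G] [Group H] (e : G ≃* H) (hG : EJ J G) : EJ J H :=
  quot e.toMonoidHom e.surjective hG

/-- Normal subgroups. -/
theorem normal {G : Type} [Group G] (N : Subgroup G) [N.Normal] (hG : EJ J G) : EJ J N := by
  haveI := hG.1
  refine ⟨inferInstance, ?_⟩
  intro A hA X _ ψ hψ hX
  have h1 : Subn (A.map N.subtype) ⊤ := by
    have h2 : Subn (A.map N.subtype) ((⊤ : Subgroup N).map N.subtype) := Subn.map N.subtype hA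
    have h3 : (⊤ : Subgroup N).map N.subtype = N := by
      rw [← MonoidHom.range_eq_map, Subgroup.range_subtype]
    rw [h3] at h2
    exact h2.trans (Subn.of_normal N)
  let e : A ≃* A.map N.subtype := A.equivMapOfInjective N.subtype N.subtype_injective
  refine hG.2 _ h1 X (ψ.comp e.symm.toMonoidHom) ?_ hX
  rw [MonoidHom.coe_comp]
  exact hψ.comp e.symm.surjective

/-- A group with one element. -/
theorem of_subsingleton {G : Type} [Group G] [Subsingleton G] : EJ J G := by
  refine ⟨inferInstance, ?_⟩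
  intro A _ X _ ψ hψ hX
  exfalso
  haveI : Subsingleton X := hψ.subsingleton
  haveI := hX.toNontrivial
  exact not_subsingleton X inferInstance

/-- Extensions, in terms of a homomorphism onto the quotient. -/
theorem ext {G Q : Type} [Group G] [Group Q] [Finite G] (φ : G →* Q)
    (hφ : Function.Surjective φ) (hK : EJ J φ.ker) (hQ : EJ J Q) : EJ J G := by
  refine ⟨inferInstance, ?_⟩
  intro A hA X _ ψ hψ hX
  set K : Subgroup X := (φ.ker.subgroupOf A).map ψ with hKdef
  have hKn : K.Normal := Subgroup.Normal.map inferInstance ψ hψ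
  rcases hKn.eq_bot_or_eq_top with h | h
  · -- `ψ` factors through the image of `A` in `Q`
    have hle : (φ.subgroupMap A).ker ≤ ψ.ker := by
      intro x hx
      have h1 : φ (x : G) = 1 := congrArg Subtype.val (MonoidHom.mem_ker.1 hx)
      have h2 : ψ x ∈ K := ⟨x, h1, rfl⟩
      rw [h, Subgroup.mem_bot] at h2
      exact h2
    let χ : (A.map φ) →* X :=
      MonoidHom.liftOfSurjective (φ.subgroupMap A) (φ.subgroupMap_surjective A) ⟨ψ, hle⟩
    have hχ : ∀ x, χ (φ.subgroupMap A x) = ψ x := fun x =>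
      MonoidHom.liftOfRightInverse_comp_apply _ _ _ _ x
    refine hQ.2 (A.map φ) (Subn.map_surj φ hφ hA) X χ ?_ hX
    intro x
    obtain ⟨a, rfl⟩ := hψ x
    exact ⟨_, hχ a⟩
  · let B : Subgroup φ.ker := A.comap φ.ker.subtype
    let θ : B →* A :=
      { toFun := fun x => ⟨((x : φ.ker) : G), x.2⟩
        map_one' := rfl
        map_mul' := fun _ _ => rfl }
    refine hK.2 B (Subn.comap_top _ hA) X (ψ.comp θ) ?_ hX
    intro x
    have hx : x ∈ K := by rw [h]; trivial
    obtain ⟨a, ha, rfl⟩ := hx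
    exact ⟨⟨⟨(a : G), ha⟩, a.2⟩, rfl⟩

/-- Extensions. -/
theorem ext' {G : Type} [Group G] [Finite G] (N : Subgroup G) [N.Normal]
    (hN : EJ J N) (hQ : EJ J (G ⧸ N)) : EJ J G := by
  refine ext (QuotientGroup.mk' N) (QuotientGroup.mk'_surjective N) ?_ hQ
  have h : (QuotientGroup.mk' N).ker = N := QuotientGroup.ker_mk' N
  exact iso (MulEquiv.subgroupCongr h.symm) hN

/-- A simple group in `J`, if `J` is closed under isomorphism. -/
theorem of_simple (hiso : IsoClosed J) {X : Type} [Group X] [Finite X] (hX : IsSimpleGroup X)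
    (hJ : J X) : EJ J X := by
  refine ⟨inferInstance, ?_⟩
  intro A hA Y _ ψ hψ hY
  -- a subnormal subgroup of a simple group is trivial or everything
  have key : ∀ B : Subgroup X, Subn A B → B = ⊤ ∨ B = ⊥ → A = ⊤ ∨ A = ⊥ := by
    intro B hB
    induction hB with
    | refl => exact fun h => h
    | tail h1 h2 ih =>
      rename_i B C
      rintro (rfl | rfl)
      · apply ih
        have : B.Normal := by
          have h3 := h2.2
          rw [Subgroup.normal_subgroupOf_iff h2.1] at h3
          exact ⟨fun n hn g => h3 n g hn trivial⟩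
        exact (this.eq_bot_or_eq_top).symm
      · exact ih (Or.inr (le_bot_iff.1 h2.1))
  have hY' := hY.toNontrivial
  rcases key ⊤ hA (Or.inl rfl) with rfl | rfl
  · have hker : ψ.ker = ⊥ := by
      haveI : IsSimpleGroup (⊤ : Subgroup X) :=
        IsSimpleGroup.isSimpleGroup_of_surjective (Subgroup.topEquiv (G := X)).symm.toMonoidHom
          (Subgroup.topEquiv (G := X)).symm.surjective
      rcases (inferInstance : ψ.ker.Normal).eq_bot_or_eq_top with h | h
      · exact h
      · exfalso
        obtain ⟨y, hy⟩ := exists_ne (1 : Y)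
        obtain ⟨x, rfl⟩ := hψ y
        have : x ∈ ψ.ker := by rw [h]; trivial
        exact hy this
    have hinj : Function.Injective ψ := (MonoidHom.ker_eq_bot_iff ψ).1 hker
    exact hiso X Y (Subgroup.topEquiv.symm.trans (MulEquiv.ofBijective ψ ⟨hinj, hψ⟩)) hJ
  · exfalso
    haveI : Subsingleton Y := hψ.subsingleton
    exact not_subsingleton Y inferInstance

/-- A finite simple group in `EJ J` is in `J`. -/
theorem simple {X : Type} [Group X] (hX : IsSimpleGroup X) (h : EJ J X) : J X :=
  h.2 ⊤ (Subn.refl ⊤) X (Subgroup.topEquiv (G := X)).toMonoidHom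
    (Subgroup.topEquiv (G := X)).surjective hX

/-- Simple images. -/
theorem simple_image {G X : Type} [Group G] [Group X] (hX : IsSimpleGroup X) (ψ : G →* X)
    (hψ : Function.Surjective ψ) (h : EJ J G) : J X :=
  simple hX (quot ψ hψ h)

/-- Subgroups. -/
theorem sub (hsub : SubCF J) : ∀ (n : ℕ) (G : Type) [Group G] [Finite G], Nat.card G = n →
    EJ J G → ∀ U : Subgroup G, EJ J U := by
  intro n
  induction n using Nat.strong_induction_on with
  | _ n ih =>
    intro G _ _ hn hG U
    rcases subsingleton_or_nontrivial G with hs | hnt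
    · exact of_subsingleton
    by_cases hS : IsSimpleGroup G
    · exact hsub G hS (simple hS hG) U
    · have hex : ∃ N : Subgroup G, N.Normal ∧ N ≠ ⊥ ∧ N ≠ ⊤ := by
        by_contra hcon
        push Not at hcon
        apply hS
        refine { eq_bot_or_eq_top_of_normal := ?_ }
        intro H hH
        by_cases h : H = ⊥
        · exact Or.inl h
        · exact Or.inr (hcon H hH h)
      obtain ⟨N, hNn, hNb, hNt⟩ := hex
      haveI := hNn
      have hmul : Nat.card G = Nat.card (G ⧸ N) * Nat.card N :=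
        Subgroup.card_eq_card_quotient_mul_card_subgroup N
      have hN1 : 1 < Nat.card N := by
        rw [Finite.one_lt_card_iff_nontrivial]
        exact (Subgroup.nontrivial_iff_ne_bot N).2 hNb
      have hQ1 : 1 < Nat.card (G ⧸ N) := by
        have h0 : Nat.card (G ⧸ N) ≠ 1 := by
          intro h
          exact hNt (Subgroup.index_eq_one.1 h)
        have h1 : 0 < Nat.card (G ⧸ N) := Nat.card_pos
        omega
      have h1 : Nat.card N < n := by rw [← hn, hmul]; nlinarith
      have h2 : Nat.card (G ⧸ N) < n := by rw [← hn, hmul]; nlinarith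
      let φ : U →* (G ⧸ N) := (QuotientGroup.mk' N).comp U.subtype
      have hQ : EJ J φ.range := ih _ h2 (G ⧸ N) rfl (quot _ (QuotientGroup.mk'_surjective N) hG) _
      have hN : EJ J (U.subgroupOf N) := ih _ h1 N rfl (normal N hG) _
      refine ext φ.rangeRestrict φ.rangeRestrict_surjective ?_ hQ
      let e : (U.subgroupOf N) →* φ.rangeRestrict.ker :=
        { toFun := fun x => ⟨⟨((x : N) : G), x.2⟩, by
            rw [MonoidHom.ker_rangeRestrict, MonoidHom.mem_ker]
            exact (QuotientGroup.eq_one_iff _).2 (x : N).2⟩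
          map_one' := rfl
          map_mul' := fun _ _ => rfl }
      refine quot e ?_ hN
      rintro ⟨⟨x, hxU⟩, hx⟩
      rw [MonoidHom.ker_rangeRestrict, MonoidHom.mem_ker] at hx
      have hxN : x ∈ N := (QuotientGroup.eq_one_iff _).1 hx
      exact ⟨⟨⟨x, hxN⟩, hxU⟩, rfl⟩

theorem sub' (hsub : SubCF J) {G : Type} [Group G] (hG : EJ J G) (U : Subgroup G) : EJ J U := by
  haveI := hG.1
  exact sub hsub _ G rfl hG U

/-- Injective preimages. -/
theorem of_injective (hsub : SubCF J) {G H : Type} [Group G] [Group H] (φ : G →* H)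
    (hφ : Function.Injective φ) (hH : EJ J H) : EJ J G :=
  iso (MonoidHom.ofInjective hφ).symm (sub' hsub hH φ.range)

/-- The join of two normal subgroups. -/
theorem sup {G : Type} [Group G] [Finite G] (M N : Subgroup G) [M.Normal] [N.Normal]
    (hM : EJ J M) (hN : EJ J N) : EJ J (M ⊔ N : Subgroup G) := by
  let φ : (M ⊔ N : Subgroup G) →* ((M ⊔ N : Subgroup G) ⧸ (M.subgroupOf (M ⊔ N))) :=
    QuotientGroup.mk' _
  refine ext' (M.subgroupOf (M ⊔ N)) ?_ ?_
  · exact iso (Subgroup.subgroupOfEquivOfLe le_sup_left).symm hM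
  · let ψ : N →* ((M ⊔ N : Subgroup G) ⧸ (M.subgroupOf (M ⊔ N))) :=
      φ.comp (Subgroup.inclusion le_sup_right)
    refine quot ψ ?_ hN
    intro y
    obtain ⟨⟨x, hx⟩, rfl⟩ := QuotientGroup.mk_surjective y
    have hx' : x ∈ ((M ⊔ N : Subgroup G) : Set G) := hx
    rw [Subgroup.normal_mul] at hx'
    obtain ⟨m, hm, n, hn, rfl⟩ := hx'
    refine ⟨⟨n, hn⟩, ?_⟩
    show ((⟨n, _⟩ : (M ⊔ N : Subgroup G)) : (M ⊔ N : Subgroup G) ⧸ (M.subgroupOf (M ⊔ N))) =
      ((⟨m * n, hx⟩ : (M ⊔ N : Subgroup G)) : (M ⊔ N : Subgroup G) ⧸ (M.subgroupOf (M ⊔ N)))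
    rw [QuotientGroup.eq]
    show n⁻¹ * (m * n) ∈ M
    rw [← mul_assoc]
    have := (inferInstance : M.Normal).conj_mem m hm n⁻¹
    simpa using this

/-- Subdirect products. -/
theorem inf {G : Type} [Group G] [Finite G] (M N : Subgroup G) [M.Normal] [N.Normal]
    (hM : EJ J (G ⧸ M)) (hN : EJ J (G ⧸ N)) : EJ J (G ⧸ (M ⊓ N)) := by
  let φ : (G ⧸ (M ⊓ N)) →* (G ⧸ M) :=
    QuotientGroup.map (M ⊓ N) M (MonoidHom.id G) (fun x hx => hx.1)
  have hφ : Function.Surjective φ := by
    intro y
    obtain ⟨g, rfl⟩ := QuotientGroup.mk_surjective y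
    exact ⟨(g : G ⧸ (M ⊓ N)), rfl⟩
  let ψ : (G ⧸ (M ⊓ N)) →* (G ⧸ N) :=
    QuotientGroup.map (M ⊓ N) N (MonoidHom.id G) (fun x hx => hx.2)
  have hψ : Function.Surjective ψ := by
    intro y
    obtain ⟨g, rfl⟩ := QuotientGroup.mk_surjective y
    exact ⟨(g : G ⧸ (M ⊓ N)), rfl⟩
  refine ext φ hφ ?_ hM
  -- the kernel of `φ` is isomorphic to its image under `ψ`
  have hn : (φ.ker.map ψ).Normal := Subgroup.Normal.map inferInstance ψ hψ
  have h1 : EJ J (φ.ker.map ψ) := normal _ hN
  have hinj : Function.Injective (ψ.subgroupMap φ.ker) := by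
    rw [injective_iff_map_eq_one]
    rintro ⟨x, hx⟩ h
    have h2 : ψ x = 1 := congrArg Subtype.val h
    obtain ⟨g, rfl⟩ := QuotientGroup.mk_surjective x
    have h3 : g ∈ N := (QuotientGroup.eq_one_iff g).1 h2
    have h4 : g ∈ M := (QuotientGroup.eq_one_iff g).1 hx
    exact Subtype.ext ((QuotientGroup.eq_one_iff g).2 ⟨h4, h3⟩)
  exact iso (MulEquiv.ofBijective _ ⟨hinj, ψ.subgroupMap_surjective φ.ker⟩).symm h1

/-- `EJ J` is a formation. -/
theorem formation (J : GrpClass) : IsFormation (EJ J) where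
  finite _ _ h := h.1
  quot _ _ _ _ φ hφ h := quot φ hφ h
  inf _ _ _ M N _ _ hM hN := inf M N hM hN

theorem mono {J J' : GrpClass} (h : ∀ (X : Type) [Group X], IsSimpleGroup X → J X → J' X)
    {G : Type} [Group G] (hG : EJ J G) : EJ J' G :=
  ⟨hG.1, fun A hA X _ ψ hψ hX => h X hX (hG.2 A hA X ψ hψ hX)⟩

/-- Groups in a subgroup-closed formation have their composition factors there. -/
theorem of_mem {H : GrpClass} (hH : IsFormation H) (hS : SClosed H) {G : Type} [Group G]
    (hG : H G) : EJ H G := by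
  refine ⟨hH.finite G hG, ?_⟩
  intro A _ X _ ψ hψ _
  exact hH.quot A X ψ hψ (hS G A hG)

theorem subCF_of {H : GrpClass} (hH : IsFormation H) (hS : SClosed H) : SubCF H :=
  fun X _ _ _ hX Y => of_mem hH hS (hS X Y hX)

theorem isoClosed_of {H : GrpClass} (hH : IsFormation H) : IsoClosed H :=
  fun G K _ _ e h => hH.quot G K e.toMonoidHom e.surjective h

/-- If `EJ J X` for some group `X` with `q ∣ |X|`, then all groups of order `q` are in `J`. -/
theorem cyclic (hsub : SubCF J) {X : Type} [Group X] (hX : EJ J X) (q : ℕ) (hq : q.Prime)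
    (hd : q ∣ Nat.card X) {Z : Type} [Group Z] (hZ : Nat.card Z = q) : J Z := by
  haveI := hX.1
  haveI : Fact q.Prime := ⟨hq⟩
  obtain ⟨x, hx⟩ := exists_prime_orderOf_dvd_card' (G := X) q hd
  have h1 : Nat.card (Subgroup.zpowers x) = q := by rw [Nat.card_zpowers, hx]
  have e : Subgroup.zpowers x ≃* Z := mulEquivOfPrimeCardEq h1 hZ
  haveI : IsSimpleGroup Z := isSimpleGroup_of_prime_card hZ
  exact simple inferInstance (iso e (sub' hsub hX _))

/-- Commutative groups `Z`, such that `J` contains the groups of order `q` for `q ∣ |Z|`. -/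
theorem of_comm {Z : Type} [Group Z] [Finite Z] (hc : ∀ x y : Z, x * y = y * x)
    (h : ∀ q : ℕ, q.Prime → q ∣ Nat.card Z → ∀ (X : Type) [Group X], Nat.card X = q → J X) :
    EJ J Z := by
  refine ⟨inferInstance, ?_⟩
  intro A _ X _ ψ hψ hX
  haveI : Finite X := Finite.of_surjective ψ hψ
  have hXc : ∀ x y : X, x * y = y * x := by
    intro x y
    obtain ⟨a, rfl⟩ := hψ x
    obtain ⟨b, rfl⟩ := hψ y
    rw [← map_mul, ← map_mul]
    congr 1
    exact Subtype.ext (hc _ _)
  have hp : (Nat.card X).Prime := by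
    letI : CommGroup X := { ‹Group X› with mul_comm := hXc }
    haveI := hX
    exact IsSimpleGroup.prime_card
  refine h _ hp ?_ X rfl
  have h1 : Nat.card X ∣ Nat.card A := by
    rw [← Nat.card_congr (QuotientGroup.quotientKerEquivOfSurjective ψ hψ).toEquiv]
    exact Subgroup.card_quotient_dvd_card _
  exact h1.trans (Subgroup.card_subgroup_dvd_card A)

end EJ

end Pool.Agent.Lib.MP_de73ed_al
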