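import Pool.Agent.Lib.MP_de73ed_al.Spec

set_option linter.all false

namespace Pool.Agent.Lib.MP_de73ed_al

namespace Elem

theorem perfect_eq_bot {Q : Type} [Group Q] (hQ : Group.IsSolvable Q) (H : Subgroup Q)
    (h : H ≤ ⁅H, H⁆) : H = ⊥ := by
  obtain ⟨n, hn⟩ := hQ.solvable
  have h1 : ∀ n, H ≤ derivedSeries Q n := by
    intro n
    induction n with
    | zero => rw [derivedSeries_zero]; exact le_top
    | succ n ih =>
      rw [derivedSeries_succ]
      exact h.trans (Subgroup.commutator_mono ih ih)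
  rw [eq_bot_iff, ← hn]
  exact h1 n

end Elem

theorem elemStmt : ElemStmt := by
  intro G _ _ hG K H hc p hp hdvd
  haveI := hc.nK
  haveI := hc.nH
  haveI : Fact p.Prime := ⟨hp⟩
  haveI : Group.IsSolvable G := hG
  -- the commutator subgroup
  have hcomm : ⁅H, H⁆ ≤ K := by
    have hle : K ⊔ ⁅H, H⁆ ≤ H := sup_le hc.lt.le (Subgroup.commutator_le_self H)
    rcases hc.eq (K ⊔ ⁅H, H⁆) inferInstance le_sup_left hle with h | h
    · rw [← h]; exact le_sup_right
    · exfalso
      have h1 : H.map (QuotientGroup.mk' K) = ⊥ := by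
        apply Elem.perfect_eq_bot (inferInstance : Group.IsSolvable (G ⧸ K))
        rw [← Subgroup.map_commutator]
        conv_lhs => rw [← h]
        rw [Subgroup.map_sup]
        refine sup_le ?_ le_rfl
        have : K.map (QuotientGroup.mk' K) = ⊥ := by
          rw [Subgroup.map_eq_bot_iff, QuotientGroup.ker_mk']
        rw [this]; exact bot_le
      rw [Subgroup.map_eq_bot_iff, QuotientGroup.ker_mk'] at h1
      exact absurd hc.lt (not_lt_of_ge h1)
  have hc2 : ∀ g ∈ H, ∀ h ∈ H, g * h * g⁻¹ * h⁻¹ ∈ K := by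
    intro g hg h hh
    exact hcomm (Subgroup.commutator_mem_commutator hg hh)
  have hφ : ∀ g ∈ H, ∀ h ∈ H, Commute (g : G ⧸ K) (h : G ⧸ K) := by
    intro g hg h hh
    have h1 := hc2 g hg h hh
    rw [← QuotientGroup.eq_one_iff] at h1
    have h2 : (g : G ⧸ K) * h * (g : G ⧸ K)⁻¹ * (h : G ⧸ K)⁻¹ = 1 := h1
    show (g : G ⧸ K) * h = h * g
    have h3 : (g : G ⧸ K) * h = h * g := by
      rw [mul_inv_eq_one, mul_inv_eq_iff_eq_mul] at h2
      exact h2
    exact h3
  have hpow : ∀ g : G, ((g : G ⧸ K) ^ p = 1 ↔ g ^ p ∈ K) := by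
    intro g
    rw [← QuotientGroup.eq_one_iff, QuotientGroup.mk_pow]
  let N : Subgroup G :=
    { carrier := {h | h ∈ H ∧ h ^ p ∈ K}
      mul_mem' := by
        rintro a b ⟨ha, ha'⟩ ⟨hb, hb'⟩
        refine ⟨H.mul_mem ha hb, ?_⟩
        rw [← hpow] at ha' hb' ⊢
        rw [QuotientGroup.mk_mul, (hφ a ha b hb).mul_pow, ha', hb', one_mul]
      one_mem' := ⟨H.one_mem, by rw [one_pow]; exact K.one_mem⟩
      inv_mem' := by
        rintro a ⟨ha, ha'⟩
        exact ⟨H.inv_mem ha, by rw [inv_pow]; exact K.inv_mem ha'⟩ }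
  have hN : N.Normal := by
    constructor
    rintro a ⟨ha, ha'⟩ g
    refine ⟨hc.nH.conj_mem a ha g, ?_⟩
    rw [conj_pow]
    exact hc.nK.conj_mem _ ha' g
  have hNeq : N = H := by
    rcases hc.eq N hN (fun k hk => ⟨hc.lt.le hk, K.pow_mem hk p⟩) (fun k hk => hk.1) with h | h
    · exfalso
      obtain ⟨x, hx⟩ := exists_prime_orderOf_dvd_card' (G := H ⧸ K.subgroupOf H) p hdvd
      obtain ⟨y, rfl⟩ := QuotientGroup.mk_surjective x
      have h1 : ((y ^ p : H) : H ⧸ K.subgroupOf H) = 1 := by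
        rw [QuotientGroup.mk_pow, ← hx, pow_orderOf_eq_one]
      rw [QuotientGroup.eq_one_iff, Subgroup.mem_subgroupOf] at h1
      have h2 : (y : G) ∈ N := ⟨y.2, by simpa using h1⟩
      rw [h] at h2
      have h3 : ((y : H) : H ⧸ K.subgroupOf H) = 1 := by
        rw [QuotientGroup.eq_one_iff, Subgroup.mem_subgroupOf]; exact h2
      rw [h3, orderOf_one] at hx
      exact hp.one_lt.ne hx
    · exact h
  have hpK : ∀ h ∈ H, h ^ p ∈ K := by
    intro h hh
    rw [← hNeq] at hh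
    exact hh.2
  refine ⟨?_, hpK, hc2⟩
  have hP : IsPGroup p (H ⧸ K.subgroupOf H) := by
    intro x
    obtain ⟨y, rfl⟩ := QuotientGroup.mk_surjective x
    refine ⟨1, ?_⟩
    rw [pow_one, ← QuotientGroup.mk_pow, QuotientGroup.eq_one_iff, Subgroup.mem_subgroupOf]
    simpa using hpK y y.2
  exact IsPGroup.iff_card.1 hP

end Pool.Agent.Lib.MP_de73ed_al
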