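import Pool.Agent.Lib.MP_de73ed_al.Spec

set_option linter.all false

namespace Pool.Agent.Lib.MP_de73ed_al

namespace FPProps

/-- `(G ⧸ M) ⧸ A` maps onto `G ⧸ (preimage of A)`. -/
theorem surj_comap {G : Type} [Group G] (M : Subgroup G) [M.Normal] (A : Subgroup (G ⧸ M))
    [A.Normal] :
    ∃ ψ : ((G ⧸ M) ⧸ A) →* G ⧸ (A.comap (QuotientGroup.mk' M)), Function.Surjective ψ := by
  have h1 : M ≤ (A.comap (QuotientGroup.mk' M)).comap (MonoidHom.id G) := by
    intro x hx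
    have : (QuotientGroup.mk' M) x = 1 := (QuotientGroup.eq_one_iff x).2 hx
    show (QuotientGroup.mk' M) x ∈ A
    rw [this]
    exact one_mem _
  refine ⟨QuotientGroup.lift A (QuotientGroup.map M _ (MonoidHom.id G) h1) ?_, ?_⟩
  · intro x hx
    obtain ⟨g, rfl⟩ := QuotientGroup.mk_surjective x
    exact (QuotientGroup.eq_one_iff (N := A.comap (QuotientGroup.mk' M)) g).2 hx
  · intro y
    obtain ⟨g, rfl⟩ := QuotientGroup.mk_surjective y
    exact ⟨((g : G ⧸ M) : (G ⧸ M) ⧸ A), rfl⟩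

theorem formation (f : ℕ → GrpClass) (hf : Forms f) (hLF : IsFormation (LF f)) (p : ℕ)
    (hp : p.Prime) : IsFormation (FP f p) where
  finite G _ h := h.1.1
  quot G H _ _ φ hφ h := by
    obtain ⟨h1, N, hN, hpN, hfN⟩ := h
    refine ⟨hLF.quot G H φ hφ h1, N.map φ, hN.map φ hφ, hpN.map φ, ?_⟩
    haveI := hN.map φ hφ
    refine (hf p hp).quot _ _ (QuotientGroup.map N (N.map φ) φ (Subgroup.le_comap_map φ N)) ?_ hfN
    intro y
    obtain ⟨z, rfl⟩ := QuotientGroup.mk_surjective y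
    obtain ⟨g, rfl⟩ := hφ z
    exact ⟨(g : G ⧸ N), rfl⟩
  inf G _ _ M N _ _ hM hN := by
    obtain ⟨hM1, A, hA, hpA, hfA⟩ := hM
    obtain ⟨hN1, B, hB, hpB, hfB⟩ := hN
    refine ⟨hLF.inf G M N hM1 hN1, ?_⟩
    have hM₁ : (A.comap (QuotientGroup.mk' M)).Normal := hA.comap _
    have hN₁ : (B.comap (QuotientGroup.mk' N)).Normal := hB.comap _
    obtain ⟨ψA, hψA⟩ := surj_comap M A
    obtain ⟨ψB, hψB⟩ := surj_comap N B
    have hfM := (hf p hp).quot _ _ ψA hψA hfA
    have hfN := (hf p hp).quot _ _ ψB hψB hfB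
    have hfI := (hf p hp).inf G _ _ hfM hfN
    set M₁ := A.comap (QuotientGroup.mk' M) with hM₁def
    set N₁ := B.comap (QuotientGroup.mk' N) with hN₁def
    have hQn : ((M₁ ⊓ N₁).map (QuotientGroup.mk' (M ⊓ N))).Normal :=
      Subgroup.Normal.map inferInstance _ (QuotientGroup.mk'_surjective _)
    refine ⟨(M₁ ⊓ N₁).map (QuotientGroup.mk' (M ⊓ N)), hQn, ?_, ?_⟩
    · rintro ⟨x, hx⟩
      obtain ⟨g, hg, rfl⟩ := hx
      obtain ⟨a, ha⟩ := hpA ⟨_, hg.1⟩
      obtain ⟨b, hb⟩ := hpB ⟨_, hg.2⟩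
      have ha' : g ^ p ^ a ∈ M := by
        have := congrArg Subtype.val ha
        exact (QuotientGroup.eq_one_iff (N := M) (g ^ p ^ a)).1 (by simpa using this)
      have hb' : g ^ p ^ b ∈ N := by
        have := congrArg Subtype.val hb
        exact (QuotientGroup.eq_one_iff (N := N) (g ^ p ^ b)).1 (by simpa using this)
      refine ⟨a + b, Subtype.ext ?_⟩
      have h1 : g ^ p ^ (a + b) ∈ M := by
        rw [pow_add, pow_mul]; exact M.pow_mem ha' _
      have h2 : g ^ p ^ (a + b) ∈ N := by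
        rw [add_comm, pow_add, pow_mul]; exact N.pow_mem hb' _
      have h3 := (QuotientGroup.eq_one_iff (N := M ⊓ N) (g ^ p ^ (a + b))).2 ⟨h1, h2⟩
      simpa using h3
    · have hle : ∀ x ∈ M₁ ⊓ N₁, ((QuotientGroup.mk' ((M₁ ⊓ N₁).map
          (QuotientGroup.mk' (M ⊓ N)))).comp (QuotientGroup.mk' (M ⊓ N))) x = 1 := by
        intro x hx
        exact (QuotientGroup.eq_one_iff _).2 (Subgroup.mem_map_of_mem _ hx)
      refine (hf p hp).quot _ _ (QuotientGroup.lift (M₁ ⊓ N₁) _ hle) ?_ hfI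
      intro y
      obtain ⟨z, rfl⟩ := QuotientGroup.mk_surjective y
      obtain ⟨g, rfl⟩ := QuotientGroup.mk_surjective z
      exact ⟨(g : G ⧸ (M₁ ⊓ N₁)), rfl⟩

end FPProps

open FPProps in
theorem fpPropsStmt (hU : UpStmt) (hD : DownStmt) (hW : WrStmt) : FPPropsStmt := by
  intro f hf hLF hN p hp
  have hform := formation f hf hLF p hp
  refine ⟨hform, ?_⟩
  intro X _ Y hY hX
  haveI : Finite X := hX.1.1
  obtain ⟨W, _, φ, hWf, hφ, hne, hexp, hcomm, hself⟩ := hW p hp X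
  have hker : IsPGroup p φ.ker := by
    rintro ⟨v, hv⟩
    exact ⟨1, Subtype.ext (by simpa using hexp v hv)⟩
  have hquot : FP f p (W ⧸ φ.ker) := by
    refine hform.quot X _ (QuotientGroup.quotientKerEquivOfSurjective φ hφ).symm.toMonoidHom
      (QuotientGroup.quotientKerEquivOfSurjective φ hφ).symm.surjective hX
  have hLW : LF f W := hU f hf p hp W φ.ker hker hquot
  have hWY : (Y.comap φ).Normal := hY.comap φ
  have hLWY : LF f (Y.comap φ) := hN W (Y.comap φ) hWY hLW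
  have hle : φ.ker ≤ Y.comap φ := by
    intro x hx
    show φ x ∈ Y
    rw [hx]
    exact one_mem _
  have hfp := hD f hf hLF p hp (Y.comap φ) (φ.ker.subgroupOf (Y.comap φ))
    (by
      intro h
      apply hne
      rw [Subgroup.subgroupOf_eq_bot] at h
      have := h.eq_bot_of_le hle
      exact this)
    (by
      rintro ⟨v, hv⟩ hv'
      exact Subtype.ext (by simpa using hexp v hv'))
    (by
      rintro ⟨v, hv⟩ hv' ⟨w, hw⟩ hw'
      exact Subtype.ext (hcomm v hv' w hw'))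
    (by
      rintro ⟨w, hw⟩ h
      refine hself w fun v hv => ?_
      exact congrArg Subtype.val (h ⟨v, hle hv⟩ hv))
    hLWY
  have hk : ∀ x ∈ φ.ker.subgroupOf (Y.comap φ), (φ.subgroupComap Y) x = 1 := by
    rintro ⟨x, hx⟩ hx'
    exact Subtype.ext hx'
  refine hform.quot _ _ (QuotientGroup.lift _ (φ.subgroupComap Y) hk) ?_ hfp
  rintro ⟨y, hy⟩
  obtain ⟨w, rfl⟩ := hφ y
  exact ⟨((⟨w, hy⟩ : Y.comap φ) : (Y.comap φ) ⧸ _), rfl⟩

end Pool.Agent.Lib.MP_de73ed_al
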