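import Pool.Agent.Lib.MP_de73ed_al.Spec

set_option linter.all false

/-! Facts on residuals and subnormality with respect to a class. -/

namespace Pool.Agent.Lib.MP_de73ed_al

namespace FS

theorem part1 (F : GrpClass) (G : Type) [Group G] [Finite G] (X : Subgroup G) :
    ∀ n : ℕ, ∀ Y : Subgroup G, Nat.card Y ≤ n → X ≤ Y →
      (∀ Z : Subgroup G, X ≤ Z → Z ≤ Y → resid F Z ≤ X) → FSub F X Y := by
  intro n
  induction n with
  | zero =>
    intro Y hY
    have : 0 < Nat.card Y := Nat.card_pos
    omega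
  | succ n ih =>
    intro Y hY hXY hZ
    rcases eq_or_lt_of_le hXY with h | h
    · rw [h]; exact Relation.ReflTransGen.refl
    · haveI : Finite (Subgroup G) := inferInstance
      obtain ⟨W, hXW, hWY⟩ := exists_le_covBy_of_lt h
      have hlt : W < Y := hWY.lt
      have hcard : Nat.card W < Nat.card Y := by
        have hle : W ≤ Y := hlt.le
        rcases Nat.lt_or_ge (Nat.card W) (Nat.card Y) with h1 | h1
        · exact h1
        · exfalso
          have := Subgroup.eq_of_le_of_card_ge hle h1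
          exact hlt.ne this
      have h1 : FSub F X W := by
        refine ih W (by omega) hXW ?_
        intro Z hXZ hZW
        exact hZ Z hXZ (hZW.trans hlt.le)
      have h2 : FMax F W Y := ⟨hWY, (hZ Y hXY le_rfl).trans hXW⟩
      exact Relation.ReflTransGen.tail h1 h2

theorem part2 (F : GrpClass) (hF : IsFormation F) (G : Type) [Group G] (K : Subgroup G) (Q : Type)
    [Group Q] (ψ : K →* Q) (hψ : Function.Surjective ψ) (hQ : F Q) :
    resid F K ≤ ψ.ker.map K.subtype := by
  unfold resid
  apply Subgroup.map_mono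
  apply sInf_le
  refine ⟨inferInstance, ?_⟩
  exact hF.quot Q (K ⧸ ψ.ker) (QuotientGroup.quotientKerEquivOfSurjective ψ hψ).symm.toMonoidHom
    (QuotientGroup.quotientKerEquivOfSurjective ψ hψ).symm.surjective hQ

theorem part3 (F : GrpClass) (hF : IsFormation F) (hP : F PUnit) (G : Type) [Group G] [Finite G]
    (K : Subgroup G) :
    ∃ (N : Subgroup K) (_ : N.Normal), resid F K = N.map K.subtype ∧ F (K ⧸ N) := by
  have htop : F (K ⧸ (⊤ : Subgroup K)) := by
    refine hF.quot PUnit _ 1 ?_ hP
    intro y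
    refine ⟨PUnit.unit, ?_⟩
    haveI : Subsingleton (K ⧸ (⊤ : Subgroup K)) := QuotientGroup.subsingleton_quotient_top
    exact Subsingleton.elim _ _
  have hex : ∃ n : ℕ, ∃ (N : Subgroup K) (_ : N.Normal), F (K ⧸ N) ∧ Nat.card N = n :=
    ⟨_, ⊤, inferInstance, htop, rfl⟩
  classical
  have hmin : ∀ m, m < Nat.find hex → ¬ ∃ (N : Subgroup K) (_ : N.Normal), F (K ⧸ N) ∧
      Nat.card N = m := fun m hm => Nat.find_min hex hm
  obtain ⟨N, hN, hFN, hcard⟩ := Nat.find_spec hex
  refine ⟨N, hN, ?_, hFN⟩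
  unfold resid
  congr 1
  apply le_antisymm
  · exact sInf_le ⟨hN, hFN⟩
  · apply le_sInf
    rintro N' ⟨hN', hFN'⟩
    haveI := hN
    haveI := hN'
    have h1 : F (K ⧸ (N ⊓ N')) := hF.inf K N N' hFN hFN'
    have h2 : Nat.card N ≤ Nat.card (N ⊓ N' : Subgroup K) := by
      by_contra hlt
      push Not at hlt
      rw [hcard] at hlt
      exact hmin _ hlt ⟨N ⊓ N', inferInstance, h1, rfl⟩
    have h3 : N ⊓ N' = N := Subgroup.eq_of_le_of_card_ge inf_le_left h2
    rw [← h3]
    exact inf_le_right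

theorem part4 (F : GrpClass) (hF : IsFormation F) (hS : SClosed F) (hP : F PUnit) (G : Type)
    [Group G] [Finite G] (Z L : Subgroup G) (hZL : Z ≤ L) : resid F Z ≤ resid F L := by
  obtain ⟨N, hN, hres, hFN⟩ := part3 F hF hP G L
  haveI := hN
  let φ : Z →* (L ⧸ N) := (QuotientGroup.mk' N).comp (Subgroup.inclusion hZL)
  have h1 : F φ.range := hS _ _ hFN
  have h2 := part2 F hF G Z φ.range φ.rangeRestrict φ.rangeRestrict_surjective h1
  rw [hres]
  refine h2.trans ?_
  rintro x ⟨z, hz, rfl⟩
  have hz' : φ z = 1 := by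
    have : φ.rangeRestrict z = 1 := hz
    have h := congrArg Subtype.val this
    simpa using h
  have hz'' : Subgroup.inclusion hZL z ∈ N := by
    have : QuotientGroup.mk' N (Subgroup.inclusion hZL z) = 1 := hz'
    simpa using this
  exact ⟨Subgroup.inclusion hZL z, hz'', rfl⟩

theorem resid_le (F : GrpClass) {G : Type} [Group G] (K : Subgroup G) : resid F K ≤ K := by
  rintro x ⟨y, _, rfl⟩
  exact y.2

theorem part5 (F : GrpClass) (hF : IsFormation F) (hS : SClosed F) (hP : F PUnit) (G : Type)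
    [Group G] [Finite G] (B D M : Subgroup G) (h : FSub F B D) (hMD : M ≤ D) :
    FSub F (B ⊓ M) M := by
  have key : ∀ C : Subgroup G, FSub F B C → FSub F (B ⊓ M) (C ⊓ M) := by
    intro C hC
    induction hC with
    | refl => exact Relation.ReflTransGen.refl
    | @tail K L hBK hKL ih =>
      refine Relation.ReflTransGen.trans ih ?_
      refine part1 F G (K ⊓ M) _ (L ⊓ M) le_rfl (inf_le_inf_right _ hKL.1.le) ?_
      intro Z hZ1 hZ2
      refine le_inf ?_ ?_
      · exact (part4 F hF hS hP G Z L (hZ2.trans inf_le_left)).trans hKL.2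
      · exact (resid_le F Z).trans (hZ2.trans inf_le_right)
  have := key D h
  rwa [inf_eq_right.mpr hMD] at this

end FS

theorem fsStmt : FSStmt := by
  refine ⟨?_, ?_, ?_, ?_, ?_⟩
  · intro F G _ _ X Y hXY h
    exact FS.part1 F G X _ Y le_rfl hXY h
  · intro F hF G _ K Q _ ψ hψ hQ
    exact FS.part2 F hF G K Q ψ hψ hQ
  · intro F hF hP G _ _ K
    exact FS.part3 F hF hP G K
  · intro F hF hS hP G _ _ Z L h
    exact FS.part4 F hF hS hP G Z L h
  · intro F hF hS hP G _ _ B D M h hM
    exact FS.part5 F hF hS hP G B D M h hM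

end Pool.Agent.Lib.MP_de73ed_al
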