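import Pool.Agent.Lib.MP_de73ed_al.Spec

set_option linter.all false

/-! The forward direction of the classification. -/

namespace Pool.Agent.Lib.MP_de73ed_al

namespace Fwd

theorem eq_of (F F' : GrpClass) (h : ∀ (G : Type) [Group G], F G ↔ F' G) : F = F' := by
  funext G inst
  exact propext (h G)

theorem nclosed_of {F : GrpClass} (h : Superradical F) : NClosed F := by
  intro G _ N hN hG
  refine h.1 G N (Relation.ReflTransGen.single ⟨le_top, ?_⟩) hG
  exact hN.subgroupOf _

/-- The simultaneous induction. -/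
theorem pq (hP : StepPStmt) (hQ : StepQStmt) (f : ℕ → GrpClass) (hf : Forms f)
    (hF : IsFormation (LF f)) (hS : Superradical (LF f))
    (hsol : ∀ (G : Type) [Group G], LF f G → IsSolvable G) :
    ∀ n : ℕ, ∀ (G : Type) [Group G] [Finite G], Nat.card G ≤ n → LF f G →
      (∀ H : Subgroup G, LF f H) ∧ ∀ p : ℕ, p.Prime → (∃ (X : Type) (_ : Group X), f p X) →
        (∀ q : ℕ, q.Prime → q ∣ Nat.card G → q ∈ piOf f p) → FP f p G := by
  intro n
  induction n with
  | zero =>
    intro G _ _ hn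
    have : 0 < Nat.card G := Nat.card_pos
    omega
  | succ n ih =>
    intro G _ _ hn hG
    have h1 : ∀ H : Subgroup G, LF f H := by
      refine hP f hf hF hsol G hG ?_ ?_
      · intro X _ _ hX hLX
        exact (ih X (by omega) hLX).1
      · intro Y _ _ hY hLY p hp hex hq
        exact (ih Y (by omega) hLY).2 p hp hex hq
    refine ⟨h1, ?_⟩
    intro p hp hex hq
    refine hQ f hf hF (nclosed_of hS) hS hsol G hG h1 p hp hex ?_ hq
    intro Y _ _ hY hLY hq'
    exact (ih Y (by omega) hLY).2 p hp hex hq'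

theorem q_all (hP : StepPStmt) (hQ : StepQStmt) (f : ℕ → GrpClass) (hf : Forms f)
    (hF : IsFormation (LF f)) (hS : Superradical (LF f))
    (hsol : ∀ (G : Type) [Group G], LF f G → IsSolvable G)
    (G : Type) [Group G] [Finite G] (hG : LF f G) (p : ℕ) (hp : p.Prime)
    (hex : ∃ (X : Type) (_ : Group X), f p X)
    (hq : ∀ q : ℕ, q.Prime → q ∣ Nat.card G → q ∈ piOf f p) : FP f p G :=
  (pq hP hQ f hf hF hS hsol (Nat.card G) G le_rfl hG).2 p hp hex hq

theorem lf_subsingleton (f : ℕ → GrpClass) (G : Type) [Group G] [Finite G]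
    (h : Nat.card G = 1) : LF f G := by
  refine ⟨inferInstance, ?_⟩
  intro K H C _ hc
  exfalso
  have : Subsingleton G := (Nat.card_eq_one_iff_unique.mp h).1
  have h1 : K = H := Subsingleton.elim _ _
  exact hc.lt.ne h1

theorem back (hC : CentStmt) (hCF : CFStmt) (hT : TrivStmt) (hE : ElemStmt)
    (hA : APartStmt) (hSC : SClStmt) (f : ℕ → GrpClass) (hf : Forms f)
    (hF : IsFormation (LF f))
    (hQall : ∀ (G : Type) [Group G] [Finite G], LF f G → ∀ p : ℕ, p.Prime →
      (∃ (X : Type) (_ : Group X), f p X) →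
      (∀ q : ℕ, q.Prime → q ∣ Nat.card G → q ∈ piOf f p) → FP f p G)
    (om : Set ℕ) (hom : om = {p | p.Prime ∧ ∃ (X : Type) (_ : Group X), f p X})
    (hop : ∀ p ∈ om, p.Prime ∧ p ∈ piOf f p) :
    ∀ n : ℕ, ∀ (G : Type) [Group G] [Finite G], Nat.card G ≤ n → SClass om (piOf f) G →
      LF f G := by
  intro n
  induction n with
  | zero =>
    intro G _ _ hn
    have : 0 < Nat.card G := Nat.card_pos
    omega
  | succ n ih =>
    intro G _ _ hn hG
    by_cases hone : Nat.card G = 1
    · exact lf_subsingleton f G hone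
    have hnt : (⊤ : Subgroup G) ≠ ⊥ := by
      intro h
      apply hone
      have := Subgroup.card_top (G := G)
      rw [h, Subgroup.card_bot] at this
      exact this.symm
    obtain ⟨L, hL, -⟩ := (hC.2.1 G ⊤ inferInstance hnt).2
    have hLn : L.Normal := hL.nH
    have hsolG : IsSolvable G := hG.2.1
    have hquotS : SClass om (piOf f) (G ⧸ L) :=
      (hSC om (piOf f) hop).1.quot G (G ⧸ L) (QuotientGroup.mk' L)
        (QuotientGroup.mk'_surjective L) hG
    have hcardL : 1 < Nat.card L := by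
      have h1 : Nat.card L ≠ 1 := by
        intro h
        exact hL.lt.ne (Subgroup.card_eq_one.mp h).symm
      have h2 : 0 < Nat.card L := Nat.card_pos
      omega
    have hcardQ : Nat.card (G ⧸ L) < Nat.card G := by
      rw [Subgroup.card_eq_card_quotient_mul_card_subgroup L]
      have h2 : 0 < Nat.card (G ⧸ L) := Nat.card_pos
      nlinarith
    have hLQ : LF f (G ⧸ L) := ih (G ⧸ L) (by omega) hquotS
    refine hCF f hf G L hLQ ?_
    intro K H C _ hc hHL hcent q hq hqd
    -- the chief factor is (⊥, L)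
    have hK : K = ⊥ := by
      rcases hL.eq K hc.nK bot_le (hc.lt.le.trans hHL) with h | h
      · exact h
      · exfalso
        rw [h] at hc
        exact absurd hHL (not_le_of_gt hc.lt)
    have hH : H = L := by
      rcases hL.eq H hc.nH bot_le hHL with h | h
      · exfalso
        rw [h, hK] at hc
        exact lt_irrefl _ hc.lt
      · exact h
    subst hK hH
    obtain ⟨hpow, helem, hcomm⟩ := hE G hsolG ⊥ H hc q hq hqd
    have hLC : H ≤ C := by
      intro x hx
      rw [hcent]
      intro h hh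
      exact hcomm x hx h hh
    have hqom : q ∈ om := by
      refine hG.2.2.1 q hq ?_
      exact hqd.trans ((Subgroup.relIndex_dvd_card ⊥ H).trans (Subgroup.card_subgroup_dvd_card H))
    have hXL : LF f (G ⧸ C) := by
      refine hF.quot (G ⧸ H) (G ⧸ C) (QuotientGroup.map H C (MonoidHom.id G) hLC) ?_ hLQ
      intro x
      obtain ⟨g, rfl⟩ := QuotientGroup.mk_surjective x
      exact ⟨(g : G ⧸ H), rfl⟩
    obtain ⟨N, hNn, hNp, hNi⟩ := hG.2.2.2 q hqom
    have hNC : N ≤ C := by
      refine hA G ⊥ H C N q hq inferInstance hc.nH bot_le hpow hcent hNp ?_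
      intro x hx h hh
      have h1 : h * x⁻¹ * h⁻¹ ∈ N := hNn.conj_mem _ (N.inv_mem hx) h
      have h2 : x * h * x⁻¹ * h⁻¹ = x * (h * x⁻¹ * h⁻¹) := by group
      rw [h2]
      exact N.mul_mem hx h1
    have hFPX : FP f q (G ⧸ C) := by
      have hex : ∃ (X : Type) (_ : Group X), f q X := by
        rw [hom] at hqom
        exact hqom.2
      refine hQall (G ⧸ C) hXL q hq hex ?_
      intro r hr hrd
      refine hNi r hr ?_
      have h1 : Nat.card (G ⧸ C) = C.index := rfl
      rw [h1] at hrd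
      exact hrd.trans (Subgroup.index_dvd_of_le hNC)
    obtain ⟨-, N', hN'n, hN'p, hN'f⟩ := hFPX
    -- the preimage of N'
    have hNC' : N'.comap (QuotientGroup.mk' C) ≤ C := by
      refine hT G ⊥ H C (N'.comap (QuotientGroup.mk' C)) q hq hc hcent hpow
        (hN'n.comap _) ?_
      intro x hx
      have hx' : QuotientGroup.mk' C x ∈ N' := hx
      obtain ⟨k, hk⟩ := hN'p ⟨QuotientGroup.mk' C x, hx'⟩
      refine ⟨k, ?_⟩
      have h1 : (QuotientGroup.mk' C x) ^ q ^ k = 1 := congrArg Subtype.val hk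
      rw [← map_pow] at h1
      exact (QuotientGroup.eq_one_iff _).mp h1
    have hbot : N' = ⊥ := by
      rw [eq_bot_iff]
      intro y hy
      obtain ⟨g, rfl⟩ := QuotientGroup.mk_surjective y
      have h1 : g ∈ N'.comap (QuotientGroup.mk' C) := hy
      exact (QuotientGroup.eq_one_iff _).mpr (hNC' h1)
    refine (hf q hq).quot ((G ⧸ C) ⧸ N') (G ⧸ C) ?_ ?_ hN'f
    · exact QuotientGroup.lift N' (MonoidHom.id _) (by
        intro x hx
        rw [hbot] at hx
        exact hx)
    · intro x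
      exact ⟨(x : (G ⧸ C) ⧸ N'), rfl⟩

end Fwd

open Fwd in
theorem fwdStmt (hC : CentStmt) (hCF : CFStmt) (hT : TrivStmt) (hE : ElemStmt)
    (hPL : PLocStmt) (hP : StepPStmt) (hQ : StepQStmt) (hA : APartStmt) (hB : BPartStmt)
    (hSC : SClStmt) : FwdStmt := by
  intro F hloc hsup hsol
  obtain ⟨hFf, f, hf, hFeq⟩ := hloc
  have hEq : F = LF f := eq_of F (LF f) hFeq
  subst hEq
  have hop : ∀ p ∈ {p : ℕ | p.Prime ∧ ∃ (X : Type) (_ : Group X), f p X},
      p.Prime ∧ p ∈ piOf f p := by
    intro p hp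
    exact ⟨hp.1, hp.1, Or.inl rfl⟩
  refine ⟨{p | p.Prime ∧ ∃ (X : Type) (_ : Group X), f p X}, piOf f, hop, ?_⟩
  intro G _
  constructor
  · intro hG
    have hfin : Finite G := hG.1
    refine ⟨hfin, hsol G hG, ?_, ?_⟩
    · intro p hp hpd
      exact ⟨hp, (hPL f hf).2 G hG p hp hpd⟩
    · intro p hp
      refine hB p hp.1 (piOf f p) (hop p hp).2 G (hsol G hG) ?_
      intro K H C hCn hc hcent hpd q hq hqd
      refine ⟨hq, Or.inr ⟨G ⧸ C, inferInstance, ?_, ?_, hqd⟩⟩
      · exact hFf.quot G (G ⧸ C) (QuotientGroup.mk' C) (QuotientGroup.mk'_surjective C) hG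
      · exact hG.2 K H C hc hcent p hp.1 hpd
  · intro hG
    have hfin : Finite G := hG.1
    exact back hC hCF hT hE hA hSC f hf hFf
      (fun X _ _ hX p hp hex hq => q_all hP hQ f hf hFf hsup hsol X hX p hp hex hq)
      _ rfl hop (Nat.card G) G le_rfl hG

end Pool.Agent.Lib.MP_de73ed_al
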