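import Pool.Agent.Lib.MP_de73ed_al.Spec

set_option linter.all false

/-!
The soluble groups in a local superradical formation of arbitrary finite groups.
-/

namespace Pool.Agent.Lib.MP_de73ed_al

/-- The class of the soluble groups in `F`. -/
def SolPart (F : GrpClass) : GrpClass := fun G _ => F G ∧ IsSolvable G

namespace Gen

theorem isSolvable_inf (G : Type) [Group G] (M N : Subgroup G) [M.Normal] [N.Normal]
    (hM : IsSolvable (G ⧸ M)) (hN : IsSolvable (G ⧸ N)) : IsSolvable (G ⧸ (M ⊓ N)) := by
  let ψ : G →* (G ⧸ M) × (G ⧸ N) := (QuotientGroup.mk' M).prod (QuotientGroup.mk' N)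
  have hker : ψ.ker = M ⊓ N := by
    rw [MonoidHom.ker_prod, QuotientGroup.ker_mk', QuotientGroup.ker_mk']
  let χ : G ⧸ (M ⊓ N) →* (G ⧸ M) × (G ⧸ N) :=
    QuotientGroup.lift (M ⊓ N) ψ (fun x hx => by
      have : x ∈ ψ.ker := by rw [hker]; exact hx
      exact this)
  have hinj : Function.Injective χ := by
    rw [injective_iff_map_eq_one]
    intro x
    induction x using QuotientGroup.induction_on with
    | H x =>
      intro hx
      rw [QuotientGroup.eq_one_iff, ← hker]
      exact hx
  haveI : Group.IsSolvable (G ⧸ M) := hM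
  haveI : Group.IsSolvable (G ⧸ N) := hN
  exact Group.isSolvable_of_isSolvable_injective hinj

theorem isFormation_solPart {F : GrpClass} (hF : IsFormation F) : IsFormation (SolPart F) := by
  refine ⟨fun G _ h => hF.finite G h.1, ?_, ?_⟩
  · intro G H _ _ φ hφ h
    haveI : Group.IsSolvable G := h.2
    exact ⟨hF.quot G H φ hφ h.1, Group.isSolvable_of_surjective hφ⟩
  · intro G _ _ M N _ _ hM hN
    exact ⟨hF.inf G M N hM.1 hN.1, isSolvable_inf G M N hM.2 hN.2⟩

/-- A finite group inducing soluble groups on its chief factors is soluble. -/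
theorem isSolvable_of_chief (hC : CentStmt) (G : Type) [Group G] [Finite G]
    (h : ∀ (K H C : Subgroup G) [C.Normal], IsChief K H → IsCent K H C →
      IsSolvable (G ⧸ C)) : IsSolvable G := by
  have hanti : Antitone (derivedSeries G) := derivedSeries_antitone G
  obtain ⟨n, hn⟩ : ∃ n, ∀ m, n ≤ m → derivedSeries G n = derivedSeries G m := by
    have := WellFoundedGT.monotone_chain_condition
      (α := (Subgroup G)ᵒᵈ) ⟨fun n => OrderDual.toDual (derivedSeries G n), fun a b hab => hanti hab⟩
    obtain ⟨n, hn⟩ := this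
    exact ⟨n, fun m hm => OrderDual.toDual.injective (hn m hm)⟩
  by_cases hV : derivedSeries G n = ⊥
  · exact Group.IsSolvable.mk ⟨n, hV⟩
  exfalso
  have hnorm : (derivedSeries G n).Normal := inferInstance
  obtain ⟨⟨K, hK⟩, -⟩ := hC.2.1 G (derivedSeries G n) hnorm hV
  obtain ⟨C, hCn, hCc⟩ := hC.1 G K (derivedSeries G n) hK.nK hK.nH
  have hs := h K (derivedSeries G n) C hK hCc
  obtain ⟨m, hm⟩ := Group.IsSolvable.solvable (G := G ⧸ C) (self := hs)
  have hmap : (derivedSeries G m).map (QuotientGroup.mk' C) = ⊥ := by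
    rw [map_derivedSeries_eq (QuotientGroup.mk'_surjective C) m, hm]
  have hle : derivedSeries G m ≤ C := by
    have := (Subgroup.map_eq_bot_iff _).1 hmap
    rwa [QuotientGroup.ker_mk'] at this
  have hVC : derivedSeries G n ≤ C := by
    rw [hn (max n m) (le_max_left _ _)]
    exact (hanti (le_max_right n m)).trans hle
  have hperf : derivedSeries G n = ⁅derivedSeries G n, derivedSeries G n⁆ := by
    rw [← derivedSeries_succ]
    exact hn (n+1) (Nat.le_succ n)
  have hVK : derivedSeries G n ≤ K := by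
    conv_lhs => rw [hperf]
    rw [Subgroup.commutator_le]
    intro a ha b hb
    exact (hCc a).1 (hVC ha) b hb
  exact absurd hVK (not_le_of_gt hK.lt)

theorem isLocal_solPart (hC : CentStmt) {F : GrpClass} (hF : IsLocal F) :
    IsLocal (SolPart F) := by
  obtain ⟨hform, f, hf, hLF⟩ := hF
  refine ⟨isFormation_solPart hform, fun p => SolPart (f p),
    fun p hp => isFormation_solPart (hf p hp), fun G _ => ⟨fun h => ?_, fun h => ?_⟩⟩
  · obtain ⟨h1, h2⟩ := h
    obtain ⟨hfin, h3⟩ := (hLF G).mp h1
    refine ⟨hfin, fun K H C _ hKH hCc p hp hpd => ⟨h3 K H C hKH hCc p hp hpd, ?_⟩⟩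
    haveI : Group.IsSolvable G := h2
    exact (inferInstance : Group.IsSolvable (G ⧸ C))
  · obtain ⟨hfin, h3⟩ := h
    refine ⟨(hLF G).mpr ⟨hfin, fun K H C _ hKH hCc p hp hpd => (h3 K H C hKH hCc p hp hpd).1⟩, ?_⟩
    refine isSolvable_of_chief hC G fun K H C _ hKH hCc => ?_
    have hne : K.relIndex H ≠ 1 := by
      intro h1
      exact absurd (Subgroup.relIndex_eq_one.1 h1) (not_le_of_gt hKH.lt)
    obtain ⟨p, hp, hpd⟩ := Nat.exists_prime_and_dvd hne
    exact (h3 K H C hKH hCc p hp hpd).2

theorem resid_le_solPart (F : GrpClass) {G : Type} [Group G] (K : Subgroup G) :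
    resid F K ≤ resid (SolPart F) K := by
  refine Subgroup.map_mono (sInf_le_sInf ?_)
  rintro N ⟨hN, h⟩
  exact ⟨hN, h.1⟩

theorem fsub_of_solPart {F : GrpClass} {G : Type} [Group G] {A B : Subgroup G}
    (h : FSub (SolPart F) A B) : FSub F A B := by
  exact Relation.ReflTransGen.mono (fun K L hKL => ⟨hKL.1, (resid_le_solPart F L).trans hKL.2⟩) _ _ h

/-- A group with a soluble subgroup which is subnormal with respect to a formation of soluble
groups is soluble. -/
theorem isSolvable_of_fsub (hFS : FSStmt) {F : GrpClass} (hF : IsFormation F)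
    (hu : F PUnit) (hs : ∀ (G : Type) [Group G], F G → IsSolvable G) {G : Type} [Group G]
    [Finite G] {A B : Subgroup G} (h : FSub F A B) (hA : IsSolvable A) : IsSolvable B := by
  induction h with
  | refl => exact hA
  | tail hAB hBC ih =>
    rename_i K L
    obtain ⟨h1, h2⟩ := hBC
    obtain ⟨N, hN, h3, h4⟩ := hFS.2.2.1 F hF hu G L
    rw [h3] at h2
    haveI : Group.IsSolvable K := ih
    have hNs : Group.IsSolvable N := by
      let φ : N →* K :=
        { toFun := fun x => ⟨(x : L), h2 ⟨x, x.2, rfl⟩⟩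
          map_one' := rfl
          map_mul' := fun _ _ => rfl }
      refine Group.isSolvable_of_isSolvable_injective (f := φ) ?_
      intro x y hxy
      have : ((x : L) : G) = ((y : L) : G) := congrArg (fun z : K => (z : G)) hxy
      exact Subtype.ext (Subtype.ext this)
    haveI : Group.IsSolvable (L ⧸ N) := hs _ h4
    exact (Group.isSolvable_iff_subgroup_quotient N).mpr ⟨hNs, inferInstance⟩

theorem superradical_solPart (hFS : FSStmt) {F : GrpClass} (hF : IsFormation F) (hu : F PUnit)
    (hsr : Superradical F) : Superradical (SolPart F) := by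
  have hu' : SolPart F PUnit := ⟨hu, (inferInstance : Group.IsSolvable PUnit)⟩
  refine ⟨fun G _ N hN h => ⟨hsr.1 G N hN h.1, ?_⟩, fun G _ _ A B hA hB hA' hB' hAB => ⟨?_, ?_⟩⟩
  · haveI : Group.IsSolvable G := h.2
    exact (inferInstance : Group.IsSolvable N)
  · exact hsr.2 G A B (fsub_of_solPart hA) (fsub_of_solPart hB) hA'.1 hB'.1 hAB
  · have h := isSolvable_of_fsub hFS (isFormation_solPart hF) hu' (fun _ _ h => h.2) hA hA'.2
    haveI : Group.IsSolvable (⊤ : Subgroup G) := h
    exact Group.isSolvable_of_surjective (f := (Subgroup.topEquiv (G := G)).toMonoidHom)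
      (Subgroup.topEquiv (G := G)).surjective

theorem unit_of_isLocal {F : GrpClass} (hF : IsLocal F) : F PUnit := by
  obtain ⟨hform, f, hf, hLF⟩ := hF
  refine (hLF PUnit).mpr ⟨inferInstance, fun K H C _ hKH _ p hp hpd => ?_⟩
  exact absurd (Subsingleton.elim K H) hKH.lt.ne

end Gen

/-- The soluble groups in a local superradical formation `F` of finite groups form one of the
classes `SClass om π`. -/
def GenStmt : Prop :=
  ∀ F : GrpClass, IsLocal F → Superradical F →
    ∃ (om : Set ℕ) (π : ℕ → Set ℕ), (∀ p ∈ om, p.Prime ∧ p ∈ π p) ∧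
      ∀ (G : Type) [Group G], (F G ∧ IsSolvable G) ↔ SClass om π G

theorem genStmt (hC : CentStmt) (hFS : FSStmt) (hFwd : FwdStmt) : GenStmt := by
  intro F hF hsr
  exact hFwd (SolPart F) (Gen.isLocal_solPart hC hF)
    (Gen.superradical_solPart hFS hF.1 (Gen.unit_of_isLocal hF) hsr) fun G _ h => h.2

end Pool.Agent.Lib.MP_de73ed_al
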