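import Pool.Agent.Lib.MP_de73ed_al.Defs

set_option linter.all false

/-!
Definitions for the subgroup-closed superradical local formations of arbitrary finite groups.
-/

namespace Pool.Agent.Lib.MP_de73ed_al

/-- The class of the finite groups `G` such that all composition factors of `G` (the simple
homomorphic images of subnormal subgroups of `G`) are in `J`. -/
def EJ (J : GrpClass) : GrpClass := fun G _ => Finite G ∧
  ∀ A : Subgroup G, Subn A ⊤ → ∀ (X : Type) [Group X] (ψ : A →* X), Function.Surjective ψ →
    IsSimpleGroup X → J X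

/-- `G = AB`. -/
def Prod2 {G : Type} [Group G] (A B : Subgroup G) : Prop := ∀ g : G, ∃ a ∈ A, ∃ b ∈ B, g = a * b

/-- `H` is closed under products `G = AB`, `G ∈ F`. -/
def PClosedIn (F H : GrpClass) : Prop :=
  ∀ (G : Type) [Group G], F G → ∀ A B : Subgroup G, H A → H B → Prod2 A B → H G

/-- Closed under isomorphism. -/
def IsoClosed (J : GrpClass) : Prop :=
  ∀ (G H : Type) [Group G] [Group H], (G ≃* H) → J G → J H

/-- The composition factors of subgroups of the simple groups in `J` are in `J`. -/
def SubCF (J : GrpClass) : Prop :=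
  ∀ (X : Type) [Group X] [Finite X], IsSimpleGroup X → J X → ∀ Y : Subgroup X, EJ J Y

/-- `A` is almost simple with socle `S`: `S` is a nonabelian simple normal subgroup of `A` with
trivial centralizer. -/
structure IsASoc {A : Type} [Group A] (S : Subgroup A) : Prop where
  normal : S.Normal
  simple : IsSimpleGroup S
  noncomm : ¬ ∀ x ∈ S, ∀ y ∈ S, x * y = y * x
  cent : ∀ a : A, (∀ s ∈ S, a * s = s * a) → a = 1

end Pool.Agent.Lib.MP_de73ed_al
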