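import Pool.Agent.Lib.MP_de73ed_al.Spec

set_option linter.all false

/-! Module PLoc. -/

namespace Pool.Agent.Lib.MP_de73ed_al

theorem pLocStmt (hT : TrivStmt) (hC : CentStmt) : PLocStmt := by
  intro f hf
  refine ⟨?_, ?_⟩
  · rintro r hr ⟨X, hX, hfX⟩ G _ _ hG
    refine ⟨inferInstance, ?_⟩
    intro K H C _ hKH hC' p hp hpd
    have : Fact r.Prime := ⟨hr⟩
    obtain ⟨n, hn⟩ := IsPGroup.iff_card.mp hG
    have hdvd : K.relIndex H ∣ r ^ n := by
      rw [← hn]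
      exact (Subgroup.relIndex_dvd_card K H).trans (Subgroup.card_subgroup_dvd_card H)
    obtain ⟨m, -, hm⟩ := (Nat.dvd_prime_pow hr).mp hdvd
    have hpr : p = r := by
      rw [hm] at hpd
      exact (Nat.prime_dvd_prime_iff_eq hp hr).mp (hp.dvd_of_dvd_pow hpd)
    subst hpr
    have htop : ⊤ ≤ C := by
      refine hT G K H C ⊤ p hp hKH hC' ⟨m, hm⟩ inferInstance fun x _ => ?_
      obtain ⟨k, hk⟩ := hG x
      refine ⟨k, ?_⟩
      rw [hk]
      exact C.one_mem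
    refine (hf p hp).quot X (G ⧸ C) 1 ?_ hfX
    intro z
    obtain ⟨x, rfl⟩ := QuotientGroup.mk'_surjective C z
    refine ⟨1, ?_⟩
    rw [map_one]
    exact ((QuotientGroup.eq_one_iff x).mpr (htop (Subgroup.mem_top x))).symm
  · intro G _ hLF p hp hpd
    have := hLF.1
    obtain ⟨K, H, hKH, -, hd⟩ := hC.2.2 G ⊤ inferInstance p hp (by
      rw [Subgroup.card_top]; exact hpd)
    obtain ⟨C, hCn, hCc⟩ := hC.1 G K H hKH.nK hKH.nH
    exact ⟨G ⧸ C, inferInstance, hLF.2 K H C hKH hCc p hp hd⟩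

end Pool.Agent.Lib.MP_de73ed_al
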