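import Pool.Agent.Lib.MP_de73ed_al.Spec

set_option linter.all false

/-!
MP_de73ed_al: all `r`-groups with `r ∈ piOf f p` are in `FP f p`.
-/

namespace Pool.Agent.Lib.MP_de73ed_al

theorem rAllStmt (hCyc : CycStmt) (hR : RGrpStmt) (hPL : PLocStmt) (hFP : FPPropsStmt)
    (hSR : SRStepStmt) : RAllStmt := by
  intro f hf hLF hN hS hsol p hp hfp r hr G _ _ hG
  obtain ⟨hrp, hr⟩ := hr
  obtain ⟨hPL1, hPL2⟩ := hPL f hf
  by_cases hrp' : r = p
  · subst hrp'
    refine ⟨hPL1 r hp hfp G hG, ⊤, inferInstance, ?_, ?_⟩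
    · exact hG.to_subgroup ⊤
    · obtain ⟨X, _, hX⟩ := hfp
      refine (hf r hp).quot X (G ⧸ (⊤ : Subgroup G)) 1 ?_ hX
      intro y
      haveI := QuotientGroup.subsingleton_quotient_top (G := G)
      exact ⟨1, Subsingleton.elim _ _⟩
  · obtain ⟨X, _, hXL, hXf, hXr⟩ := hr.resolve_left hrp'
    haveI : Finite X := hXL.1
    obtain ⟨hF, hFN⟩ := hFP f hf hLF hN p hp
    have hXFP : FP f p X := by
      refine ⟨hXL, ⊥, inferInstance, IsPGroup.of_bot, ?_⟩
      exact (hf p hp).quot X (X ⧸ (⊥ : Subgroup X)) (QuotientGroup.mk' _)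
        (QuotientGroup.mk'_surjective _) hXf
    have hcyc := (hCyc (FP f p) hF).1 hFN X (hsol X hXL) hXFP r hrp hXr
    have hfr := hPL2 X hXL r hrp hXr
    exact hR (FP f p) hF hFN r hrp hcyc (fun K _ _ hK A B hA hB hAB =>
      hSR f hf hLF hN hS p hp K (fun H => hPL1 r hrp hfr H (hK.to_subgroup H)) A B hA hB hAB) G hG

end Pool.Agent.Lib.MP_de73ed_al
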