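import Pool.Agent.Lib.MP_de73ed_al.Spec

set_option linter.all false

/-!
All finite `r`-groups lie in a formation `P` closed under normal subgroups and under
factorizations of `r`-groups, once the cyclic group of order `r` does.
-/

namespace Pool.Agent.Lib.MP_de73ed_al

namespace RGrp

/-- Transport along an isomorphism. -/
theorem iso {P : GrpClass} (hP : IsFormation P) (G H : Type) [Group G] [Group H]
    (e : G ≃* H) (h : P G) : P H :=
  hP.quot G H e.toMonoidHom e.surjective h

open RegularWreathProduct in
/-- Step (a): wreath products. -/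
theorem wr (hCyc : CycStmt) {P : GrpClass} (hP : IsFormation P) (r : ℕ) (hr : r.Prime)
    (hZ : P (Multiplicative (ZMod r)))
    (hstep : ∀ (G : Type) [Group G] [Finite G], IsPGroup r G → ∀ A B : Subgroup G, P A → P B →
      (∀ g : G, ∃ a ∈ A, ∃ b ∈ B, g = a * b) → P G)
    (D : Type) [Group D] [Finite D] (hD : IsPGroup r D) (hPD : P D) :
    P (RegularWreathProduct D (Multiplicative (ZMod r))) ∧
      IsPGroup r (RegularWreathProduct D (Multiplicative (ZMod r))) := by
  haveI : Fact r.Prime := ⟨hr⟩
  haveI : NeZero r := ⟨hr.ne_zero⟩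
  haveI : Finite (Multiplicative (ZMod r)) := inferInstanceAs (Finite (ZMod r))
  have hK : IsPGroup r (RegularWreathProduct D (Multiplicative (ZMod r))) := by
    obtain ⟨n, hn⟩ := (IsPGroup.iff_card).1 hD
    have hc : Nat.card (Multiplicative (ZMod r)) = r := by
      rw [Nat.card_congr Multiplicative.toAdd, Nat.card_zmod]
    refine IsPGroup.of_card (n := n * r + 1) ?_
    rw [RegularWreathProduct.card, hn, hc, ← pow_mul, pow_succ]
  refine ⟨?_, hK⟩
  let A : Subgroup (RegularWreathProduct D (Multiplicative (ZMod r))) :=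
    (rightHom : RegularWreathProduct D (Multiplicative (ZMod r)) →* Multiplicative (ZMod r)).ker
  let B : Subgroup (RegularWreathProduct D (Multiplicative (ZMod r))) :=
    (inl : Multiplicative (ZMod r) →* RegularWreathProduct D (Multiplicative (ZMod r))).range
  have hpi : P (Multiplicative (ZMod r) → D) := (hCyc P hP).2 D (Multiplicative (ZMod r)) hPD
  have hA : P A := by
    let φ : (Multiplicative (ZMod r) → D) →* A :=
      { toFun := fun f => ⟨⟨f, 1⟩, by
          show (rightHom : RegularWreathProduct D (Multiplicative (ZMod r)) →* _) ⟨f, 1⟩ = 1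
          rfl⟩
        map_one' := by
          apply Subtype.ext
          rfl
        map_mul' := by
          intro f g
          apply Subtype.ext
          show (⟨f * g, 1⟩ : RegularWreathProduct D (Multiplicative (ZMod r))) = ⟨f, 1⟩ * ⟨g, 1⟩
          rw [mul_def]
          simp }
    refine hP.quot _ _ φ ?_ hpi
    rintro ⟨⟨f, q⟩, hx⟩
    refine ⟨f, ?_⟩
    apply Subtype.ext
    have hq : q = 1 := hx
    subst hq
    rfl
  have hB : P B := by
    refine hP.quot _ _
      (inl : Multiplicative (ZMod r) →* RegularWreathProduct D (Multiplicative (ZMod r))).rangeRestrict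
      (MonoidHom.rangeRestrict_surjective _) hZ
  refine hstep _ hK A B hA hB ?_
  rintro ⟨f, q⟩
  refine ⟨⟨f, 1⟩, ?_, ⟨1, q⟩, ⟨q, rfl⟩, ?_⟩
  · show (rightHom : RegularWreathProduct D (Multiplicative (ZMod r)) →* _) ⟨f, 1⟩ = 1
    rfl
  · rw [mul_def]
    ext
    · simp
    · simp

/-- Step (b): iterated wreath products. -/
theorem iter (hCyc : CycStmt) {P : GrpClass} (hP : IsFormation P) (r : ℕ) (hr : r.Prime)
    (hZ : P (Multiplicative (ZMod r)))
    (hstep : ∀ (G : Type) [Group G] [Finite G], IsPGroup r G → ∀ A B : Subgroup G, P A → P B →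
      (∀ g : G, ∃ a ∈ A, ∃ b ∈ B, g = a * b) → P G) (n : ℕ) :
    P (IteratedWreathProduct (Multiplicative (ZMod r)) n) ∧
      IsPGroup r (IteratedWreathProduct (Multiplicative (ZMod r)) n) := by
  haveI : Fact r.Prime := ⟨hr⟩
  haveI : NeZero r := ⟨hr.ne_zero⟩
  haveI : Finite (Multiplicative (ZMod r)) := inferInstanceAs (Finite (ZMod r))
  induction n with
  | zero =>
    refine ⟨?_, ?_⟩
    · refine hP.quot (Multiplicative (ZMod r)) _ 1 ?_ hZ
      intro x
      exact ⟨1, Subsingleton.elim (α := PUnit) _ _⟩
    · intro x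
      exact ⟨0, Subsingleton.elim (α := PUnit) _ _⟩
  | succ n ih =>
    exact wr hCyc hP r hr hZ hstep (IteratedWreathProduct (Multiplicative (ZMod r)) n) ih.2 ih.1

/-- Step (d): subgroups of `r`-groups in `P`. -/
theorem sub {P : GrpClass} (hP : IsFormation P) (hN : NClosed P) (r : ℕ) (hr : r.Prime) :
    ∀ (m : ℕ) (X : Type) [Group X] [Finite X], Nat.card X = m → IsPGroup r X → P X →
      ∀ H : Subgroup X, P H := by
  haveI : Fact r.Prime := ⟨hr⟩
  intro m
  induction m using Nat.strong_induction_on with
  | _ m ih =>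
    intro X _ _ hc hX hPX H
    by_cases hH : H = ⊤
    · subst hH
      exact iso hP _ _ Subgroup.topEquiv.symm hPX
    · obtain ⟨M, hM, hHM⟩ := (eq_top_or_exists_le_coatom H).resolve_left hH
      haveI : Group.IsNilpotent X := hX.isNilpotent
      have hMn : M.Normal := Subgroup.NormalizerCondition.normal_of_coatom M normalizerCondition_of_isNilpotent hM
      have hPM : P M := hN X M hMn hPX
      have hlt : Nat.card M < m := by
        rw [← hc]
        have hle : Nat.card M ≤ Nat.card X := Subgroup.card_le_card_group M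
        rcases lt_or_eq_of_le hle with h | h
        · exact h
        · exact absurd (Subgroup.eq_top_of_card_eq M h) hM.1
      have := ih (Nat.card M) hlt M rfl (hX.to_subgroup M) hPM (H.subgroupOf M)
      exact iso hP _ _ (Subgroup.subgroupOfEquivOfLe hHM) this

end RGrp

open RGrp in
theorem rGrpStmt (hCyc : CycStmt) : RGrpStmt := by
  intro P hP hN r hr hZ hstep G _ _ hG
  haveI : Fact r.Prime := ⟨hr⟩
  haveI : NeZero r := ⟨hr.ne_zero⟩
  haveI : Finite (Multiplicative (ZMod r)) := inferInstanceAs (Finite (ZMod r))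
  obtain ⟨n, hn⟩ := (IsPGroup.iff_card).1 hG
  have hit := iter hCyc hP r hr hZ hstep n
  let ρ : G →* Equiv.Perm G := MulAction.toPermHom G G
  have hρ : Function.Injective ρ := MulAction.toPerm_injective
  have hR : IsPGroup r ρ.range := hG.of_surjective ρ.rangeRestrict ρ.rangeRestrict_surjective
  obtain ⟨S, hS⟩ := hR.exists_le_sylow
  have hcard : Nat.card (Multiplicative (ZMod r)) = r := by
    rw [Nat.card_congr Multiplicative.toAdd, Nat.card_zmod]
  let e := Sylow.mulEquivIteratedWreathProduct r n G hn (Multiplicative (ZMod r)) hcard S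
  have hPS : P S := iso hP _ _ e.symm hit.1
  have h1 : P (ρ.range.subgroupOf (S : Subgroup (Equiv.Perm G))) :=
    sub hP hN r hr _ S rfl S.isPGroup' hPS _
  have h2 : P ρ.range := iso hP _ _ (Subgroup.subgroupOfEquivOfLe hS) h1
  exact iso hP _ _ (MonoidHom.ofInjective hρ).symm h2

end Pool.Agent.Lib.MP_de73ed_al
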