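import Pool.Agent.Lib.MP_de73ed_al.Spec

set_option linter.all false

/-! Module SCl. -/

namespace Pool.Agent.Lib.MP_de73ed_al

namespace SCl

variable {om : Set ℕ} {π : ℕ → Set ℕ}

theorem of_surjective {G H : Type} [Group G] [Group H] (φ : G →* H)
    (hφ : Function.Surjective φ) (h : SClass om π G) : SClass om π H := by
  obtain ⟨hfin, hsol, hp, hN⟩ := h
  have hsol0 : Group.IsSolvable G := hsol
  refine ⟨Finite.of_surjective φ hφ, Group.isSolvable_of_surjective hφ, fun p hpp hd => ?_, fun p hpo => ?_⟩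
  · exact hp p hpp (hd.trans (Subgroup.card_dvd_of_surjective φ hφ))
  · obtain ⟨N, hNn, hNc, hNi⟩ := hN p hpo
    refine ⟨N.map φ, hNn.map φ hφ, fun hd => hNc ?_, fun q hq hd => hNi q hq ?_⟩
    · exact hd.trans (Subgroup.card_map_dvd N φ)
    · exact hd.trans (Subgroup.index_map_dvd N hφ)

theorem of_injective {G H : Type} [Group G] [Group H] (φ : G →* H)
    (hφ : Function.Injective φ) (h : SClass om π H) : SClass om π G := by
  obtain ⟨hfin, hsol, hp, hN⟩ := h
  have hsol0 : Group.IsSolvable H := hsol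
  refine ⟨Finite.of_injective φ hφ, Group.isSolvable_of_isSolvable_injective hφ, fun p hpp hd => ?_,
    fun p hpo => ?_⟩
  · exact hp p hpp (hd.trans (Subgroup.card_dvd_of_injective φ hφ))
  · obtain ⟨N, hNn, hNc, hNi⟩ := hN p hpo
    refine ⟨N.comap φ, hNn.comap φ, fun hd => hNc ?_, fun q hq hd => hNi q hq ?_⟩
    · exact hd.trans (Subgroup.card_comap_dvd_of_injective N φ hφ)
    · rw [Subgroup.index_comap] at hd
      exact hd.trans (Subgroup.relIndex_dvd_index_of_normal N φ.range)

theorem prod (hom : ∀ p ∈ om, p.Prime ∧ p ∈ π p) {G H : Type} [Group G] [Group H]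
    (hG : SClass om π G) (hH : SClass om π H) : SClass om π (G × H) := by
  obtain ⟨hfin, hsol, hp, hN⟩ := hG
  obtain ⟨hfin', hsol', hp', hN'⟩ := hH
  have hsol0 : Group.IsSolvable G := hsol
  have hsol1 : Group.IsSolvable H := hsol'
  have hsol2 : Group.IsSolvable (G × H) := inferInstance
  refine ⟨inferInstance, hsol2, fun p hpp hd => ?_, fun p hpo => ?_⟩
  · rw [Nat.card_prod] at hd
    rcases (Nat.Prime.dvd_mul hpp).mp hd with h | h
    · exact hp p hpp h
    · exact hp' p hpp h
  · obtain ⟨N, hNn, hNc, hNi⟩ := hN p hpo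
    obtain ⟨N', hNn', hNc', hNi'⟩ := hN' p hpo
    refine ⟨N.prod N', inferInstance, fun hd => ?_, fun q hq hd => ?_⟩
    · have hpp := (hom p hpo).1
      rw [Nat.card_congr (Subgroup.prodEquiv N N').toEquiv, Nat.card_prod] at hd
      rcases (Nat.Prime.dvd_mul hpp).mp hd with h | h
      · exact hNc h
      · exact hNc' h
    · rw [Subgroup.index_prod] at hd
      rcases (Nat.Prime.dvd_mul hq).mp hd with h | h
      · exact hNi q hq h
      · exact hNi' q hq h

end SCl

theorem sClStmt : SClStmt := by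
  intro om π hom
  refine ⟨⟨fun G _ h => h.1, fun G H _ _ φ hφ h => SCl.of_surjective φ hφ h,
    fun G _ _ M N _ _ hM hN => ?_⟩, fun G _ H h => SCl.of_injective H.subtype
      (Subgroup.subtype_injective H) h, ?_⟩
  · let φ : G ⧸ (M ⊓ N) →* (G ⧸ M) × (G ⧸ N) :=
      QuotientGroup.lift (M ⊓ N) ((QuotientGroup.mk' M).prod (QuotientGroup.mk' N)) (by
        intro x hx
        rw [MonoidHom.mem_ker]
        exact Prod.ext ((QuotientGroup.eq_one_iff x).mpr hx.1)
          ((QuotientGroup.eq_one_iff x).mpr hx.2))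
    have hφ : Function.Injective φ := by
      rw [injective_iff_map_eq_one]
      intro z hz
      obtain ⟨x, rfl⟩ := QuotientGroup.mk'_surjective (M ⊓ N) z
      have h1 : QuotientGroup.mk' M x = 1 := congrArg Prod.fst hz
      have h2 : QuotientGroup.mk' N x = 1 := congrArg Prod.snd hz
      exact (QuotientGroup.eq_one_iff x).mpr ⟨(QuotientGroup.eq_one_iff x).mp h1,
        (QuotientGroup.eq_one_iff x).mp h2⟩
    exact SCl.of_injective φ hφ (SCl.prod hom hM hN)
  · have hsol : Group.IsSolvable PUnit := inferInstance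
    refine ⟨inferInstance, hsol, fun p hp hd => ?_, fun p hp => ⟨⊥, inferInstance, ?_, ?_⟩⟩
    · rw [Nat.card_unique] at hd
      exact absurd (Nat.dvd_one.mp hd) hp.ne_one
    · rw [Subgroup.card_bot]
      intro hd
      exact absurd (Nat.dvd_one.mp hd) (hom p hp).1.ne_one
    · intro q hq hd
      rw [Subgroup.index_bot, Nat.card_unique] at hd
      exact absurd (Nat.dvd_one.mp hd) hq.ne_one

end Pool.Agent.Lib.MP_de73ed_al
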