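import Pool.Agent.Lib.MP_de73ed_al.Spec

set_option linter.all false

namespace Pool.Agent.Lib.MP_de73ed_al

namespace SLoc

theorem forms (om : Set ℕ) (π : ℕ → Set ℕ) : Forms (f0 om π) := by
  intro p hp
  refine ⟨fun G _ h => h.2.1, ?_, ?_⟩
  · intro G H _ _ φ hφ h
    obtain ⟨h1, h2, h3, h4⟩ := h
    haveI := h2
    haveI : Group.IsSolvable G := h3
    refine ⟨h1, Finite.of_surjective φ hφ, Group.isSolvable_of_surjective hφ, ?_⟩
    intro q hq hd
    exact h4 q hq (hd.trans (Subgroup.card_dvd_of_surjective φ hφ))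
  · intro G _ _ M N _ _ hM hN
    obtain ⟨h1, h2, h3, h4⟩ := hM
    obtain ⟨g1, g2, g3, g4⟩ := hN
    let ψ : G →* (G ⧸ M) × (G ⧸ N) := (QuotientGroup.mk' M).prod (QuotientGroup.mk' N)
    have hker : ψ.ker = M ⊓ N := by
      rw [MonoidHom.ker_prod, QuotientGroup.ker_mk', QuotientGroup.ker_mk']
    let χ : G ⧸ (M ⊓ N) →* (G ⧸ M) × (G ⧸ N) :=
      QuotientGroup.lift (M ⊓ N) ψ (fun x hx => by
        have : x ∈ ψ.ker := by rw [hker]; exact hx
        exact this)
    have hinj : Function.Injective χ := by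
      rw [injective_iff_map_eq_one]
      intro x
      induction x using QuotientGroup.induction_on with
      | H x =>
        intro hx
        rw [QuotientGroup.eq_one_iff, ← hker]
        exact hx
    haveI : Group.IsSolvable (G ⧸ M) := h3
    haveI : Group.IsSolvable (G ⧸ N) := g3
    refine ⟨h1, inferInstance, Group.isSolvable_of_isSolvable_injective hinj, ?_⟩
    intro q hq hd
    have hd2 : q ∣ Nat.card ((G ⧸ M) × (G ⧸ N)) := hd.trans (Subgroup.card_dvd_of_injective χ hinj)
    rw [Nat.card_prod] at hd2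
    rcases (Nat.Prime.dvd_mul hq).1 hd2 with h | h
    · exact h4 q hq h
    · exact g4 q hq h

theorem solv (hC : CentStmt) (om : Set ℕ) (π : ℕ → Set ℕ) (G : Type) [Group G] [Finite G]
    (h : LF (f0 om π) G) : IsSolvable G := by
  -- the derived series stabilizes
  have hanti : Antitone (derivedSeries G) := derivedSeries_antitone G
  obtain ⟨n, hn⟩ : ∃ n, ∀ m, n ≤ m → derivedSeries G n = derivedSeries G m := by
    have := WellFoundedGT.monotone_chain_condition
      (α := (Subgroup G)ᵒᵈ) ⟨fun n => OrderDual.toDual (derivedSeries G n), fun a b hab => hanti hab⟩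
    obtain ⟨n, hn⟩ := this
    exact ⟨n, fun m hm => OrderDual.toDual.injective (hn m hm)⟩
  by_cases hV : derivedSeries G n = ⊥
  · exact Group.IsSolvable.mk ⟨n, hV⟩
  exfalso
  have hnorm : (derivedSeries G n).Normal := inferInstance
  obtain ⟨⟨K, hK⟩, -⟩ := hC.2.1 G (derivedSeries G n) hnorm hV
  obtain ⟨C, hCn, hCc⟩ := hC.1 G K (derivedSeries G n) hK.nK hK.nH
  have hne : K.relIndex (derivedSeries G n) ≠ 1 := by
    intro h1
    exact absurd (Subgroup.relIndex_eq_one.1 h1) (not_le_of_gt hK.lt)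
  obtain ⟨p, hp, hpd⟩ := Nat.exists_prime_and_dvd hne
  obtain ⟨-, -, hs, -⟩ := h.2 K (derivedSeries G n) C hK hCc p hp hpd
  obtain ⟨m, hm⟩ := Group.IsSolvable.solvable (G := G ⧸ C) (self := hs)
  have hmap : (derivedSeries G m).map (QuotientGroup.mk' C) = ⊥ := by
    rw [map_derivedSeries_eq (QuotientGroup.mk'_surjective C) m, hm]
  have hle : derivedSeries G m ≤ C := by
    have := (Subgroup.map_eq_bot_iff _).1 hmap
    rwa [QuotientGroup.ker_mk'] at this
  have hVC : derivedSeries G n ≤ C := by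
    rw [hn (max n m) (le_max_left _ _)]
    exact (hanti (le_max_right n m)).trans hle
  have hperf : derivedSeries G n = ⁅derivedSeries G n, derivedSeries G n⁆ := by
    rw [← derivedSeries_succ]
    exact hn (n+1) (Nat.le_succ n)
  have hVK : derivedSeries G n ≤ K := by
    conv_lhs => rw [hperf]
    rw [Subgroup.commutator_le]
    intro a ha b hb
    exact (hCc a).1 (hVC ha) b hb
  exact absurd hVK (not_le_of_gt hK.lt)

end SLoc

theorem sLocStmt (hA : APartStmt) (hB : BPartStmt) (hE : ElemStmt) (hC : CentStmt) : SLocStmt := by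
  intro om π hom
  refine ⟨SLoc.forms om π, ?_⟩
  intro G _
  constructor
  · rintro ⟨hfin, hsol, hpr, hN⟩
    haveI := hfin
    refine ⟨hfin, ?_⟩
    intro K H C hCn hKH hCc p hp hpd
    have hpG : p ∣ Nat.card G := by
      refine hpd.trans ?_
      refine (Subgroup.relIndex_dvd_card K H).trans (Subgroup.card_subgroup_dvd_card H)
    have hpom : p ∈ om := hpr p hp hpG
    obtain ⟨N, hNn, hpN, hNq⟩ := hN p hpom
    obtain ⟨hpow, -, -⟩ := hE G hsol K H hKH p hp hpd
    have hNC : N ≤ C := by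
      refine hA G K H C N p hp hKH.nK hKH.nH hKH.lt.le hpow hCc hpN ?_
      intro x hx h _
      have h1 : h * x⁻¹ * h⁻¹ ∈ N := hNn.conj_mem _ (N.inv_mem hx) h
      have h2 : x * (h * x⁻¹ * h⁻¹) ∈ N := N.mul_mem hx h1
      have h3 : x * h * x⁻¹ * h⁻¹ = x * (h * x⁻¹ * h⁻¹) := by group
      rw [h3]; exact h2
    haveI : Group.IsSolvable G := hsol
    refine ⟨hpom, inferInstance, (inferInstance : Group.IsSolvable (G ⧸ C)), ?_⟩
    intro q hq hqd
    exact hNq q hq (hqd.trans (Subgroup.index_dvd_of_le hNC))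
  · intro h
    haveI hfin := h.1
    have hsol : IsSolvable G := SLoc.solv hC om π G h
    refine ⟨hfin, hsol, ?_, ?_⟩
    · intro p hp hpd
      obtain ⟨K, H, hKH, -, hpd2⟩ := hC.2.2 G ⊤ inferInstance p hp (by
        rwa [Subgroup.card_top])
      obtain ⟨C, hCn, hCc⟩ := hC.1 G K H hKH.nK hKH.nH
      exact (h.2 K H C hKH hCc p hp hpd2).1
    · intro p hpom
      refine hB p (hom p hpom).1 (π p) (hom p hpom).2 G hsol ?_
      intro K H C hCn hKH hCc hpd q hq hqd
      exact (h.2 K H C hKH hCc p (hom p hpom).1 hpd).2.2.2 q hq hqd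

end Pool.Agent.Lib.MP_de73ed_al
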