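import Pool.Agent.Lib.MP_de73ed_al.Spec

set_option linter.all false

/-! The product step for the classes `SClass`. -/

namespace Pool.Agent.Lib.MP_de73ed_al

namespace SProd

theorem index_dvd_card_of_mul {G : Type} [Group G] [Finite G] (A B : Subgroup G)
    (h : ∀ g : G, ∃ a ∈ A, ∃ b ∈ B, g = a * b) : B.index ∣ Nat.card A := by
  have h1 := MulAction.index_stabilizer A ((1 : G) : G ⧸ B)
  have h2 : MulAction.orbit A ((1 : G) : G ⧸ B) = Set.univ := by
    rw [Set.eq_univ_iff_forall]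
    intro x
    obtain ⟨g, rfl⟩ := QuotientGroup.mk_surjective x
    obtain ⟨a, ha, b, hb, rfl⟩ := h g
    refine ⟨⟨a, ha⟩, ?_⟩
    change ((a * 1 : G) : G ⧸ B) = ((a * b : G) : G ⧸ B)
    rw [QuotientGroup.eq]
    simpa using hb
  rw [h2, Set.ncard_univ] at h1
  have h3 : B.index = Nat.card (G ⧸ B) := rfl
  rw [h3, ← h1]
  exact Subgroup.index_dvd_card _

theorem prime_dvd_of_mul {G : Type} [Group G] [Finite G] (A B : Subgroup G)
    (h : ∀ g : G, ∃ a ∈ A, ∃ b ∈ B, g = a * b) (q : ℕ) (hq : q.Prime) (hd : q ∣ Nat.card G) :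
    q ∣ Nat.card A ∨ q ∣ Nat.card B := by
  rw [← Subgroup.index_mul_card B] at hd
  rcases (Nat.Prime.dvd_mul hq).mp hd with h1 | h1
  · exact Or.inl (h1.trans (index_dvd_card_of_mul A B h))
  · exact Or.inr h1

/-- The prime divisors of the image in `G ⧸ C` of a member `M` of the class. -/
theorem image_primes (hA : APartStmt) {G : Type} [Group G] [Finite G] {om : Set ℕ}
    {π : ℕ → Set ℕ} {M K H C : Subgroup G} [C.Normal] {p : ℕ} (hp : p.Prime) (hpo : p ∈ om)
    (hM : SClass om π M) (hc : IsChief K H) (hcent : IsCent K H C) (hHM : H ≤ M)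
    (hpow : ∃ n : ℕ, K.relIndex H = p ^ n) (q : ℕ) (hq : q.Prime)
    (hqd : q ∣ Nat.card (M.map (QuotientGroup.mk' C))) : q ∈ π p := by
  obtain ⟨N1, hN1n, hN1p, hN1i⟩ := hM.2.2.2 p hpo
  have hXC : N1.map M.subtype ≤ C := by
    refine hA G K H C (N1.map M.subtype) p hp hc.nK hc.nH hc.lt.le hpow hcent ?_ ?_
    · rw [Subgroup.card_map_of_injective M.subtype_injective]
      exact hN1p
    · rintro x ⟨x', hx', rfl⟩ h hh
      have h1 : (⟨h, hHM hh⟩ : M) * x'⁻¹ * (⟨h, hHM hh⟩ : M)⁻¹ ∈ N1 :=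
        hN1n.conj_mem _ (N1.inv_mem hx') _
      refine ⟨x' * ((⟨h, hHM hh⟩ : M) * x'⁻¹ * (⟨h, hHM hh⟩ : M)⁻¹), N1.mul_mem hx' h1, ?_⟩
      simp only [Subgroup.coe_subtype, Subgroup.coe_mul, Subgroup.coe_inv]
      group
  have hrange : ((QuotientGroup.mk' C).comp M.subtype).range = M.map (QuotientGroup.mk' C) := by
    rw [MonoidHom.range_comp, Subgroup.range_subtype]
  have hker : N1 ≤ ((QuotientGroup.mk' C).comp M.subtype).ker := by
    intro x hx
    rw [MonoidHom.mem_ker]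
    exact (QuotientGroup.eq_one_iff _).mpr (hXC ⟨x, hx, rfl⟩)
  refine hN1i q hq ?_
  rw [← hrange, ← Subgroup.index_ker] at hqd
  exact hqd.trans (Subgroup.index_dvd_of_le hker)

end SProd

open SProd in
theorem sProdStmt (hA : APartStmt) (hCF : CFStmt) (hE : ElemStmt) (hS : SLocStmt) :
    SProdStmt := by
  intro om π hop G _ _ M N R _ hRM hRN hMN hM hN hQ
  obtain ⟨hForms, hSL⟩ := hS om π hop
  have hsolM : Group.IsSolvable M := hM.2.1
  have hsolQ : Group.IsSolvable (G ⧸ R) := hQ.2.1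
  have hsolR : Group.IsSolvable R :=
    Group.isSolvable_of_isSolvable_injective (f := Subgroup.inclusion hRM)
      (Subgroup.inclusion_injective hRM)
  have hsolG : Group.IsSolvable G :=
    Group.isSolvable_of_ker_le_range R.subtype (QuotientGroup.mk' R) (by
      rw [QuotientGroup.ker_mk', Subgroup.range_subtype])
  rw [hSL]
  refine hCF (f0 om π) hForms G R ((hSL (G ⧸ R)).mp hQ) ?_
  intro K H C _ hc hHR hcent p hp hpd
  obtain ⟨hpow, -, -⟩ := hE G hsolG K H hc p hp hpd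
  have hHM : H ≤ M := hHR.trans hRM
  have hHN : H ≤ N := hHR.trans hRN
  have hpo : p ∈ om := by
    refine hM.2.2.1 p hp ?_
    exact hpd.trans ((Subgroup.relIndex_dvd_card K H).trans (Subgroup.card_dvd_of_le hHM))
  refine ⟨hpo, inferInstance, (inferInstance : Group.IsSolvable (G ⧸ C)), ?_⟩
  intro q hq hqd
  have hmul : ∀ g : G ⧸ C, ∃ a ∈ M.map (QuotientGroup.mk' C), ∃ b ∈ N.map (QuotientGroup.mk' C),
      g = a * b := by
    intro g
    obtain ⟨g, rfl⟩ := QuotientGroup.mk_surjective g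
    obtain ⟨a, ha, b, hb, rfl⟩ := hMN g
    exact ⟨_, ⟨a, ha, rfl⟩, _, ⟨b, hb, rfl⟩, rfl⟩
  rcases prime_dvd_of_mul _ _ hmul q hq hqd with h1 | h1
  · exact image_primes hA hp hpo hM hc hcent hHM hpow q hq h1
  · exact image_primes hA hp hpo hN hc hcent hHN hpow q hq h1

end Pool.Agent.Lib.MP_de73ed_al
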