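import Pool.Agent.Lib.MP_de73ed_al.Spec

set_option linter.all false

/-! Module SRStep: superradicality and factorizations in `F(p)`. -/

namespace Pool.Agent.Lib.MP_de73ed_al

/-- (SR) Superradicality implies that `F(p)` is closed under factorizations `G = AB` if all
subgroups of `G` are in `LF f`. -/
theorem srStepStmt (hU : UpStmt) (hD : DownStmt) (hW : WrStmt) (hFS : FSStmt)
    (hFP : FPPropsStmt) : SRStepStmt := by
  intro f hf hLF hN hSR p hp G _ _ hsub A B hA hB hAB
  obtain ⟨W, _, φ, hfin, hsurj, hne, hpow, hcomm, hcent⟩ := hW p hp G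
  have hPF := (hFP f hf hLF hN p hp).1
  have hres : ∀ Z : Subgroup W, φ.ker ≤ Z → resid (LF f) Z ≤ φ.ker := by
    intro Z hZ
    refine (hFS.2.1 (LF f) hLF W Z (Z.map φ) (φ.subgroupMap Z) (φ.subgroupMap_surjective Z)
      (hsub _)).trans ?_
    rintro _ ⟨z, hz, rfl⟩
    have h1 : φ.subgroupMap Z z = 1 := hz
    have h2 := congrArg Subtype.val h1
    exact h2
  have hfs : ∀ X : Subgroup W, φ.ker ≤ X → FSub (LF f) X ⊤ := fun X hX =>
    hFS.1 (LF f) W X ⊤ le_top fun Z hXZ _ => (hres Z (hX.trans hXZ)).trans hX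
  have hup : ∀ C : Subgroup G, FP f p C → LF f (C.comap φ) := by
    intro C hC
    have hsC : Function.Surjective (φ.subgroupComap C) :=
      φ.subgroupComap_surjective_of_surjective C hsurj
    refine hU f hf p hp (C.comap φ) (φ.subgroupComap C).ker ?_ ?_
    · rintro ⟨v, hv⟩
      refine ⟨1, ?_⟩
      have h1 : φ.subgroupComap C v = 1 := hv
      have h2 : φ (v : W) = 1 := congrArg Subtype.val h1
      have h3 := hpow (v : W) h2
      ext
      simpa using h3
    · exact hPF.quot C _ (QuotientGroup.quotientKerEquivOfSurjective _ hsC).symm.toMonoidHom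
        (QuotientGroup.quotientKerEquivOfSurjective _ hsC).symm.surjective hC
  have hker : ∀ C : Subgroup G, φ.ker ≤ C.comap φ := fun C v hv => by
    rw [Subgroup.mem_comap, MonoidHom.mem_ker.mp hv]
    exact C.one_mem
  have hLW : LF f W := by
    refine hSR.2 W (A.comap φ) (B.comap φ) (hfs _ (hker A)) (hfs _ (hker B)) (hup A hA)
      (hup B hB) fun w => ?_
    obtain ⟨a, ha, b, hb, hab⟩ := hAB (φ w)
    obtain ⟨x, rfl⟩ := hsurj a
    refine ⟨x, ha, x⁻¹ * w, ?_, by group⟩
    rw [Subgroup.mem_comap, map_mul, map_inv, hab, inv_mul_cancel_left]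
    exact hb
  have hQ : FP f p (W ⧸ φ.ker) := hD f hf hLF p hp W φ.ker hne hpow hcomm hcent hLW
  exact hPF.quot (W ⧸ φ.ker) G (QuotientGroup.quotientKerEquivOfSurjective φ hsurj).toMonoidHom
    (QuotientGroup.quotientKerEquivOfSurjective φ hsurj).surjective hQ

end Pool.Agent.Lib.MP_de73ed_al
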