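import Pool.Agent.Lib.MP_de73ed_al.Spec

set_option linter.all false

namespace Pool.Agent.Lib.MP_de73ed_al

namespace SSup

theorem of_equiv {F : GrpClass} (hF : IsFormation F) {G H : Type} [Group G] [Group H]
    (e : G ≃* H) (h : F G) : F H :=
  hF.quot G H e.toMonoidHom e.surjective h

theorem fsub_le {F : GrpClass} {G : Type} [Group G] {H L : Subgroup G} (h : FSub F H L) :
    H ≤ L := by
  unfold FSub at h
  induction h with
  | refl => exact le_refl _
  | tail _ h2 ih => exact le_trans ih h2.1.le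

theorem of_le {F : GrpClass} (hF : IsFormation F) (hS : SClosed F) {G : Type} [Group G]
    {A B : Subgroup G} (hAB : A ≤ B) (h : F B) : F A :=
  of_equiv hF (Subgroup.subgroupOfEquivOfLe hAB) (hS B (A.subgroupOf B) h)

theorem main (hFS : FSStmt) (hSP : SProdStmt) (om : Set ℕ) (π : ℕ → Set ℕ)
    (hom : ∀ p ∈ om, p.Prime ∧ p ∈ π p) (hF : IsFormation (SClass om π))
    (hS : SClosed (SClass om π)) (h1 : SClass om π PUnit) (G : Type) [Group G] [Finite G] :
    ∀ (n : ℕ) (D A B : Subgroup G), Nat.card D = n → FSub (SClass om π) A D →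
      FSub (SClass om π) B D → SClass om π A → SClass om π B →
      (∀ g ∈ D, ∃ a ∈ A, ∃ b ∈ B, g = a * b) → SClass om π D := by
  intro n
  induction n using Nat.strong_induction_on with
  | _ n ih =>
  intro D A B hn hA hB hFA hFB hAB
  obtain ⟨-, -, h3, -, h5⟩ := hFS
  rcases Relation.ReflTransGen.cases_tail hA with hA' | ⟨M, hAM, hMD⟩
  · subst hA'; exact hFA
  rcases Relation.ReflTransGen.cases_tail hB with hB' | ⟨N, hBN, hND⟩
  · subst hB'; exact hFB
  have hAM' : FSub (SClass om π) A M := hAM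
  have hBN' : FSub (SClass om π) B N := hBN
  have hAleM : A ≤ M := fsub_le hAM'
  have hBleN : B ≤ N := fsub_le hBN'
  have hMlt : M < D := hMD.1.lt
  have hNlt : N < D := hND.1.lt
  have hcardM : Nat.card M < n := by
    rw [← hn]
    exact Set.ncard_lt_ncard (SetLike.coe_ssubset_coe.2 hMlt) (Set.toFinite _)
  have hcardN : Nat.card N < n := by
    rw [← hn]
    exact Set.ncard_lt_ncard (SetLike.coe_ssubset_coe.2 hNlt) (Set.toFinite _)
  have hFM : SClass om π M := by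
    refine ih (Nat.card M) hcardM M A (B ⊓ M) rfl hAM' (h5 _ hF hS h1 G B D M hB hMlt.le) hFA
      (of_le hF hS inf_le_left hFB) ?_
    intro g hg
    obtain ⟨a, ha, b, hb, rfl⟩ := hAB g (hMlt.le hg)
    refine ⟨a, ha, b, ⟨hb, ?_⟩, rfl⟩
    have : a⁻¹ * (a * b) ∈ M := M.mul_mem (M.inv_mem (hAleM ha)) hg
    simpa using this
  have hFN : SClass om π N := by
    refine ih (Nat.card N) hcardN N (A ⊓ N) B rfl (h5 _ hF hS h1 G A D N hA hNlt.le) hBN'
      (of_le hF hS inf_le_left hFA) hFB ?_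
    intro g hg
    obtain ⟨a, ha, b, hb, rfl⟩ := hAB g (hNlt.le hg)
    refine ⟨a, ⟨ha, ?_⟩, b, hb, rfl⟩
    have : (a * b) * b⁻¹ ∈ N := N.mul_mem hg (N.inv_mem (hBleN hb))
    simpa using this
  obtain ⟨R, hRn, hR, hFR⟩ := h3 _ hF h1 G D
  have hRM : R ≤ M.subgroupOf D := by
    intro x hx
    rw [Subgroup.mem_subgroupOf]
    apply hMD.2
    rw [hR]
    exact Subgroup.mem_map.2 ⟨x, hx, rfl⟩
  have hRN : R ≤ N.subgroupOf D := by
    intro x hx
    rw [Subgroup.mem_subgroupOf]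
    apply hND.2
    rw [hR]
    exact Subgroup.mem_map.2 ⟨x, hx, rfl⟩
  refine hSP om π hom D (M.subgroupOf D) (N.subgroupOf D) R hRM hRN ?_
    (of_equiv hF (Subgroup.subgroupOfEquivOfLe hMlt.le).symm hFM)
    (of_equiv hF (Subgroup.subgroupOfEquivOfLe hNlt.le).symm hFN) hFR
  rintro ⟨g, hg⟩
  obtain ⟨a, ha, b, hb, rfl⟩ := hAB g hg
  refine ⟨⟨a, hMlt.le (hAleM ha)⟩, ?_, ⟨b, hNlt.le (hBleN hb)⟩, ?_, ?_⟩
  · rw [Subgroup.mem_subgroupOf]; exact hAleM ha
  · rw [Subgroup.mem_subgroupOf]; exact hBleN hb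
  · rfl

end SSup

theorem sSupStmt (hFS : FSStmt) (hSC : SClStmt) (hSP : SProdStmt) : SSupStmt := by
  intro om π hom
  obtain ⟨hF, hS, h1⟩ := hSC om π hom
  refine ⟨fun G _ N _ hG => hS G N hG, ?_⟩
  intro G _ _ A B hA hB hFA hFB hAB
  have := SSup.main hFS hSP om π hom hF hS h1 G (Nat.card (⊤ : Subgroup G)) ⊤ A B rfl hA hB hFA hFB
    (fun g _ => hAB g)
  exact SSup.of_equiv hF Subgroup.topEquiv this

end Pool.Agent.Lib.MP_de73ed_al
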