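import Pool.Agent.Lib.MP_de73ed_al.Spec

set_option linter.all false

/-! Heredity step of the simultaneous induction. -/

namespace Pool.Agent.Lib.MP_de73ed_al

namespace StepP

theorem transfer {F : GrpClass} (hF : IsFormation F) {A B : Type} [Group A] [Group B]
    (ψ : A →* B) (hψ : Function.Surjective ψ) (N : Subgroup A) [N.Normal] (h : ψ.ker ≤ N)
    (hB : F B) : F (A ⧸ N) := by
  refine hF.quot B (A ⧸ N) ((QuotientGroup.map ψ.ker N (MonoidHom.id A) h).comp
    (QuotientGroup.quotientKerEquivOfSurjective ψ hψ).symm.toMonoidHom) ?_ hB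
  intro x
  obtain ⟨a, rfl⟩ := QuotientGroup.mk_surjective x
  refine ⟨QuotientGroup.quotientKerEquivOfSurjective ψ hψ (a : A ⧸ ψ.ker), ?_⟩
  rw [MonoidHom.comp_apply]
  have h1 : (QuotientGroup.quotientKerEquivOfSurjective ψ hψ).symm.toMonoidHom
      (QuotientGroup.quotientKerEquivOfSurjective ψ hψ (a : A ⧸ ψ.ker)) = (a : A ⧸ ψ.ker) :=
    (QuotientGroup.quotientKerEquivOfSurjective ψ hψ).symm_apply_apply _
  rw [h1]
  rfl

theorem lf_one (f : ℕ → GrpClass) (G : Type) [Group G] [Finite G]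
    (h : Nat.card G = 1) : LF f G := by
  refine ⟨inferInstance, ?_⟩
  intro K H C _ hc
  exfalso
  have : Subsingleton G := (Nat.card_eq_one_iff_unique.mp h).1
  have h1 : K = H := Subsingleton.elim _ _
  exact hc.lt.ne h1

theorem card_quot_lt {G : Type} [Group G] [Finite G] (L : Subgroup G) (hL : L ≠ ⊥) :
    Nat.card (G ⧸ L) < Nat.card G := by
  have hcardL : 1 < Nat.card L := by
    have h1 : Nat.card L ≠ 1 := by
      intro h
      exact hL (Subgroup.card_eq_one.mp h)
    have h2 : 0 < Nat.card L := Nat.card_pos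
    omega
  rw [Subgroup.card_eq_card_quotient_mul_card_subgroup L]
  have h2 : 0 < Nat.card (G ⧸ L) := Nat.card_pos
  nlinarith

end StepP

open StepP in
theorem stepPStmt (hC : CentStmt) (hCF : CFStmt) (hT : TrivStmt) (hE : ElemStmt) :
    StepPStmt := by
  intro f hf hF hsol G _ _ hG hP hQ M
  by_cases hone : Nat.card G = 1
  · refine lf_one f M ?_
    have h1 : Nat.card M ∣ Nat.card G := Subgroup.card_subgroup_dvd_card M
    rw [hone] at h1
    exact Nat.dvd_one.mp h1
  have hnt : (⊤ : Subgroup G) ≠ ⊥ := by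
    intro h
    apply hone
    have := Subgroup.card_top (G := G)
    rw [h, Subgroup.card_bot] at this
    exact this.symm
  obtain ⟨L, hL, -⟩ := (hC.2.1 G ⊤ inferInstance hnt).2
  have hLn : L.Normal := hL.nH
  have hLne : L ≠ ⊥ := hL.lt.ne'
  have hcardL : Nat.card L ≠ 1 := fun h => hLne (Subgroup.card_eq_one.mp h)
  obtain ⟨q, hq, hqd⟩ := Nat.exists_prime_and_dvd hcardL
  have hqd' : q ∣ (⊥ : Subgroup G).relIndex L := by
    rw [Subgroup.relIndex_bot_left]
    exact hqd
  obtain ⟨⟨n, hpow⟩, helem, hcomm⟩ := hE G (hsol G hG) ⊥ L hL q hq hqd'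
  rw [Subgroup.relIndex_bot_left] at hpow
  obtain ⟨D, hDn, hDc⟩ := hC.1 G ⊥ L inferInstance hLn
  have hLD : L ≤ D := by
    intro x hx
    rw [hDc]
    intro h hh
    exact hcomm x hx h hh
  have hDne : D ≠ ⊥ := by
    intro h
    rw [h] at hLD
    exact hLne (le_bot_iff.mp hLD)
  have hfD : f q (G ⧸ D) := hG.2 ⊥ L D hL hDc q hq hqd'
  have hLFD : LF f (G ⧸ D) := hF.quot G (G ⧸ D) (QuotientGroup.mk' D)
    (QuotientGroup.mk'_surjective D) hG
  have hLFL : LF f (G ⧸ L) := hF.quot G (G ⧸ L) (QuotientGroup.mk' L)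
    (QuotientGroup.mk'_surjective L) hG
  -- the quotient of M by L ⊓ M
  have hMn : (L.subgroupOf M).Normal := hLn.subgroupOf M
  have h1 : LF f (M ⧸ (L.subgroupOf M)) := by
    refine transfer hF ((QuotientGroup.mk' L).subgroupMap M)
      ((QuotientGroup.mk' L).subgroupMap_surjective M) (L.subgroupOf M) ?_
      (hP (G ⧸ L) (card_quot_lt L hLne) hLFL (M.map (QuotientGroup.mk' L)))
    intro x hx
    rw [MonoidHom.mem_ker] at hx
    have h2 : QuotientGroup.mk' L (x : G) = 1 := congrArg Subtype.val hx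
    rw [Subgroup.mem_subgroupOf]
    exact (QuotientGroup.eq_one_iff _).mp h2
  refine hCF f hf M (L.subgroupOf M) h1 ?_
  intro K H C _ hc hHL hcent p hp hpd
  have hdvd : K.relIndex H ∣ q ^ n := by
    rw [← hpow]
    refine (Subgroup.relIndex_dvd_card K H).trans ((Subgroup.card_dvd_of_le hHL).trans ?_)
    exact Subgroup.card_comap_dvd_of_injective L M.subtype M.subtype_injective
  have hpq : p = q := (Nat.prime_dvd_prime_iff_eq hp hq).mp (hp.dvd_of_dvd_pow (hpd.trans hdvd))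
  subst hpq
  obtain ⟨m, -, hm⟩ := (Nat.dvd_prime_pow hp).mp hdvd
  -- the image of M in G / D
  have hY : LF f (M.map (QuotientGroup.mk' D)) :=
    hP (G ⧸ D) (card_quot_lt D hDne) hLFD (M.map (QuotientGroup.mk' D))
  have hFP : FP f p (M.map (QuotientGroup.mk' D)) := by
    refine hQ (M.map (QuotientGroup.mk' D)) ?_ hY p hp ⟨G ⧸ D, inferInstance, hfD⟩ ?_
    · exact (Subgroup.card_le_card_group _).trans_lt (card_quot_lt D hDne)
    · intro r hr hrd
      exact ⟨hr, Or.inr ⟨G ⧸ D, inferInstance, hLFD, hfD,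
        hrd.trans (Subgroup.card_subgroup_dvd_card _)⟩⟩
  obtain ⟨-, N', hN'n, hN'p, hN'f⟩ := hFP
  set ψ := (QuotientGroup.mk' D).subgroupMap M with hψ
  have hψs : Function.Surjective ψ := (QuotientGroup.mk' D).subgroupMap_surjective M
  have hNC : N'.comap ψ ≤ C := by
    refine hT M K H C (N'.comap ψ) p hp hc hcent ⟨m, hm⟩ (hN'n.comap ψ) ?_
    intro x hx
    have hx' : ψ x ∈ N' := hx
    obtain ⟨k, hk⟩ := hN'p ⟨ψ x, hx'⟩
    refine ⟨k, ?_⟩
    have h2 : (ψ x) ^ p ^ k = 1 := congrArg Subtype.val hk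
    rw [← map_pow] at h2
    have h3 : QuotientGroup.mk' D ((x ^ p ^ k : M) : G) = 1 := congrArg Subtype.val h2
    have h4 : ((x ^ p ^ k : M) : G) ∈ D := (QuotientGroup.eq_one_iff _).mp h3
    rw [hcent]
    intro h hh
    have h5 : (h : G) ∈ L := hHL hh
    have h6 := (hDc _).mp h4 (h : G) h5
    rw [Subgroup.mem_bot] at h6
    have h7 : x ^ p ^ k * h * (x ^ p ^ k)⁻¹ * h⁻¹ = 1 := by
      apply Subtype.ext
      exact h6
    rw [h7]
    exact K.one_mem
  refine transfer (hf p hp) ((QuotientGroup.mk' N').comp ψ)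
    ((QuotientGroup.mk'_surjective N').comp hψs) C ?_ hN'f
  intro x hx
  rw [MonoidHom.mem_ker, MonoidHom.comp_apply] at hx
  have hx' : ψ x ∈ N' := (QuotientGroup.eq_one_iff (ψ x)).mp hx
  exact hNC hx'

end Pool.Agent.Lib.MP_de73ed_al
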