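import Pool.Agent.Lib.MP_de73ed_al.Spec

set_option linter.all false

/-!
Module StepQ.
-/

namespace Pool.Agent.Lib.MP_de73ed_al

/-- Module StepQ. -/
theorem stepQStmt (hRA : RAllStmt) (hSR : SRStepStmt) : StepQStmt := by
  intro f hf hF hN hS hsol G _ _ hG hH p hp hX hQ hpi
  have hR := hRA f hf hF hN hS hsol p hp hX
  rcases subsingleton_or_nontrivial G with hsub | hnt
  · have hpp : IsPGroup p G := fun g => ⟨0, Subsingleton.elim _ _⟩
    exact hR p ⟨hp, Or.inl rfl⟩ G hpp
  have hs : Group.IsSolvable G := hsol G hG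
  have hcomm : commutator G < ⊤ := Group.IsSolvable.commutator_lt_top_of_nontrivial G
  obtain ⟨M, hM, hle⟩ : ∃ M : Subgroup G, IsCoatom M ∧ commutator G ≤ M := by
    rcases IsCoatomic.eq_top_or_exists_le_coatom (commutator G) with h | h
    · exact absurd h hcomm.ne
    · exact h
  have hMn : M.Normal := by
    constructor
    intro n hn g
    have h1 : g * n * g⁻¹ * n⁻¹ ∈ M := hle (Subgroup.commutator_mem_commutator
      (Subgroup.mem_top g) (Subgroup.mem_top n))
    have h2 := M.mul_mem h1 hn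
    rwa [inv_mul_cancel_right] at h2
  have hi : M.index ≠ 1 := fun h => hM.1 (Subgroup.index_eq_one.1 h)
  obtain ⟨r, hr, hrd⟩ := Nat.exists_prime_and_dvd hi
  have : Fact r.Prime := ⟨hr⟩
  have hrG : r ∣ Nat.card G := hrd.trans (Subgroup.index_dvd_card M)
  obtain ⟨S⟩ : Nonempty (Sylow r G) := inferInstance
  by_cases hST : (S : Subgroup G) = ⊤
  · have hpg : IsPGroup r G := by
      have h := S.isPGroup'
      intro g
      have hg : g ∈ (S : Subgroup G) := by rw [hST]; exact Subgroup.mem_top g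
      obtain ⟨k, hk⟩ := h ⟨g, hg⟩
      exact ⟨k, congrArg Subtype.val hk⟩
    exact hR r (hpi r hr hrG) G hpg
  have hSM : ¬ (S : Subgroup G) ≤ M := by
    intro h
    exact S.not_dvd_index (hrd.trans (Subgroup.index_dvd_of_le h))
  have hsup : M ⊔ (S : Subgroup G) = ⊤ := by
    refine hM.2 _ (lt_of_le_of_ne le_sup_left ?_)
    intro h
    exact hSM (h ▸ le_sup_right)
  have hcard : ∀ H : Subgroup G, H ≠ ⊤ → Nat.card H < Nat.card G := by
    intro H hne
    refine lt_of_le_of_ne (Subgroup.card_le_card_group H) ?_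
    intro h
    exact hne (Subgroup.eq_top_of_card_eq H h)
  have hFP : ∀ H : Subgroup G, H ≠ ⊤ → FP f p H := by
    intro H hne
    exact hQ H (hcard H hne) (hH H) fun q hq hd => hpi q hq (hd.trans (Subgroup.card_subgroup_dvd_card H))
  refine hSR f hf hF hN hS p hp G hH M S (hFP M hM.1) (hFP S hST) ?_
  intro g
  have hg : g ∈ M ⊔ (S : Subgroup G) := by rw [hsup]; exact Subgroup.mem_top g
  obtain ⟨a, ha, b, hb, hab⟩ := Subgroup.mem_sup_of_normal_left.1 hg
  exact ⟨a, ha, b, hb, hab.symm⟩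

end Pool.Agent.Lib.MP_de73ed_al
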