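import Pool.Agent.Lib.MP_de73ed_al.Spec

set_option linter.all false

/-!
MP_de73ed_al: normal subgroups inducing `p`-elements on a `p`-chief factor act trivially.
-/

namespace Pool.Agent.Lib.MP_de73ed_al

theorem trivStmt : TrivStmt := by
  intro G _ _ K H C N p hp hch hC hn hN hx
  haveI := hch.nK
  haveI := hch.nH
  haveI := hN
  haveI : Fact p.Prime := ⟨hp⟩
  set P : Subgroup (G ⧸ K) := H.map (QuotientGroup.mk' K) with hP
  haveI hPn : P.Normal := Subgroup.Normal.map hch.nH _ (QuotientGroup.mk'_surjective K)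
  let φ : N →* MulAut P :=
    (MulAut.conjNormal (H := P)).comp ((QuotientGroup.mk' K).comp N.subtype)
  have hφ : ∀ (x : N) (y : P), ((φ x y : P) : G ⧸ K) =
      QuotientGroup.mk' K (x : G) * (y : G ⧸ K) * (QuotientGroup.mk' K (x : G))⁻¹ := by
    intro x y
    exact MulAut.conjNormal_apply _ _
  have hφ1 : ∀ x : N, (x : G) ∈ C → φ x = 1 := by
    intro x hxC
    ext y
    rw [hφ, MulAut.one_apply]
    obtain ⟨y, hy⟩ := y
    obtain ⟨h, hh, rfl⟩ := hy
    show QuotientGroup.mk' K (x : G) * QuotientGroup.mk' K h * (QuotientGroup.mk' K (x : G))⁻¹ =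
      QuotientGroup.mk' K h
    rw [← map_mul, ← map_inv, ← map_mul, ← mul_inv_eq_one, ← map_inv, ← map_mul,
      ← MonoidHom.mem_ker, QuotientGroup.ker_mk']
    exact (hC x).1 hxC h hh
  have hpg : IsPGroup p φ.range := by
    rintro ⟨_, x, rfl⟩
    obtain ⟨k, hk⟩ := hx x x.2
    refine ⟨k, ?_⟩
    apply Subtype.ext
    show (φ x) ^ p ^ k = 1
    rw [← map_pow]
    apply hφ1
    rw [Subgroup.coe_pow]
    exact hk
  have hcard : Nat.card P = K.relIndex H := by
    have := Subgroup.relIndex_ker (K := H) (QuotientGroup.mk' K)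
    rw [QuotientGroup.ker_mk'] at this
    rw [this]
  have hdvd : p ∣ Nat.card P := by
    obtain ⟨n, hn⟩ := hn
    rw [hcard, hn]
    apply dvd_pow_self
    rintro rfl
    rw [pow_zero, Subgroup.relIndex_eq_one] at hn
    exact absurd (lt_of_lt_of_le hch.lt hn) (lt_irrefl _)
  have h1 : (1 : P) ∈ MulAction.fixedPoints φ.range P := by
    intro g
    exact smul_one g
  obtain ⟨y, hy, hy1⟩ := hpg.exists_fixed_point_of_prime_dvd_card_of_fixed_point P hdvd h1
  obtain ⟨y, hyP⟩ := y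
  obtain ⟨h, hh, rfl⟩ := hyP
  -- the subgroup of the fixed elements
  set Z : Subgroup G := (Subgroup.centralizer
    (N.map (QuotientGroup.mk' K) : Set (G ⧸ K))).comap (QuotientGroup.mk' K) ⊓ H with hZ
  haveI : (N.map (QuotientGroup.mk' K)).Normal :=
    Subgroup.Normal.map hN _ (QuotientGroup.mk'_surjective K)
  have hZn : Z.Normal := by
    rw [hZ]
    infer_instance
  have hZmem : ∀ z, z ∈ Z ↔ z ∈ H ∧ ∀ x ∈ N, x * z * x⁻¹ * z⁻¹ ∈ K := by
    intro z
    rw [hZ, Subgroup.mem_inf, Subgroup.mem_comap, Subgroup.mem_centralizer_iff, and_comm]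
    refine and_congr Iff.rfl ?_
    constructor
    · intro h3 x hxN
      have h4 := h3 (QuotientGroup.mk' K x) ⟨x, hxN, rfl⟩
      have h5 : QuotientGroup.mk' K (x * z * x⁻¹ * z⁻¹) = 1 := by
        rw [map_mul, map_mul, map_mul, map_inv, map_inv, h4]
        group
      rwa [← MonoidHom.mem_ker, QuotientGroup.ker_mk'] at h5
    · rintro h3 _ ⟨x, hxN, rfl⟩
      have h4 := h3 x hxN
      rw [← QuotientGroup.ker_mk' K, MonoidHom.mem_ker, map_mul, map_mul, map_mul, map_inv,
        map_inv, mul_inv_eq_one, mul_inv_eq_iff_eq_mul] at h4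
      exact h4
  have hKZ : K ≤ Z := by
    intro k hk
    rw [hZmem]
    refine ⟨hch.lt.le hk, fun x _ => ?_⟩
    exact K.mul_mem (hch.nK.conj_mem k hk x) (K.inv_mem hk)
  have hZH : Z ≤ H := fun z hz => ((hZmem z).1 hz).1
  have hhZ : h ∈ Z := by
    rw [hZmem]
    refine ⟨hh, fun x hxN => ?_⟩
    have h3 := hy ⟨φ ⟨x, hxN⟩, ⟨x, hxN⟩, rfl⟩
    have h4 := congrArg (fun z : P => (z : G ⧸ K)) h3
    have h5 : QuotientGroup.mk' K x * QuotientGroup.mk' K h * (QuotientGroup.mk' K x)⁻¹ =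
        QuotientGroup.mk' K h := by
      rw [← hφ ⟨x, hxN⟩ ⟨QuotientGroup.mk' K h, ⟨h, hh, rfl⟩⟩]
      exact h4
    rw [← map_mul, ← map_inv, ← map_mul, ← mul_inv_eq_one, ← map_inv, ← map_mul,
      ← MonoidHom.mem_ker, QuotientGroup.ker_mk'] at h5
    exact h5
  have hhK : h ∉ K := by
    intro hhK
    apply hy1
    apply Subtype.ext
    show (1 : G ⧸ K) = QuotientGroup.mk' K h
    symm
    rw [← MonoidHom.mem_ker, QuotientGroup.ker_mk']
    exact hhK
  rcases hch.eq Z hZn hKZ hZH with h3 | h3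
  · rw [h3] at hhZ
    exact absurd hhZ hhK
  · intro x hxN
    rw [hC]
    intro z hz
    rw [← h3] at hz
    exact ((hZmem z).1 hz).2 x hxN

end Pool.Agent.Lib.MP_de73ed_al
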