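import Pool.Agent.Lib.MP_de73ed_al.Spec

set_option linter.all false

/-! Module Up. -/

namespace Pool.Agent.Lib.MP_de73ed_al

theorem upStmt (hCF : CFStmt) (hT : TrivStmt) : UpStmt := by
  intro f hf p hp W _ _ V _ hV hFP
  obtain ⟨hLF, N', hN', hN'p, hfN'⟩ := hFP
  apply hCF f hf W V hLF
  intro K H C _ hKH hHV hC q hq hqd
  have hpow : ∃ n : ℕ, K.relIndex H = p ^ n := by
    have : Fact p.Prime := ⟨hp⟩
    obtain ⟨n, hn⟩ := IsPGroup.iff_card.mp (hV.to_le hHV)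
    have hdvd : K.relIndex H ∣ Nat.card H := Subgroup.relIndex_dvd_card K H
    rw [hn] at hdvd
    obtain ⟨m, -, hm⟩ := (Nat.dvd_prime_pow hp).mp hdvd
    exact ⟨m, hm⟩
  obtain ⟨n, hn⟩ := hpow
  have hqp : q = p := by
    rw [hn] at hqd
    exact (Nat.prime_dvd_prime_iff_eq hq hp).mp (hq.dvd_of_dvd_pow hqd)
  subst hqp
  have hVN : V ≤ N'.comap (QuotientGroup.mk' V) := by
    intro x hx
    rw [Subgroup.mem_comap]
    have : QuotientGroup.mk' V x = 1 := (QuotientGroup.eq_one_iff x).mpr hx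
    rw [this]
    exact N'.one_mem
  have hNC : N'.comap (QuotientGroup.mk' V) ≤ C := by
    refine hT W K H C _ q hq hKH hC ⟨n, hn⟩ inferInstance fun x hx => ?_
    obtain ⟨k, hk⟩ := hN'p ⟨QuotientGroup.mk' V x, hx⟩
    have h1 : QuotientGroup.mk' V (x ^ q ^ k) = 1 := by
      rw [map_pow]
      exact congrArg Subtype.val hk
    have h2 : x ^ q ^ k ∈ V := (QuotientGroup.eq_one_iff _).mp h1
    obtain ⟨j, hj⟩ := hV ⟨x ^ q ^ k, h2⟩
    have h3 : (x ^ q ^ k) ^ q ^ j = 1 := congrArg Subtype.val hj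
    refine ⟨k + j, ?_⟩
    rw [pow_add, pow_mul, h3]
    exact C.one_mem
  have hVC : V ≤ C := hVN.trans hNC
  let φ1 : W ⧸ V →* W ⧸ C := QuotientGroup.lift V (QuotientGroup.mk' C)
    (fun x hx => (QuotientGroup.eq_one_iff x).mpr (hVC hx))
  have hφ1 : ∀ x : W, φ1 (QuotientGroup.mk' V x) = QuotientGroup.mk' C x := fun x => rfl
  let φ : (W ⧸ V) ⧸ N' →* W ⧸ C := QuotientGroup.lift N' φ1 (by
    intro y hy
    obtain ⟨x, rfl⟩ := QuotientGroup.mk'_surjective V y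
    rw [MonoidHom.mem_ker, hφ1]
    exact (QuotientGroup.eq_one_iff x).mpr (hNC hy))
  refine (hf q hq).quot _ _ φ ?_ hfN'
  intro z
  obtain ⟨x, rfl⟩ := QuotientGroup.mk'_surjective C z
  exact ⟨QuotientGroup.mk' N' (QuotientGroup.mk' V x), rfl⟩

end Pool.Agent.Lib.MP_de73ed_al
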