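import Pool.Agent.Lib.MP_de73ed_al.Spec

set_option linter.all false

/-!
Module Wr: regular wreath products with a cyclic group of prime order.
-/

namespace Pool.Agent.Lib.MP_de73ed_al

namespace Wr

open RegularWreathProduct

variable {p : ℕ} {G : Type} [Group G]

/-- The base element with the single nontrivial entry `c` at `1`. -/
noncomputable def single (c : Multiplicative (ZMod p)) :
    RegularWreathProduct (Multiplicative (ZMod p)) G := by
  classical
  exact ⟨Pi.mulSingle (1 : G) c, 1⟩

lemma single_right (c : Multiplicative (ZMod p)) :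
    (single c : RegularWreathProduct (Multiplicative (ZMod p)) G).right = 1 := rfl

lemma single_one (c : Multiplicative (ZMod p)) :
    (single c : RegularWreathProduct (Multiplicative (ZMod p)) G).left 1 = c := by
  classical
  change (Pi.mulSingle (1 : G) c : G → Multiplicative (ZMod p)) 1 = c
  simp

lemma single_ne (c : Multiplicative (ZMod p)) {g : G} (hg : g ≠ 1) :
    (single c : RegularWreathProduct (Multiplicative (ZMod p)) G).left g = 1 := by
  classical
  change (Pi.mulSingle (1 : G) c : G → Multiplicative (ZMod p)) g = 1
  exact Pi.mulSingle_eq_of_ne (M := fun _ : G => Multiplicative (ZMod p)) hg c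

lemma mem_ker {w : RegularWreathProduct (Multiplicative (ZMod p)) G} :
    w ∈ (rightHom : RegularWreathProduct (Multiplicative (ZMod p)) G →* G).ker ↔ w.right = 1 :=
  Iff.rfl

lemma pow_of_right {w : RegularWreathProduct (Multiplicative (ZMod p)) G} (h : w.right = 1)
    (n : ℕ) : w ^ n = ⟨w.left ^ n, 1⟩ := by
  induction n with
  | zero => simp only [pow_zero]; rfl
  | succ n ih =>
    rw [pow_succ, ih]
    apply RegularWreathProduct.ext
    · funext x
      simp [pow_succ]
    · simp [h]

lemma pow_p (x : Multiplicative (ZMod p)) : x ^ p = 1 := by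
  apply Multiplicative.toAdd.injective
  rw [toAdd_pow, toAdd_one, nsmul_eq_mul, CharP.cast_eq_zero, zero_mul]

end Wr

open RegularWreathProduct Wr in
/-- Module Wr. -/
theorem wrStmt : WrStmt := by
  intro p hp G _ _
  have : Fact p.Prime := ⟨hp⟩
  obtain ⟨c, hc⟩ : ∃ c : Multiplicative (ZMod p), c ≠ 1 := exists_ne 1
  refine ⟨RegularWreathProduct (Multiplicative (ZMod p)) G, inferInstance, rightHom, ?_, ?_, ?_,
    ?_, ?_, ?_⟩
  · have : Finite (Multiplicative (ZMod p)) := inferInstanceAs (Finite (ZMod p))
    infer_instance
  · intro g
    exact ⟨inl g, rfl⟩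
  · intro h
    have h1 : (single c : RegularWreathProduct (Multiplicative (ZMod p)) G) ∈
        (rightHom : RegularWreathProduct (Multiplicative (ZMod p)) G →* G).ker := rfl
    rw [h, Subgroup.mem_bot] at h1
    apply hc
    rw [← single_one (G := G) c, h1]
    rfl
  · intro v hv
    rw [pow_of_right (mem_ker.1 hv)]
    apply RegularWreathProduct.ext
    · funext x
      exact pow_p _
    · rfl
  · intro v hv w hw
    rw [mem_ker] at hv hw
    apply RegularWreathProduct.ext
    · funext x
      simp [hv, hw, mul_comm]
    · simp [hv, hw]
  · intro w hw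
    rw [mem_ker]
    by_contra hne
    have h1 := hw (single c) rfl
    have h2 := congrFun (congrArg RegularWreathProduct.left h1) w.right
    simp only [mul_left, Pi.mul_apply, inv_mul_cancel, single_one, single_ne c hne, one_mul,
      single_right, inv_one] at h2
    exact hc (mul_left_cancel (a := w.left w.right) (by rw [h2, mul_one]))

end Pool.Agent.Lib.MP_de73ed_al
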